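import Pool.Agent.Lib.MP_bc2066_lc.KPair

/-!
Forcing conditions and the first density lemmas.
-/

namespace Pool.Agent.MP_bc2066_lc

/-- A forcing condition: finite information about `B` (`Np`, `Nm`), `C` (`Mp`, `Mm`), locked columns
`Wp`, columns that may never be locked `Wm`, `T` (`Tp`, `Tm`) and an initial part `sg` of `h`. -/
structure Cond where
  Np : Finset ℕ
  Nm : Finset ℕ
  Mp : Finset ℕ
  Mm : Finset ℕ
  Wp : Finset ℕ
  Wm : Finset ℕ
  Tp : Finset ℕ
  Tm : Finset ℕ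
  sg : List ℕ
  hN : ∀ n ∈ Np, n ∉ Nm
  hM : ∀ m ∈ Mp, m ∉ Mm
  hW : ∀ w ∈ Wp, w ∉ Wm
  hT : ∀ e ∈ Tp, e ∉ Tm
  h1 : ∀ n ∈ Nm, ∀ m ∈ Mm, Nat.pair n m ∉ Wp
  h2 : ∀ w ∈ Wm, (Nat.unpair w).1 ∈ Nm ∨ (Nat.unpair w).2 ∈ Mm

/-- `q` extends `p` -/
structure Ext (p q : Cond) : Prop where
  Np : p.Np ⊆ q.Np
  Nm : p.Nm ⊆ q.Nm
  Mp : p.Mp ⊆ q.Mp
  Mm : p.Mm ⊆ q.Mm
  Wp : p.Wp ⊆ q.Wp
  Wm : p.Wm ⊆ q.Wm
  Tp : p.Tp ⊆ q.Tp
  Tm : p.Tm ⊆ q.Tm
  sg : p.sg <+: q.sg
  lock : ∀ e ∈ q.Tp, e ∉ p.Tp → (Nat.unpair e).1 ∉ p.Wp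

theorem Ext.refl (p : Cond) : Ext p p :=
  ⟨Finset.Subset.refl _, Finset.Subset.refl _, Finset.Subset.refl _, Finset.Subset.refl _,
    Finset.Subset.refl _, Finset.Subset.refl _, Finset.Subset.refl _, Finset.Subset.refl _,
    List.prefix_refl _, fun _ h1 h2 => (h2 h1).elim⟩

theorem Ext.trans {p q r : Cond} (h1 : Ext p q) (h2 : Ext q r) : Ext p r := by
  refine ⟨h1.Np.trans h2.Np, h1.Nm.trans h2.Nm, h1.Mp.trans h2.Mp, h1.Mm.trans h2.Mm,
    h1.Wp.trans h2.Wp, h1.Wm.trans h2.Wm, h1.Tp.trans h2.Tp, h1.Tm.trans h2.Tm,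
    h1.sg.trans h2.sg, fun e he hep => ?_⟩
  by_cases heq : e ∈ q.Tp
  · exact h1.lock e heq hep
  · exact fun h3 => h2.lock e he heq (h1.Wp h3)

/-- the fixed part of the oracle -/
def Jof (Y0 Tp Tm : Set ℕ) : Set ℕ := join (join Tp Y0) (join Tm Y0ᶜ)

/-- the base oracle -/
def Aof (Y0 W Tp Tm : Set ℕ) : Set ℕ := join W (Jof Y0 Tp Tm)

/-- the base oracle together with a graph -/
def Xof (Y0 W Tp Tm H : Set ℕ) : Set ℕ := join (Aof Y0 W Tp Tm) H

/-- graph of a finite sequence -/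
def gl (sg : List ℕ) : Set ℕ := {x | sg[(Nat.unpair x).1]? = some (Nat.unpair x).2}

theorem join_mono {A B A' B' : Set ℕ} (h1 : A ⊆ A') (h2 : B ⊆ B') : join A B ⊆ join A' B' := by
  rintro x (⟨h, h'⟩ | ⟨h, h'⟩)
  · exact Or.inl ⟨h, h1 h'⟩
  · exact Or.inr ⟨h, h2 h'⟩

theorem aof_mono {Y0 W Tp Tm W' Tp' Tm' : Set ℕ} (h1 : W ⊆ W') (h2 : Tp ⊆ Tp') (h3 : Tm ⊆ Tm') :
    Aof Y0 W Tp Tm ⊆ Aof Y0 W' Tp' Tm' :=
  join_mono h1 (join_mono (join_mono h2 (Set.Subset.refl _)) (join_mono h3 (Set.Subset.refl _)))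

theorem xof_mono {Y0 W Tp Tm H W' Tp' Tm' H' : Set ℕ} (h1 : W ⊆ W') (h2 : Tp ⊆ Tp')
    (h3 : Tm ⊆ Tm') (h4 : H ⊆ H') : Xof Y0 W Tp Tm H ⊆ Xof Y0 W' Tp' Tm' H' :=
  join_mono (aof_mono h1 h2 h3) h4

theorem gl_mono {s t : List ℕ} (h : s <+: t) : gl s ⊆ gl t := by
  intro x hx
  obtain ⟨u, rfl⟩ := h
  have h1 : s[(Nat.unpair x).1]? = some (Nat.unpair x).2 := hx
  obtain ⟨h2, h3⟩ := List.getElem?_eq_some_iff.1 h1
  change (s ++ u)[(Nat.unpair x).1]? = some (Nat.unpair x).2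
  rw [List.getElem?_append_left h2, h1]

variable (Y0 : Set ℕ)

/-- facts about the base oracle decided by `p` -/
def Ap (p : Cond) : Set ℕ := Aof Y0 (p.Wp : Set ℕ) (p.Tp : Set ℕ) (p.Tm : Set ℕ)

/-- facts about the base oracle and `h` decided by `p` -/
def Xp (p : Cond) : Set ℕ := Xof Y0 (p.Wp : Set ℕ) (p.Tp : Set ℕ) (p.Tm : Set ℕ) (gl p.sg)

/-- the elements of `Q` decided by `p`, for the operator `e` -/
def Qp (e : ℕ) (p : Cond) : Set ℕ := {κ | ∃ n ∈ p.Nm, Nat.pair n κ ∈ Ev e (Ap Y0 p)}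

variable {Y0}

theorem ap_mono {p q : Cond} (h : Ext p q) : Ap Y0 p ⊆ Ap Y0 q :=
  aof_mono (Finset.coe_subset.2 h.Wp) (Finset.coe_subset.2 h.Tp) (Finset.coe_subset.2 h.Tm)

theorem xp_mono {p q : Cond} (h : Ext p q) : Xp Y0 p ⊆ Xp Y0 q :=
  xof_mono (Finset.coe_subset.2 h.Wp) (Finset.coe_subset.2 h.Tp) (Finset.coe_subset.2 h.Tm)
    (gl_mono h.sg)

theorem qp_mono {e : ℕ} {p q : Cond} (h : Ext p q) : Qp Y0 e p ⊆ Qp Y0 e q := by
  rintro κ ⟨n, hn, hκ⟩
  exact ⟨n, h.Nm hn, Ev.mono (ap_mono h) hκ⟩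

/-- a bound for all numbers mentioned in the status part of `p` -/
theorem exists_bnd (p : Cond) : ∃ K, (∀ x ∈ p.Np, x < K) ∧ (∀ x ∈ p.Nm, x < K) ∧
    (∀ x ∈ p.Mp, x < K) ∧ (∀ x ∈ p.Mm, x < K) ∧ (∀ x ∈ p.Wp, x < K) ∧ (∀ x ∈ p.Wm, x < K) := by
  obtain ⟨K, hK⟩ := Finset.exists_nat_subset_range
    (p.Np ∪ p.Nm ∪ p.Mp ∪ p.Mm ∪ p.Wp ∪ p.Wm)
  have h : ∀ x ∈ p.Np ∪ p.Nm ∪ p.Mp ∪ p.Mm ∪ p.Wp ∪ p.Wm, x < K := fun x hx =>
    Finset.mem_range.1 (hK hx)
  simp only [Finset.mem_union] at h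
  exact ⟨K, fun x hx => h x (by tauto), fun x hx => h x (by tauto), fun x hx => h x (by tauto),
    fun x hx => h x (by tauto), fun x hx => h x (by tauto), fun x hx => h x (by tauto)⟩

theorem lt_of_pair_left {K : ℕ} {S : Finset ℕ} (h : ∀ x ∈ S, x < K) {n m : ℕ}
    (hm : Nat.pair n m ∈ S) : n < K := lt_of_le_of_lt (Nat.left_le_pair n m) (h _ hm)

theorem lt_of_pair_right {K : ℕ} {S : Finset ℕ} (h : ∀ x ∈ S, x < K) {n m : ℕ}
    (hm : Nat.pair n m ∈ S) : m < K := lt_of_le_of_lt (Nat.right_le_pair n m) (h _ hm)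

/-! ### Diagonalization for `B` and `C` -/

/-- density: `B` is not the value of the `e`-th operator -/
theorem dense_B (e : ℕ) (p : Cond) : ∃ r, Ext p r ∧
    ∃ n, (n ∈ r.Nm ∧ n ∈ Ev e (Xp Y0 r)) ∨ (n ∈ r.Np ∧ ∀ q, Ext r q → n ∉ Ev e (Xp Y0 q)) := by
  obtain ⟨K, hNp, hNm, hMp, hMm, hWp, hWm⟩ := exists_bnd p
  have hKNm : K ∉ p.Nm := fun h => lt_irrefl _ (hNm K h)
  have hKNp : K ∉ p.Np := fun h => lt_irrefl _ (hNp K h)
  have hKWp : ∀ m, Nat.pair K m ∉ p.Wp := fun m h => lt_irrefl _ (lt_of_pair_left hWp h)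
  let q0 : Cond :=
    { p with
      Np := insert K p.Np
      Wm := p.Wm ∪ p.Mm.image (fun m => Nat.pair K m)
      hN := by
        intro n hn
        rcases Finset.mem_insert.1 hn with rfl | hn
        · exact hKNm
        · exact p.hN n hn
      hW := by
        intro w hw hw'
        rcases Finset.mem_union.1 hw' with hw' | hw'
        · exact p.hW w hw hw'
        · obtain ⟨m, -, rfl⟩ := Finset.mem_image.1 hw'
          exact hKWp m hw
      h2 := by
        intro w hw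
        rcases Finset.mem_union.1 hw with hw | hw
        · exact p.h2 w hw
        · obtain ⟨m, hm, rfl⟩ := Finset.mem_image.1 hw
          rw [Nat.unpair_pair]
          exact Or.inr hm }
  have hq0 : Ext p q0 :=
    { Ext.refl p with
      Np := Finset.subset_insert _ _
      Wm := Finset.subset_union_left }
  by_cases h : ∃ q, Ext q0 q ∧ K ∈ Ev e (Xp Y0 q)
  · obtain ⟨q, hq, hK⟩ := h
    have hpq := hq0.trans hq
    have hKq : ∀ m ∈ p.Mm, Nat.pair K m ∉ q.Wp := fun m hm hcon =>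
      q.hW _ hcon (hq.Wm (Finset.mem_union_right _ (Finset.mem_image.2 ⟨m, hm, rfl⟩)))
    let r : Cond :=
      { p with
        Nm := insert K p.Nm
        Wp := q.Wp
        Tp := q.Tp
        Tm := q.Tm
        sg := q.sg
        hN := by
          intro n hn hn'
          rcases Finset.mem_insert.1 hn' with rfl | hn'
          · exact hKNp hn
          · exact p.hN n hn hn'
        hW := fun w hw hw' => q.hW w hw (hpq.Wm hw')
        hT := q.hT
        h1 := by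
          intro n hn m hm hw
          rcases Finset.mem_insert.1 hn with rfl | hn
          · exact hKq m hm hw
          · exact q.h1 n (hpq.Nm hn) m (hpq.Mm hm) hw
        h2 := fun w hw => (p.h2 w hw).imp (fun h => Finset.mem_insert_of_mem h) id }
    refine ⟨r, ?_, K, Or.inl ⟨Finset.mem_insert_self _ _, hK⟩⟩
    exact { Ext.refl p with
      Nm := Finset.subset_insert _ _
      Wp := hpq.Wp
      Tp := hpq.Tp
      Tm := hpq.Tm
      sg := hpq.sg
      lock := hpq.lock }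
  · push Not at h
    exact ⟨q0, hq0, K, Or.inr ⟨Finset.mem_insert_self _ _, h⟩⟩

/-- density: `C` is not the value of the `e`-th operator -/
theorem dense_C (e : ℕ) (p : Cond) : ∃ r, Ext p r ∧
    ∃ n, (n ∈ r.Mm ∧ n ∈ Ev e (Xp Y0 r)) ∨ (n ∈ r.Mp ∧ ∀ q, Ext r q → n ∉ Ev e (Xp Y0 q)) := by
  obtain ⟨K, hNp, hNm, hMp, hMm, hWp, hWm⟩ := exists_bnd p
  have hKMm : K ∉ p.Mm := fun h => lt_irrefl _ (hMm K h)
  have hKMp : K ∉ p.Mp := fun h => lt_irrefl _ (hMp K h)
  have hKWp : ∀ m, Nat.pair m K ∉ p.Wp := fun m h => lt_irrefl _ (lt_of_pair_right hWp h)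
  let q0 : Cond :=
    { p with
      Mp := insert K p.Mp
      Wm := p.Wm ∪ p.Nm.image (fun m => Nat.pair m K)
      hM := by
        intro n hn
        rcases Finset.mem_insert.1 hn with rfl | hn
        · exact hKMm
        · exact p.hM n hn
      hW := by
        intro w hw hw'
        rcases Finset.mem_union.1 hw' with hw' | hw'
        · exact p.hW w hw hw'
        · obtain ⟨m, -, rfl⟩ := Finset.mem_image.1 hw'
          exact hKWp m hw
      h2 := by
        intro w hw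
        rcases Finset.mem_union.1 hw with hw | hw
        · exact p.h2 w hw
        · obtain ⟨m, hm, rfl⟩ := Finset.mem_image.1 hw
          rw [Nat.unpair_pair]
          exact Or.inl hm }
  have hq0 : Ext p q0 :=
    { Ext.refl p with
      Mp := Finset.subset_insert _ _
      Wm := Finset.subset_union_left }
  by_cases h : ∃ q, Ext q0 q ∧ K ∈ Ev e (Xp Y0 q)
  · obtain ⟨q, hq, hK⟩ := h
    have hpq := hq0.trans hq
    have hKq : ∀ m ∈ p.Nm, Nat.pair m K ∉ q.Wp := fun m hm hcon =>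
      q.hW _ hcon (hq.Wm (Finset.mem_union_right _ (Finset.mem_image.2 ⟨m, hm, rfl⟩)))
    let r : Cond :=
      { p with
        Mm := insert K p.Mm
        Wp := q.Wp
        Tp := q.Tp
        Tm := q.Tm
        sg := q.sg
        hM := by
          intro n hn hn'
          rcases Finset.mem_insert.1 hn' with rfl | hn'
          · exact hKMp hn
          · exact p.hM n hn hn'
        hW := fun w hw hw' => q.hW w hw (hpq.Wm hw')
        hT := q.hT
        h1 := by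
          intro n hn m hm hw
          rcases Finset.mem_insert.1 hm with rfl | hm
          · exact hKq n hn hw
          · exact q.h1 n (hpq.Nm hn) m (hpq.Mm hm) hw
        h2 := fun w hw => (p.h2 w hw).imp id (fun h => Finset.mem_insert_of_mem h) }
    refine ⟨r, ?_, K, Or.inl ⟨Finset.mem_insert_self _ _, hK⟩⟩
    exact { Ext.refl p with
      Mm := Finset.subset_insert _ _
      Wp := hpq.Wp
      Tp := hpq.Tp
      Tm := hpq.Tm
      sg := hpq.sg
      lock := hpq.lock }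
  · push Not at h
    exact ⟨q0, hq0, K, Or.inr ⟨Finset.mem_insert_self _ _, h⟩⟩

/-! ### Simple density lemmas -/

theorem dense_N (n : ℕ) (p : Cond) : ∃ r, Ext p r ∧ (n ∈ r.Np ∨ n ∈ r.Nm) := by
  by_cases h0 : n ∈ p.Nm
  · exact ⟨p, Ext.refl p, Or.inr h0⟩
  · refine ⟨{ p with
      Np := insert n p.Np
      hN := ?_ }, { Ext.refl p with Np := Finset.subset_insert _ _ },
      Or.inl (Finset.mem_insert_self _ _)⟩
    intro x hx hx'
    rcases Finset.mem_insert.1 hx with rfl | hx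
    · exact h0 hx'
    · exact p.hN x hx hx'

theorem dense_M (n : ℕ) (p : Cond) : ∃ r, Ext p r ∧ (n ∈ r.Mp ∨ n ∈ r.Mm) := by
  by_cases h0 : n ∈ p.Mm
  · exact ⟨p, Ext.refl p, Or.inr h0⟩
  · refine ⟨{ p with
      Mp := insert n p.Mp
      hM := ?_ }, { Ext.refl p with Mp := Finset.subset_insert _ _ },
      Or.inl (Finset.mem_insert_self _ _)⟩
    intro x hx hx'
    rcases Finset.mem_insert.1 hx with rfl | hx
    · exact h0 hx'
    · exact p.hM x hx hx'

/-- a column that is not locked receives arbitrarily late elements -/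
theorem dense_col (w v : ℕ) (p : Cond) : ∃ r, Ext p r ∧
    (w ∈ r.Wp ∨ ∃ t, v ≤ t ∧ Nat.pair w t ∈ r.Tp) := by
  by_cases h0 : w ∈ p.Wp
  · exact ⟨p, Ext.refl p, Or.inl h0⟩
  · obtain ⟨K, hK⟩ := Finset.exists_nat_subset_range p.Tm
    have hK' : Nat.pair w (max v K) ∉ p.Tm := by
      intro h
      have h1 := Finset.mem_range.1 (hK h)
      have h2 := Nat.right_le_pair w (max v K)
      omega
    refine ⟨{ p with
      Tp := insert (Nat.pair w (max v K)) p.Tp
      hT := ?_ }, { Ext.refl p with Tp := Finset.subset_insert _ _, lock := ?_ },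
      Or.inr ⟨max v K, le_max_left _ _, Finset.mem_insert_self _ _⟩⟩
    · intro x hx hx'
      rcases Finset.mem_insert.1 hx with rfl | hx
      · exact hK' hx'
      · exact p.hT x hx hx'
    · intro x hx hx'
      rcases Finset.mem_insert.1 hx with rfl | hx
      · rw [Nat.unpair_pair]; exact h0
      · exact (hx' hx).elim

/-- pairs in `B × C` get locked -/
theorem dense_lock (n m : ℕ) (p : Cond) : ∃ r, Ext p r ∧
    (n ∈ r.Nm ∨ m ∈ r.Mm ∨ Nat.pair n m ∈ r.Wp) := by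
  obtain ⟨q, hpq, hq⟩ := dense_N n p
  obtain ⟨r, hqr, hr⟩ := dense_M m q
  rcases hq with hq | hq
  · rcases hr with hr | hr
    · have hnNm : n ∉ r.Nm := r.hN n (hqr.Np hq)
      have hmMm : m ∉ r.Mm := r.hM m hr
      refine ⟨{ r with
        Wp := insert (Nat.pair n m) r.Wp
        hW := ?_
        h1 := ?_ }, (hpq.trans hqr).trans { Ext.refl r with Wp := Finset.subset_insert _ _ },
        Or.inr (Or.inr (Finset.mem_insert_self _ _))⟩
      · intro x hx hx'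
        rcases Finset.mem_insert.1 hx with rfl | hx
        · have := r.h2 _ hx'
          rw [Nat.unpair_pair] at this
          exact this.elim hnNm hmMm
        · exact r.hW x hx hx'
      · intro a ha b hb hab
        rcases Finset.mem_insert.1 hab with hab | hab
        · exact hnNm ((Nat.pair_eq_pair.1 hab).1 ▸ ha)
        · exact r.h1 a ha b hb hab
    · exact ⟨r, hpq.trans hqr, Or.inr (Or.inl hr)⟩
  · exact ⟨r, hpq.trans hqr, Or.inl (hqr.Nm hq)⟩

theorem dense_T (e : ℕ) (p : Cond) : ∃ r, Ext p r ∧ (e ∈ r.Tp ∨ e ∈ r.Tm) := by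
  by_cases h0 : e ∈ p.Tp
  · exact ⟨p, Ext.refl p, Or.inl h0⟩
  · refine ⟨{ p with
      Tm := insert e p.Tm
      hT := ?_ }, { Ext.refl p with Tm := Finset.subset_insert _ _ },
      Or.inr (Finset.mem_insert_self _ _)⟩
    intro x hx hx'
    rcases Finset.mem_insert.1 hx' with rfl | hx'
    · exact h0 hx
    · exact p.hT x hx hx'

theorem dense_h (i : ℕ) (p : Cond) : ∃ r, Ext p r ∧ i < r.sg.length := by
  refine ⟨{ p with sg := p.sg ++ List.replicate (i + 1) 0 },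
    { Ext.refl p with sg := List.prefix_append _ _ }, ?_⟩
  change i < (p.sg ++ List.replicate (i + 1) 0).length
  simp
  omega

end Pool.Agent.MP_bc2066_lc
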