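import Pool.Agent.Lib.MP_bc2066_lc.KPair

/-!
Predicates decidable relative to a set, and iteration.
-/

namespace Pool.Agent.MP_bc2066_lc

open Encodable Primrec

variable {α β γ : Type*} [Primcodable α] [Primcodable β] [Primcodable γ]

/-- both `p` and its negation are enumeration reducible to `X` -/
def Dec (X : Set ℕ) (p : α → Prop) : Prop := EP X p ∧ EP X (fun a => ¬ p a)

namespace Dec

theorem of_eq {X : Set ℕ} {p q : α → Prop} (hp : Dec X p) (h : ∀ a, p a ↔ q a) : Dec X q :=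
  (funext fun a => propext (h a) : p = q) ▸ hp

theorem not {X : Set ℕ} {p : α → Prop} (hp : Dec X p) : Dec X (fun a => ¬ p a) :=
  ⟨hp.2, hp.1.of_eq (fun a => by tauto)⟩

theorem and {X : Set ℕ} {p q : α → Prop} (hp : Dec X p) (hq : Dec X q) :
    Dec X (fun a => p a ∧ q a) :=
  ⟨hp.1.and hq.1, (hp.2.or hq.2).of_eq (fun a => by tauto)⟩

theorem or {X : Set ℕ} {p q : α → Prop} (hp : Dec X p) (hq : Dec X q) :
    Dec X (fun a => p a ∨ q a) :=
  ⟨hp.1.or hq.1, (hp.2.and hq.2).of_eq (fun a => by tauto)⟩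

theorem imp {X : Set ℕ} {p q : α → Prop} (hp : Dec X p) (hq : Dec X q) :
    Dec X (fun a => p a → q a) :=
  (hp.not.or hq).of_eq (fun a => by tauto)

theorem prim {X : Set ℕ} {p : α → Prop} (hp : PrimrecPred p) : Dec X p :=
  ⟨EP.prim hp, EP.prim hp.not⟩

theorem comp {X : Set ℕ} {p : β → Prop} (hp : Dec X p) {f : α → β} (hf : Primrec f) :
    Dec X (fun a => p (f a)) :=
  ⟨hp.1.comp hf, hp.2.comp hf⟩

theorem comp₂ {X : Set ℕ} {p : β → γ → Prop} (hp : Dec X (fun x : β × γ => p x.1 x.2))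
    {f : α → β} {g : α → γ} (hf : Primrec f) (hg : Primrec g) : Dec X (fun a => p (f a) (g a)) :=
  hp.comp (hf.pair hg)

theorem comp₃ {δ : Type*} [Primcodable δ] {X : Set ℕ} {p : β → γ → δ → Prop}
    (hp : Dec X (fun x : β × γ × δ => p x.1 x.2.1 x.2.2))
    {f : α → β} {g : α → γ} {h : α → δ} (hf : Primrec f) (hg : Primrec g) (hh : Primrec h) :
    Dec X (fun a => p (f a) (g a) (h a)) :=
  hp.comp (hf.pair (hg.pair hh))

theorem comp₄ {δ ε : Type*} [Primcodable δ] [Primcodable ε] {X : Set ℕ}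
    {p : β → γ → δ → ε → Prop}
    (hp : Dec X (fun x : β × γ × δ × ε => p x.1 x.2.1 x.2.2.1 x.2.2.2))
    {f : α → β} {g : α → γ} {h : α → δ} {k : α → ε} (hf : Primrec f) (hg : Primrec g)
    (hh : Primrec h) (hk : Primrec k) :
    Dec X (fun a => p (f a) (g a) (h a) (k a)) :=
  hp.comp (hf.pair (hg.pair (hh.pair hk)))

theorem ballList {X : Set ℕ} {p : α → β → Prop} {l : α → List β} (hl : Primrec l)
    (hp : Dec X (fun x : α × β => p x.1 x.2)) : Dec X (fun a => ∀ b ∈ l a, p a b) :=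
  ⟨EP.ballList hl hp.1, (EP.exList hl hp.2).of_eq (fun a => by push Not; rfl)⟩

theorem exList {X : Set ℕ} {p : α → β → Prop} {l : α → List β} (hl : Primrec l)
    (hp : Dec X (fun x : α × β => p x.1 x.2)) : Dec X (fun a => ∃ b ∈ l a, p a b) :=
  ⟨EP.exList hl hp.1, (EP.ballList hl hp.2).of_eq (fun a => by push Not; rfl)⟩

theorem ballLT {X : Set ℕ} {p : α → ℕ → Prop} {n : α → ℕ} (hn : Primrec n)
    (hp : Dec X (fun x : α × ℕ => p x.1 x.2)) : Dec X (fun a => ∀ i < n a, p a i) :=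
  (ballList (Primrec.list_range.comp hn) hp).of_eq (fun a => by simp)

theorem exLT {X : Set ℕ} {p : α → ℕ → Prop} {n : α → ℕ} (hn : Primrec n)
    (hp : Dec X (fun x : α × ℕ => p x.1 x.2)) : Dec X (fun a => ∃ i < n a, p a i) :=
  (exList (Primrec.list_range.comp hn) hp).of_eq (fun a => by simp)

theorem mem {X : Set ℕ} (hX : EnumRed Xᶜ X) {f : α → ℕ} (hf : Primrec f) :
    Dec X (fun a => f a ∈ X) :=
  ⟨EP.mem hf, ((enumRed_iff.1 hX).comp hf).of_eq (fun a => Iff.rfl)⟩

end Dec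

/-- the graph of an iteration whose step relation is enumeration reducible to `X` -/
theorem EP.iter {X : Set ℕ} {f : ℕ → β} {St : ℕ → β → β → Prop}
    (hSt : EP X (fun x : ℕ × β × β => St x.1 x.2.1 x.2.2))
    (hf : ∀ n b, St n (f n) b ↔ b = f (n + 1)) : EP X (fun x : ℕ × β => f x.1 = x.2) := by
  have key : EP X (fun x : ℕ × β => ∃ L : List β, (L[0]? = some (f 0) ∧ L[x.1]? = some x.2) ∧
      ∀ i < x.1, ∃ b1 b2, (L[i]? = some b1 ∧ L[i + 1]? = some b2) ∧ St i b1 b2) := by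
    refine EP.ex (EP.and (EP.prim ?_) (EP.ballLT ?_ (EP.ex (EP.ex
      (EP.and (EP.prim ?_) (hSt.comp₃ ?_ ?_ ?_)))))) <;> fun_prop
  refine key.of_eq (fun x => ?_)
  obtain ⟨n, b⟩ := x
  dsimp only
  constructor
  · rintro ⟨L, ⟨h0, hn⟩, hstep⟩
    have hall : ∀ i ≤ n, L[i]? = some (f i) := by
      intro i
      induction i with
      | zero => intro _; exact h0
      | succ i ih =>
        intro hi
        obtain ⟨b1, b2, ⟨h1, h2⟩, h3⟩ := hstep i (by omega)
        rw [ih (by omega)] at h1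
        obtain rfl := Option.some.inj h1
        rw [h2, (hf i b2).1 h3]
    have := hall n le_rfl
    rw [hn] at this
    exact (Option.some.inj this).symm
  · rintro rfl
    refine ⟨(List.range (n + 1)).map f, ⟨by simp, by simp⟩, fun i hi => ?_⟩
    refine ⟨f i, f (i + 1), ⟨?_, ?_⟩, (hf i _).2 rfl⟩
    · rw [List.getElem?_map, List.getElem?_range (by omega)]; rfl
    · rw [List.getElem?_map, List.getElem?_range (by omega)]; rfl

end Pool.Agent.MP_bc2066_lc
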