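import Pool.Agent.Lib.MP_bc2066_lc.World
import Pool.Agent.Lib.MP_bc2066_lc.Dec

/-!
Cototality of the base and failure of the splitting property.
-/

namespace Pool.Agent.MP_bc2066_lc

open Encodable Primrec

theorem KPs.mono_right {X B C C' : Set ℕ} (h : KPs X B C) (hC : EnumRed C' (join C X)) :
    KPs X B C' := by
  intro Y Z hXY hB hC'
  refine h Y Z hXY hB (hC'.trans (join_le (hC.trans ?_) (le_join_right _ _)))
  exact join_le (le_join_left _ _) (hXY.trans (le_join_right _ _))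

theorem KPs.symm {X B C : Set ℕ} (h : KPs X B C) : KPs X C B :=
  fun Y Z hXY hB hC => h Y Z hXY hC hB

theorem KPs.mono_left {X B C B' : Set ℕ} (h : KPs X B C) (hB : EnumRed B' (join B X)) :
    KPs X B' C := (h.symm.mono_right hB).symm

theorem ev_le (e : ℕ) (S : Set ℕ) : EnumRed (Ev e S) S := enumRed_iff_ev.2 ⟨e, rfl⟩

/-- primitive recursive matrix of the operator `e` -/
theorem exists_mat (e : ℕ) : ∃ R : ℕ × List ℕ → ℕ → Prop, PrimrecRel R ∧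
    ∀ a, Op e a ↔ ∃ n, R a n := exists_primrec_of_re (op_re e)

/-- primitive recursive matrix of the operator `e` -/
def Mat (e : ℕ) : ℕ × List ℕ → ℕ → Prop := (exists_mat e).choose

theorem mat_pr (e : ℕ) : PrimrecRel (Mat e) := (exists_mat e).choose_spec.1

theorem op_iff_mat (e : ℕ) (a : ℕ × List ℕ) : Op e a ↔ ∃ n, Mat e a n :=
  (exists_mat e).choose_spec.2 a

open Classical in
/-- index of an axiom -/
noncomputable def idxf (e x : ℕ) (D : List ℕ) : ℕ :=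
  if h : ∃ n, Mat e (x, D) n then encode (h.choose, D) else 0

theorem exists_idxf {e x : ℕ} {D : List ℕ} (h : Op e (x, D)) :
    ∃ n, Mat e (x, D) n ∧ idxf e x D = encode (n, D) := by
  have h1 := (op_iff_mat e (x, D)).1 h
  refine ⟨h1.choose, h1.choose_spec, ?_⟩
  unfold idxf
  rw [dif_pos h1]

section World

variable (Y0 T : Set ℕ) (h : ℕ → ℕ)

/-- column `w` has an element `≥ v` -/
def Late (T : Set ℕ) (w v : ℕ) : Prop := ∃ t, v ≤ t ∧ Nat.pair w t ∈ T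

/-- every axiom of index below `v` for `x` fails at level `v` -/
def LO (Y0 T : Set ℕ) (e x v : ℕ) : Prop :=
  ∀ i < v, ∀ c ∈ (decode i : Option (ℕ × List ℕ)).toList, ¬ Mat e (x, c.2) c.1 ∨
    ∃ y ∈ c.2, (y % 2 = 0 ∧ Late T (y / 2) v) ∨ (y % 2 = 1 ∧ y / 2 ∉ Jof Y0 T Tᶜ)

theorem jof_compl (x : ℕ) : x ∉ Jof Y0 T Tᶜ ↔
    (x % 2 = 0 ∧ x / 2 ∈ join Tᶜ Y0ᶜ) ∨ (x % 2 = 1 ∧ x / 2 ∈ join T Y0) := by
  have h1 : ∀ z, z ∈ join Tᶜ Y0ᶜ ↔ z ∉ join T Y0 := by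
    intro z
    change ((z % 2 = 0 ∧ z / 2 ∉ T) ∨ (z % 2 = 1 ∧ z / 2 ∉ Y0)) ↔
      ¬ ((z % 2 = 0 ∧ z / 2 ∈ T) ∨ (z % 2 = 1 ∧ z / 2 ∈ Y0))
    rcases Nat.mod_two_eq_zero_or_one z with h0 | h0 <;> simp [h0]
  have h2 : x ∈ Jof Y0 T Tᶜ ↔
      (x % 2 = 0 ∧ x / 2 ∈ join T Y0) ∨ (x % 2 = 1 ∧ x / 2 ∈ join Tᶜ Y0ᶜ) := Iff.rfl
  rw [h2, h1]
  rcases Nat.mod_two_eq_zero_or_one x with h0 | h0 <;> simp [h0]

theorem jof_compl_le : EnumRed (Jof Y0 T Tᶜ)ᶜ (Jof Y0 T Tᶜ) := by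
  have h1 : EP (Jof Y0 T Tᶜ) (fun x => x ∈ join T Y0) := enumRed_iff.1 (le_join_left _ _)
  have h2 : EP (Jof Y0 T Tᶜ) (fun x => x ∈ join Tᶜ Y0ᶜ) := enumRed_iff.1 (le_join_right _ _)
  refine enumRed_iff.2 (EP.of_eq (EP.or (EP.and (EP.prim ?_) (h2.comp ?_))
    (EP.and (EP.prim ?_) (h1.comp ?_))) (fun x => (jof_compl Y0 T x).symm)) <;> fun_prop

theorem late_ep {X : Set ℕ} (hT : EnumRed T X) : EP X (fun x : ℕ × ℕ => Late T x.1 x.2) := by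
  unfold Late
  exact EP.ex (EP.and (EP.prim (by fun_prop)) ((enumRed_iff.1 hT).comp
    (f := fun x : (ℕ × ℕ) × ℕ => Nat.pair x.1.1 x.2) (by fun_prop)))

theorem t_le_j : EnumRed T (Jof Y0 T Tᶜ) := (le_join_left T Y0).trans (le_join_left _ _)

theorem j_le_aa : EnumRed (Jof Y0 T Tᶜ) (AA Y0 T) := le_join_right _ _

theorem w_le_aa : EnumRed (Wset T) (AA Y0 T) := le_join_left _ _

theorem aa_le_xx : EnumRed (AA Y0 T) (XX Y0 T h) := le_join_left _ _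

theorem y0_le_aa : EnumRed Y0 (AA Y0 T) :=
  ((le_join_right T Y0).trans (le_join_left _ _)).trans (j_le_aa Y0 T)

/-- the base is equivalent to a set that is reducible to its complement -/
theorem aa_cototal : ∃ E : Set ℕ, EnumRed E Eᶜ ∧ EnumRed E (AA Y0 T) ∧ EnumRed (AA Y0 T) E := by
  -- `E = W ⊕ (J ⊕ Late)`
  set L : Set ℕ := {x | Late T (Nat.unpair x).1 (Nat.unpair x).2} with hL
  have hLep : EnumRed L (Jof Y0 T Tᶜ) := by
    refine enumRed_iff.2 ?_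
    exact (late_ep T (t_le_j Y0 T)).comp (f := fun x : ℕ => Nat.unpair x) (by fun_prop)
  set E : Set ℕ := join (Wset T) (join (Jof Y0 T Tᶜ) L) with hE
  have hcompl : ∀ A B : Set ℕ, (join A B)ᶜ = join Aᶜ Bᶜ := by
    intro A B
    ext z
    change ¬ ((z % 2 = 0 ∧ z / 2 ∈ A) ∨ (z % 2 = 1 ∧ z / 2 ∈ B)) ↔
      ((z % 2 = 0 ∧ z / 2 ∉ A) ∨ (z % 2 = 1 ∧ z / 2 ∉ B))
    rcases Nat.mod_two_eq_zero_or_one z with h0 | h0 <;> simp [h0]
  have hEc : Eᶜ = join (Wset T)ᶜ (join (Jof Y0 T Tᶜ)ᶜ Lᶜ) := by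
    rw [hE, hcompl, hcompl]
  have hJc : EnumRed (Jof Y0 T Tᶜ)ᶜ Eᶜ := by
    rw [hEc]
    exact (le_join_left _ _).trans (le_join_right _ _)
  have hLc : EnumRed Lᶜ Eᶜ := by
    rw [hEc]
    exact (le_join_right _ _).trans (le_join_right _ _)
  have hJ : EnumRed (Jof Y0 T Tᶜ) Eᶜ := by
    -- `J ≤ Jᶜ`
    have h1 : ∀ x, x ∈ Jof Y0 T Tᶜ ↔
        (x % 2 = 0 ∧ 2 * (x / 2) + 1 ∈ (Jof Y0 T Tᶜ)ᶜ) ∨
        (x % 2 = 1 ∧ 2 * (x / 2) ∈ (Jof Y0 T Tᶜ)ᶜ) := by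
      intro x
      have h2 : x ∈ Jof Y0 T Tᶜ ↔
        (x % 2 = 0 ∧ x / 2 ∈ join T Y0) ∨ (x % 2 = 1 ∧ x / 2 ∈ join Tᶜ Y0ᶜ) := Iff.rfl
      have h3 : (2 * (x / 2) + 1 ∈ (Jof Y0 T Tᶜ)ᶜ) ↔ x / 2 ∈ join T Y0 := by
        refine (jof_compl Y0 T _).trans ?_
        have e1 : (2 * (x / 2) + 1) % 2 = 1 := by omega
        have e2 : (2 * (x / 2) + 1) / 2 = x / 2 := by omega
        rw [e1, e2]
        simp
      have h4 : (2 * (x / 2) ∈ (Jof Y0 T Tᶜ)ᶜ) ↔ x / 2 ∈ join Tᶜ Y0ᶜ := by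
        refine (jof_compl Y0 T _).trans ?_
        have e1 : (2 * (x / 2)) % 2 = 0 := by omega
        have e2 : (2 * (x / 2)) / 2 = x / 2 := by omega
        rw [e1, e2]
        simp
      rw [h2, h3, h4]
    have h5 := enumRed_iff.1 hJc
    refine enumRed_iff.2 (EP.of_eq (EP.or (EP.and (EP.prim (p := fun x : ℕ => x % 2 = 0) ?_)
      (h5.comp (f := fun x : ℕ => 2 * (x / 2) + 1) ?_))
      (EP.and (EP.prim (p := fun x : ℕ => x % 2 = 1) ?_)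
      (h5.comp (f := fun x : ℕ => 2 * (x / 2)) ?_))) (fun x => (h1 x).symm)) <;> fun_prop
  have hWE : EnumRed (Wset T) Eᶜ := by
    refine enumRed_iff.2 (EP.of_eq (EP.ex (p := fun (w v : ℕ) => Nat.pair w v ∈ Lᶜ)
      ((enumRed_iff.1 hLc).comp (f := fun x : ℕ × ℕ => Nat.pair x.1 x.2) (by fun_prop)))
      (fun w => ?_))
    change (∃ v, ¬ Late T (Nat.unpair (Nat.pair w v)).1 (Nat.unpair (Nat.pair w v)).2) ↔
      ∃ v, ∀ t, v ≤ t → Nat.pair w t ∉ T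
    refine exists_congr fun v => ?_
    rw [Nat.unpair_pair]
    unfold Late
    push Not
    rfl
  refine ⟨E, ?_, ?_, ?_⟩
  · exact join_le hWE (join_le hJ (hLep.trans hJ))
  · exact join_le (w_le_aa Y0 T) (join_le (j_le_aa Y0 T) (hLep.trans (j_le_aa Y0 T)))
  · exact join_le (le_join_left _ _) ((le_join_left _ _).trans (le_join_right _ _))

theorem lo_ep (e : ℕ) : EP (XX Y0 T h) (fun x : ℕ × ℕ => LO Y0 T e x.1 x.2) := by
  have hJX : EnumRed (Jof Y0 T Tᶜ) (XX Y0 T h) := (j_le_aa Y0 T).trans (aa_le_xx Y0 T h)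
  have hJc : EP (XX Y0 T h) (fun x => x ∉ Jof Y0 T Tᶜ) :=
    enumRed_iff.1 ((jof_compl_le Y0 T).trans hJX)
  have hLate := late_ep T ((t_le_j Y0 T).trans hJX)
  have hM : PrimrecRel (Mat e) := mat_pr e
  unfold LO
  refine EP.ballLT (by fun_prop) (EP.ballList (Primrec.optionToList.comp
    (Primrec.decode.comp (by fun_prop))) (EP.or (EP.prim (PrimrecPred.not ?_))
    (EP.exList (by fun_prop) (EP.or (EP.and (EP.prim (by fun_prop))
      (hLate.comp₂ (by fun_prop) (by fun_prop))) (EP.and (EP.prim (by fun_prop))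
      (hJc.comp (by fun_prop)))))))
  exact hM.comp (f := fun x : ((ℕ × ℕ) × ℕ) × (ℕ × List ℕ) => (x.1.1.1, x.2.2))
    (g := fun x => x.2.1) (by fun_prop) (by fun_prop)

/-- the trigger of the code `k` at `j` -/
def Trig (e k j : ℕ) : Prop :=
  ∀ i < j + 1, (∃ v, Nat.pair i v ∈ HH h ∧
      Late T (Nat.pair (Nat.unpair (Nat.unpair k).2).1 (Nat.unpair k).1) v) ∨
    ∃ l < i, Nat.pair l (Nat.unpair (Nat.unpair k).2).2 ∈ Ev e (AA Y0 T) ∧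
      ∃ v, Nat.pair i v ∈ HH h ∧ LO Y0 T e (Nat.pair l (Nat.unpair k).1) v

/-- the witness for the pair `(P, Ct)` -/
def Ut (e l k : ℕ) : Prop :=
  Nat.pair l (Nat.unpair k).1 ∈ Ev e (AA Y0 T) ∨
    (Nat.pair (Nat.unpair (Nat.unpair k).2).1 (Nat.unpair (Nat.unpair k).2).2 ∈ Wset T ∧
      Nat.pair l (Nat.unpair (Nat.unpair k).2).2 ∈ Ev e (AA Y0 T) ∧
      ∃ j, l ≤ j ∧ Trig Y0 T h e k j)

theorem ut_ep (e : ℕ) : EP (XX Y0 T h) (fun x : ℕ × ℕ => Ut Y0 T h e x.1 x.2) := by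
  have hAX := aa_le_xx Y0 T h
  have hV : EP (XX Y0 T h) (fun x => x ∈ Ev e (AA Y0 T)) := enumRed_iff.1 ((ev_le e _).trans hAX)
  have hW : EP (XX Y0 T h) (fun x => x ∈ Wset T) := enumRed_iff.1 ((w_le_aa Y0 T).trans hAX)
  have hH : EP (XX Y0 T h) (fun x => x ∈ HH h) := enumRed_iff.1 (le_join_right _ _)
  have hLO := lo_ep Y0 T h e
  have hLate := late_ep T (((t_le_j Y0 T).trans (j_le_aa Y0 T)).trans hAX)
  have hTrig : EP (XX Y0 T h) (fun x : ℕ × ℕ => Trig Y0 T h e x.1 x.2) := by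
    unfold Trig
    refine EP.ballLT (by fun_prop) (EP.or (EP.ex (EP.and (hH.comp (by fun_prop))
      (hLate.comp₂ (by fun_prop) (by fun_prop)))) (EP.exLT (by fun_prop)
      (EP.and (hV.comp (by fun_prop)) (EP.ex (EP.and (hH.comp (by fun_prop))
        (hLO.comp₂ (by fun_prop) (by fun_prop)))))))
  unfold Ut
  exact EP.or (hV.comp (by fun_prop)) (EP.and (hW.comp (by fun_prop))
    (EP.and (hV.comp (by fun_prop)) (EP.ex (EP.and (EP.prim (by fun_prop))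
      (hTrig.comp₂ (by fun_prop) (by fun_prop))))))

end World

end Pool.Agent.MP_bc2066_lc
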