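import Mathlib

/-!
Enumeration reducibility, enumeration degrees, total and cototal degrees.
-/

namespace Pool.Agent.MP_bc2066_lc

/-- Enumeration reducibility `A ≤ₑ B`: there is an r.e. set `W` of axioms `(x, D)`, with `D` a finite
list of numbers, such that `x ∈ A` iff some axiom `(x, D) ∈ W` has all entries of `D` in `B`. -/
def EnumRed (A B : Set ℕ) : Prop :=
  ∃ W : ℕ × List ℕ → Prop, REPred W ∧ ∀ x, x ∈ A ↔ ∃ D : List ℕ, W (x, D) ∧ ∀ y ∈ D, y ∈ B

end Pool.Agent.MP_bc2066_lc
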