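import Pool.Agent.Lib.MP_bc2066_lc.Refl

/-!
Enumeration degrees, total and cototal degrees, and cones as first-order structures.
-/

namespace Pool.Agent.MP_bc2066_lc

open FirstOrder FirstOrder.Language

/-- sets of natural numbers, preordered by enumeration reducibility -/
def ESet : Type := Set ℕ

instance : Preorder ESet where
  le A B := EnumRed A B
  le_refl A := EnumRed.refl A
  le_trans _ _ _ := EnumRed.trans

/-- the enumeration degrees, with the order induced by enumeration reducibility -/
def EDeg : Type := Antisymmetrization ESet (· ≤ ·)

instance : PartialOrder EDeg := inferInstanceAs (PartialOrder (Antisymmetrization ESet (· ≤ ·)))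

/-- the enumeration degree of a set -/
def deg (A : Set ℕ) : EDeg := toAntisymmetrization (α := ESet) (· ≤ ·) A

/-- `a` is total: it contains a set `A` with `Aᶜ ≤ₑ A` -/
def IsTotalDeg (a : EDeg) : Prop := ∃ A : Set ℕ, deg A = a ∧ EnumRed Aᶜ A

/-- `a` is cototal: it contains a set `A` with `A ≤ₑ Aᶜ` -/
def IsCototalDeg (a : EDeg) : Prop := ∃ A : Set ℕ, deg A = a ∧ EnumRed A Aᶜ

/-- the cone of all enumeration degrees `≥ a` -/
abbrev Cone (a : EDeg) : Type := {b : EDeg // a ≤ b}

/-- the cone as a structure in the language with the single binary relation symbol `≤` -/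
instance coneStructure (a : EDeg) : Language.order.Structure (Cone a) := orderStructure (Cone a)

end Pool.Agent.MP_bc2066_lc
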