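import Pool.Agent.Lib.MP_bc2066_lc.Cototal

/-!
The splitting property fails above the generic cototal base.
-/

namespace Pool.Agent.MP_bc2066_lc

open Encodable Primrec

section

variable {Y0 T B C P Q : Set ℕ} {h : ℕ → ℕ} {e1 e2 : ℕ}

/-- the set completing the Kalimullin pair `(P, Ct)` over the larger base -/
def Ct (Y0 T : Set ℕ) (h : ℕ → ℕ) (e : ℕ) (P : Set ℕ) : Set ℕ := {k | ∀ l ∈ P, Ut Y0 T h e l k}

theorem lvl_mem {v y : ℕ} (hy : Lvl Y0 T v y) : y ∈ AA Y0 T := by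
  rcases hy with ⟨h0, h1⟩ | ⟨h0, h1⟩
  · exact Or.inl ⟨h0, v, h1⟩
  · exact Or.inr ⟨h0, h1⟩

/-- a true axiom of small index, verified at a small level -/
theorem not_lo {x v : ℕ} (hx : ¬ LO Y0 T e1 x v) :
    ∃ D, Op e1 (x, D) ∧ ∀ y ∈ D, y ∈ AA Y0 T := by
  unfold LO at hx
  push Not at hx
  obtain ⟨i, -, c, -, hM, hD⟩ := hx
  refine ⟨c.2, (op_iff_mat _ _).2 ⟨c.1, hM⟩, fun y hy => ?_⟩
  obtain ⟨h1, h2⟩ := hD y hy
  rcases Nat.mod_two_eq_zero_or_one y with h0 | h0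
  · refine Or.inl ⟨h0, v, fun t ht hcon => ?_⟩
    exact h1 h0 ⟨t, ht, hcon⟩
  · exact Or.inr ⟨h0, h2 h0⟩

/-- `(P, Ct)` has the witness `Ut` -/
theorem wit_ct (hV : Wit (fun l m => Nat.pair l m ∈ Ev e1 (AA Y0 T)) P C) :
    Wit (Ut Y0 T h e1) P (Ct Y0 T h e1 P) := by
  refine ⟨fun l hl k hk => hk l hl, fun l hl k hk hU => hk ?_⟩
  intro l' hl'
  set m' := (Nat.unpair k).1 with hm'
  set n0 := (Nat.unpair (Nat.unpair k).2).1 with hn0
  set g := (Nat.unpair (Nat.unpair k).2).2 with hg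
  by_cases hmC : m' ∈ C
  · exact Or.inl (hV.1 l' hl' m' hmC)
  · rcases hU with hU | ⟨h1, h2, j, hlj, hj⟩
    · exact (hV.2 l hl m' hmC hU).elim
    · by_cases hgC : g ∈ C
      · by_cases hall : ∀ j, Trig Y0 T h e1 k j
        · exact Or.inr ⟨h1, hV.1 l' hl' g hgC, l', le_rfl, hall l'⟩
        · exfalso
          push Not at hall
          obtain ⟨j0, hj0⟩ := hall
          unfold Trig at hj0
          push Not at hj0
          obtain ⟨i, -, hi1, hi2⟩ := hj0
          have hji : j < i := by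
            by_contra hcon
            have := hj i (by omega)
            rcases this with ⟨v, hv1, hv2⟩ | ⟨l'', hl'', hv, v, hv1, hv2⟩
            · exact hi1 v hv1 hv2
            · exact hi2 l'' hl'' hv v hv1 hv2
          have hH : Nat.pair i (h i) ∈ HH h := by
            change h (Nat.unpair (Nat.pair i (h i))).1 = (Nat.unpair (Nat.pair i (h i))).2
            rw [Nat.unpair_pair]
          have h3 := hi2 l (by omega) h2 (h i) hH
          obtain ⟨D, hD, hD'⟩ := not_lo h3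
          exact hV.2 l hl m' hmC ⟨D, hD, hD'⟩
      · exact (hV.2 l hl g hgC h2).elim

/-- the set `Ct` is not below `Q ⊕ X` -/
theorem ct_not_le (hBC1 : ∀ n ∈ B, ∀ m ∈ C, Nat.pair n m ∈ Wset T)
    (hBC2 : ∀ n, n ∉ B → ∀ m, m ∉ C → Nat.pair n m ∉ Wset T)
    (hout : ∀ e1 e2 e3, OutW Y0 B C T h idxf e1 e2 e3)
    (hB : ¬ EnumRed B (AA Y0 T)) (hC : ¬ EnumRed C (AA Y0 T)) (hP : ¬ EnumRed P (AA Y0 T))
    (hV : Wit (fun l m => Nat.pair l m ∈ Ev e1 (AA Y0 T)) P C)
    (hU : Wit (fun n κ => Nat.pair n κ ∈ Ev e2 (AA Y0 T)) B Q) :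
    ¬ EnumRed (Ct Y0 T h e1 P) (join Q (XX Y0 T h)) := by
  intro hle
  have hVep : EP (AA Y0 T) (fun x => x ∈ Ev e1 (AA Y0 T)) := enumRed_iff.1 (ev_le _ _)
  have hUep : EP (AA Y0 T) (fun x => x ∈ Ev e2 (AA Y0 T)) := enumRed_iff.1 (ev_le _ _)
  -- characterization of `Q`
  have hQ : Q = QQ Y0 T B e2 := by
    ext κ
    constructor
    · intro hκ
      by_contra hcon
      apply hB
      refine enumRed_iff.2 ((hUep.comp (f := fun n => Nat.pair n κ) (by fun_prop)).of_eq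
        (fun n => ?_))
      constructor
      · intro hn
        by_contra hnB
        exact hcon ⟨n, hnB, hn⟩
      · intro hn
        exact hU.1 n hn κ hκ
    · rintro ⟨n, hn, hκ⟩
      by_contra hcon
      exact hU.2 n hn κ hcon hκ
  obtain ⟨e3, he3⟩ := enumRed_iff_ev.1 hle
  rw [hQ] at he3
  rcases hout e1 e2 e3 with ⟨l, m1, m2, h1, h2, h3, h4⟩ | ⟨κ, n1, n2, h1, h2, h3, h4⟩ |
      ⟨n0, m', g, ⟨h1, h2, h3, h4⟩, h5⟩ | ⟨n0, m', g, h1, h2, L, h3, h4⟩
  · by_cases hl : l ∈ P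
    · exact h4 (hV.1 l hl m2 h2)
    · exact hV.2 l hl m1 h1 h3
  · by_cases hκ : κ ∈ Q
    · exact h4 (hU.1 n2 h2 κ hκ)
    · exact hU.2 n1 h1 κ hκ h3
  · apply h5
    rw [← he3]
    intro l hl
    have hk1 : (Nat.unpair (kcode m' n0 g)).1 = m' := by unfold kcode; rw [Nat.unpair_pair]
    have hk2 : (Nat.unpair (Nat.unpair (kcode m' n0 g)).2).1 = n0 := by
      unfold kcode; rw [Nat.unpair_pair, Nat.unpair_pair]
    have hk3 : (Nat.unpair (Nat.unpair (kcode m' n0 g)).2).2 = g := by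
      unfold kcode; rw [Nat.unpair_pair, Nat.unpair_pair]
    right
    rw [hk2, hk3]
    refine ⟨h4, hV.1 l hl g h3, l, le_rfl, fun i _ => Or.inl ⟨h i, ?_, ?_⟩⟩
    · change h (Nat.unpair (Nat.pair i (h i))).1 = (Nat.unpair (Nat.pair i (h i))).2
      rw [Nat.unpair_pair]
    · rw [hk1, hk2]
      have h6 := hBC2 n0 h1 m' h2
      by_contra hcon
      apply h6
      refine ⟨h i, fun t ht hcon' => hcon ⟨t, ht, hcon'⟩⟩
  · rw [← he3] at h2
    apply hP
    have hk1 : (Nat.unpair (kcode m' n0 g)).1 = m' := by unfold kcode; rw [Nat.unpair_pair]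
    have hk2 : (Nat.unpair (Nat.unpair (kcode m' n0 g)).2).1 = n0 := by
      unfold kcode; rw [Nat.unpair_pair, Nat.unpair_pair]
    have hk3 : (Nat.unpair (Nat.unpair (kcode m' n0 g)).2).2 = g := by
      unfold kcode; rw [Nat.unpair_pair, Nat.unpair_pair]
    have hHv : ∀ i v, Nat.pair i v ∈ HH h → v = h i := by
      intro i v hv
      have hv' : h (Nat.unpair (Nat.pair i v)).1 = (Nat.unpair (Nat.pair i v)).2 := hv
      rw [Nat.unpair_pair] at hv'
      exact hv'.symm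
    have halive : ∀ l < L, Nat.pair l g ∈ Ev e1 (AA Y0 T) →
        Nat.pair l m' ∈ Ev e1 (AA Y0 T) ∧ ¬ LO Y0 T e1 (Nat.pair l m') (h L) := by
      intro l hl hlg
      rcases h4 l hl with h5 | ⟨D, hD, hD', hD''⟩
      · exact (h5 hlg).elim
      · refine ⟨⟨D, hD, fun y hy => lvl_mem (hD' y hy)⟩, fun hLO => ?_⟩
        obtain ⟨n, hn, hidx⟩ := exists_idxf hD
        rw [hidx] at hD''
        rcases hLO (encode (n, D)) hD'' (n, D) (by rw [Encodable.encodek]; simp) with h6 |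
          ⟨y, hy, h6⟩
        · exact h6 hn
        · rcases hD' y hy with ⟨h7, h8⟩ | ⟨h7, h8⟩
          · rcases h6 with ⟨-, t, ht, ht'⟩ | ⟨h9, -⟩
            · exact h8 t ht ht'
            · omega
          · rcases h6 with ⟨h9, -⟩ | ⟨-, h9⟩
            · omega
            · exact h9 h8
    refine enumRed_iff.2 ((hVep.comp (f := fun l => Nat.pair l m') (by fun_prop)).of_eq
        (fun l => ?_))
    constructor
    · intro hl
      by_contra hcon
      exact hV.2 l hcon m' h1 hl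
    · intro hl
      rcases h2 l hl with h5 | ⟨-, h5, j, hlj, hj⟩
      · rw [hk1] at h5
        exact h5
      · rw [hk3] at h5
        have hjL : j < L := by
          by_contra hcon
          rcases hj L (by omega) with ⟨v, hv1, t, ht, ht'⟩ | ⟨l', hl', h6, v, hv1, hv2⟩
          · rw [hk1, hk2] at ht'
            exact h3 t (hHv L v hv1 ▸ ht) ht'
          · rw [hk3] at h6
            rw [hk1, hHv L v hv1] at hv2
            exact (halive l' hl' h6).2 hv2
        exact (halive l (by omega) h5).1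

end

/-- The splitting property fails above a suitable cototal base `A` above any given set `Y0`. -/
theorem exists_bad_base (Y0 : Set ℕ) : ∃ A : Set ℕ, EnumRed Y0 A ∧
    (∃ E : Set ℕ, EnumRed E Eᶜ ∧ EnumRed E A ∧ EnumRed A E) ∧
    ∃ B C X : Set ℕ, EnumRed A X ∧ ¬ EnumRed B X ∧ ¬ EnumRed C X ∧ KPs A B C ∧
      ∀ P Q, EnumRed B P → EnumRed C Q → KPs A P Q →
        ∃ D, KPs X P D ∧ ¬ EnumRed D (join Q X) := by
  obtain ⟨B, C, T, h, hBC1, hBC2, hBX, hCX, hout⟩ := exists_world Y0 idxf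
  have hBX' : ¬ EnumRed B (XX Y0 T h) := fun hle => by
    obtain ⟨e, he⟩ := enumRed_iff_ev.1 hle
    exact hBX e he
  have hCX' : ¬ EnumRed C (XX Y0 T h) := fun hle => by
    obtain ⟨e, he⟩ := enumRed_iff_ev.1 hle
    exact hCX e he
  have hAX := aa_le_xx Y0 T h
  refine ⟨AA Y0 T, y0_le_aa Y0 T, aa_cototal Y0 T, B, C, XX Y0 T h, hAX, hBX', hCX', ?_, ?_⟩
  · refine kps_of_wit (W := fun n m => Nat.pair n m ∈ Wset T) ?_ ⟨hBC1, hBC2⟩
    exact (enumRed_iff.1 (w_le_aa Y0 T)).comp (f := fun x : ℕ × ℕ => Nat.pair x.1 x.2)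
      (by fun_prop)
  · intro P Q hBP hCQ hK
    have hPC : KPs (AA Y0 T) P C := hK.mono_right (hCQ.trans (le_join_left _ _))
    have hBQ : KPs (AA Y0 T) B Q := hK.mono_left (hBP.trans (le_join_left _ _))
    have hop : ∀ {R S : Set ℕ}, KPs (AA Y0 T) R S →
        ∃ e, Wit (fun l m => Nat.pair l m ∈ Ev e (AA Y0 T)) R S := by
      intro R S hRS
      obtain ⟨W, hW, hwit⟩ := exists_wit_of_kps hRS
      have h1 : EnumRed {x | W (Nat.unpair x).1 (Nat.unpair x).2} (AA Y0 T) := by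
        refine enumRed_iff.2 ?_
        exact hW.comp (f := fun x : ℕ => Nat.unpair x) (by fun_prop)
      obtain ⟨e, he⟩ := enumRed_iff_ev.1 h1
      refine ⟨e, ?_⟩
      have h2 : ∀ l m, Nat.pair l m ∈ Ev e (AA Y0 T) ↔ W l m := by
        intro l m
        rw [← he]
        change W (Nat.unpair (Nat.pair l m)).1 (Nat.unpair (Nat.pair l m)).2 ↔ _
        rw [Nat.unpair_pair]
      exact ⟨fun b hb c hc => (h2 b c).2 (hwit.1 b hb c hc),
        fun b hb c hc hcon => hwit.2 b hb c hc ((h2 b c).1 hcon)⟩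
    obtain ⟨e1, hV⟩ := hop hPC
    obtain ⟨e2, hU⟩ := hop hBQ
    refine ⟨Ct Y0 T h e1 P, kps_of_wit (ut_ep Y0 T h e1) (wit_ct hV), ?_⟩
    exact ct_not_le hBC1 hBC2 hout (fun hle => hBX' (hle.trans hAX))
      (fun hle => hCX' (hle.trans hAX)) (fun hle => hBX' ((hBP.trans hle).trans hAX)) hV hU

end Pool.Agent.MP_bc2066_lc
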