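import Mathlib

/-!
A sentence in the language of orders.
-/

namespace Pool.Agent.MP_bc2066_lc

open FirstOrder FirstOrder.Language FirstOrder.Language.BoundedFormula

/-- `z` is below every common upper bound of `b` and `y` -/
def SupLe {M : Type*} [LE M] (z b y : M) : Prop := ∀ u, b ≤ u → y ≤ u → z ≤ u

/-- `b`, `c` form a Kalimullin pair over `x` -/
def KPd {M : Type*} [LE M] (x b c : M) : Prop :=
  ∀ y, x ≤ y → ∀ z, SupLe z b y → SupLe z c y → z ≤ y

/-- the splitting property -/
def Split (M : Type*) [LE M] : Prop :=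
  ∀ o b c : M, (∀ z, o ≤ z) → ¬ b ≤ o → ¬ c ≤ o → KPd o b c →
    ∃ p q : M, b ≤ p ∧ c ≤ q ∧ KPd o p q ∧
      ∀ x : M, ¬ p ≤ x → ¬ q ≤ x → ∀ d : M, KPd x p d → SupLe d q x

/-- `xᵢ ≤ xⱼ` -/
def leF {n : ℕ} (i j : Fin n) : Language.order.BoundedFormula Empty n :=
  Term.le (Term.var (Sum.inr i)) (Term.var (Sum.inr j))

/-- formula for `SupLe` -/
def supF {n : ℕ} (z b y : Fin n) : Language.order.BoundedFormula Empty n :=
  all ((leF b.castSucc (Fin.last n)).imp
    ((leF y.castSucc (Fin.last n)).imp (leF z.castSucc (Fin.last n))))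

/-- formula for `KPd` -/
def kpF {n : ℕ} (x b c : Fin n) : Language.order.BoundedFormula Empty n :=
  all ((leF x.castSucc (Fin.last n)).imp (all
    ((supF (Fin.last (n + 1)) b.castSucc.castSucc (Fin.last n).castSucc).imp
      ((supF (Fin.last (n + 1)) c.castSucc.castSucc (Fin.last n).castSucc).imp
        (leF (Fin.last (n + 1)) (Fin.last n).castSucc)))))

/-- innermost part of the sentence, in the variables `o, b, c, p, q` -/
def lastF : Language.order.BoundedFormula Empty 5 :=
  all ((leF (3 : Fin 6) 5).not.imp ((leF (4 : Fin 6) 5).not.imp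
    (all ((kpF (5 : Fin 7) 3 6).imp (supF (6 : Fin 7) 4 5)))))

/-- existential part of the sentence, in the variables `o, b, c` -/
def exF : Language.order.BoundedFormula Empty 3 :=
  BoundedFormula.ex (BoundedFormula.ex
    (leF (1 : Fin 5) 3 ⊓ (leF (2 : Fin 5) 4 ⊓ (kpF (0 : Fin 5) 3 4 ⊓ lastF))))

/-- the sentence expressing `Split` -/
def splitF : Language.order.Sentence :=
  all (all (all ((all (leF (0 : Fin 4) 3)).imp ((leF (1 : Fin 3) 0).not.imp
    ((leF (2 : Fin 3) 0).not.imp ((kpF (0 : Fin 3) 1 2).imp exF))))))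

section

variable {M : Type*} [LE M] [Language.order.Structure M] [Language.order.OrderedStructure M]

theorem realize_leF {n : ℕ} (i j : Fin n) (v : Empty → M) (xs : Fin n → M) :
    (leF i j).Realize v xs ↔ xs i ≤ xs j := by
  unfold leF
  rw [Term.realize_le]
  simp

theorem realize_supF {n : ℕ} (z b y : Fin n) (v : Empty → M) (xs : Fin n → M) :
    (supF z b y).Realize v xs ↔ SupLe (xs z) (xs b) (xs y) := by
  unfold supF SupLe
  simp only [realize_all, realize_imp, realize_leF, Fin.snoc_castSucc, Fin.snoc_last]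

theorem realize_kpF {n : ℕ} (x b c : Fin n) (v : Empty → M) (xs : Fin n → M) :
    (kpF x b c).Realize v xs ↔ KPd (xs x) (xs b) (xs c) := by
  unfold kpF KPd
  simp only [realize_all, realize_imp, realize_leF, realize_supF, Fin.snoc_castSucc,
    Fin.snoc_last]

theorem realize_splitF : M ⊨ splitF ↔ Split M := by
  unfold splitF exF lastF Sentence.Realize Formula.Realize Split
  simp only [realize_all, realize_imp, realize_not, realize_ex, realize_inf, realize_leF,
    realize_supF, realize_kpF]
  exact Iff.rfl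

end

end Pool.Agent.MP_bc2066_lc
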