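import Pool.Agent.Lib.MP_bc2066_lc.Total

/-!
Over a total base every nontrivial Kalimullin pair is below a split pair.
-/

namespace Pool.Agent.MP_bc2066_lc

open Encodable Primrec Relation

section Eff

variable {Ws : ℕ → ℕ → ℕ → Prop} {A : Set ℕ}
  (hWs : Dec A (fun x : ℕ × ℕ × ℕ => Ws x.1 x.2.1 x.2.2))

include hWs

theorem dec_wst : Dec A (fun x : ℕ × ℕ => Wst Ws x.1 x.2) := by
  unfold Wst
  exact hWs.comp₃ (by fun_prop) (by fun_prop) (by fun_prop)

theorem dec_gr : Dec A (fun x : ℕ × List ℕ × ℕ × ℕ × ℕ =>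
    Gr Ws x.1 x.2.1 x.2.2.1 x.2.2.2.1 x.2.2.2.2) := by
  have h1 : Dec A (fun x : ℕ × List ℕ × ℕ × ℕ => Node Ws x.1 x.2.1 x.2.2.1 x.2.2.2) := by
    unfold Node
    exact Dec.or (Dec.prim (by fun_prop)) (Dec.and (Dec.prim (by fun_prop))
      ((dec_wst hWs).comp₂ (by fun_prop) (by fun_prop)))
  have h2 : Dec A (fun x : ℕ × List ℕ × ℕ × ℕ => Edg Ws x.1 x.2.1 x.2.2.1 x.2.2.2) := by
    unfold Edg
    exact Dec.or (Dec.not (hWs.comp₃ (by fun_prop) (by fun_prop) (by fun_prop)))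
      (Dec.prim (prp_bef (by fun_prop) (by fun_prop) (by fun_prop)))
  unfold Gr
  exact Dec.and (Dec.and (h1.comp₄ (by fun_prop) (by fun_prop) (by fun_prop) (by fun_prop))
    (h1.comp₄ (by fun_prop) (by fun_prop) (by fun_prop) (by fun_prop)))
    (h2.comp₄ (by fun_prop) (by fun_prop) (by fun_prop) (by fun_prop))

theorem dec_good : Dec A (fun x : ℕ × List ℕ × ℕ => Good Ws x.1 x.2.1 x.2.2) := by
  have hpow : ∀ {α : Type} [Primcodable α] {f : α → ℕ}, Primrec f →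
      Primrec (fun a => 2 ^ f a) := by
    intro α _ f hf
    have h1 : Primrec₂ (fun a b : ℕ => a ^ b) := Primrec₂.unpaired'.1 Nat.Primrec.pow
    exact h1.comp (Primrec.const 2) hf
  unfold Good Cert cand
  refine Dec.and (Dec.prim (prp_lt (by fun_prop) (hpow (by fun_prop)))) (Dec.and
    (Dec.and (Dec.prim (by fun_prop)) ((dec_wst hWs).comp₂ (by fun_prop) (by fun_prop)))
    (Dec.and (Dec.prim (PrimrecPred.not (prp_bt (by fun_prop) (by fun_prop))))
      (Dec.ballList (by fun_prop) (Dec.ballList (by fun_prop) (Dec.imp (Dec.and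
        (Dec.or (Dec.prim (by fun_prop)) (Dec.prim (prp_bt (by fun_prop) (by fun_prop))))
        ?_) (Dec.prim (prp_bt (by fun_prop) (by fun_prop))))))))
  have h1 := (dec_gr hWs).comp (f := fun x : ((ℕ × List ℕ × ℕ) × ℕ) × ℕ =>
    (x.1.1.1, x.1.1.2.1, (Nat.unpair x.1.1.1).1, x.1.2, x.2)) (by fun_prop)
  exact h1

theorem ep_ks : EP A (fun x : ℕ × List ℕ => Ks Ws x.1 = x.2) := by
  classical
  have hpow : ∀ {α : Type} [Primcodable α] {f : α → ℕ}, Primrec f →
      Primrec (fun a => 2 ^ f a) := by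
    intro α _ f hf
    have h1 : Primrec₂ (fun a b : ℕ => a ^ b) := Primrec₂.unpaired'.1 Nat.Primrec.pow
    exact h1.comp (Primrec.const 2) hf
  have hg := dec_good hWs
  refine EP.iter (St := fun s K K' =>
    (∃ U, Good Ws s K U ∧ (∀ U' < U, ¬ Good Ws s K U') ∧ K' = ins K (cand s) U) ∨
      ((∀ U' < 2 ^ (s + 1), ¬ Good Ws s K U') ∧ K' = K)) ?_ ?_
  · refine EP.or (EP.ex (EP.and (hg.1.comp₃ (by fun_prop) (by fun_prop) (by fun_prop))
      (EP.and (EP.ballLT (by fun_prop) (hg.2.comp (f := fun x : ((ℕ × List ℕ × List ℕ) × ℕ) × ℕ =>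
        (x.1.1.1, x.1.1.2.1, x.2)) (by fun_prop)))
        (EP.prim (prp_eq (by fun_prop) (pr_ins (by fun_prop) (by unfold cand; fun_prop)
          (by fun_prop))))))) (EP.and (EP.ballLT (hpow (by fun_prop)) (hg.2.comp
            (f := fun x : (ℕ × List ℕ × List ℕ) × ℕ => (x.1.1, x.1.2.1, x.2)) (by fun_prop)))
            (EP.prim (by fun_prop)))
  · intro s K'
    have hstep : Ks Ws (s + 1) = stepF Ws s (Ks Ws s) := rfl
    rw [hstep]
    unfold stepF
    by_cases h : ∃ U, Good Ws s (Ks Ws s) U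
    · rw [dif_pos h]
      constructor
      · rintro (⟨U, h1, h2, h3⟩ | ⟨h1, -⟩)
        · have : Nat.find h = U := by
            rw [Nat.find_eq_iff]
            exact ⟨h1, fun m hm => h2 m hm⟩
          rw [this]
          exact h3
        · obtain ⟨U, hU⟩ := h
          exact (h1 U hU.1 hU).elim
      · intro h3
        exact Or.inl ⟨Nat.find h, Nat.find_spec h, fun U' hU' => Nat.find_min h hU', h3⟩
    · rw [dif_neg h]
      constructor
      · rintro (⟨U, h1, -⟩ | ⟨-, h1⟩)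
        · exact (h ⟨U, h1⟩).elim
        · exact h1
      · intro h3
        exact Or.inr ⟨fun U' _ hU' => h ⟨U', hU'⟩, h3⟩

end Eff

/-- the main theorem about total bases -/
theorem total_split {A B C : Set ℕ} (hA : EnumRed Aᶜ A) (hB : ¬ EnumRed B A)
    (hC : ¬ EnumRed C A) (hK : KPs A B C) :
    ∃ P Q Z : Set ℕ, EnumRed B P ∧ EnumRed C Q ∧ KPs A P Q ∧ EnumRed Z A ∧
      (∀ z, z ∈ Z ↔ z ∈ P ∨ z ∈ Q) ∧ (∀ z ∈ P, z ∉ Q) := by
  classical
  obtain ⟨W, hWep, hwit⟩ := exists_wit_of_kps hK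
  obtain ⟨R, hR, hRW⟩ := hWep
  set Ws : ℕ → ℕ → ℕ → Prop := fun s n m => ∃ i < s, ∃ c ∈ (decode i : Option (ℕ × List ℕ)).toList,
    R (n, m) c ∧ ∀ y ∈ c.2, y ∈ A with hWsdef
  have hWs : Dec A (fun x : ℕ × ℕ × ℕ => Ws x.1 x.2.1 x.2.2) := by
    refine Dec.exLT (by fun_prop) (Dec.exList (Primrec.optionToList.comp
      (Primrec.decode.comp (by fun_prop))) (Dec.and (Dec.prim ?_)
      (Dec.ballList (by fun_prop) (Dec.mem hA (by fun_prop)))))
    exact hR.comp (f := fun x : ((ℕ × ℕ × ℕ) × ℕ) × (ℕ × List ℕ) => (x.1.1.2.1, x.1.1.2.2))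
      (g := fun x => x.2) (by fun_prop) (by fun_prop)
  have hmono : ∀ s n m, Ws s n m → Ws (s + 1) n m := by
    rintro s n m ⟨i, hi, h⟩
    exact ⟨i, by omega, h⟩
  have hW : ∀ n m, W n m ↔ ∃ s, Ws s n m := by
    intro n m
    refine (hRW (n, m)).trans ?_
    constructor
    · rintro ⟨c, hc, hc'⟩
      exact ⟨encode c + 1, encode c, by omega, c, by rw [Encodable.encodek]; simp, hc, hc'⟩
    · rintro ⟨s, i, -, c, -, hc, hc'⟩
      exact ⟨c, hc, hc'⟩
  have hks := ep_ks hWs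
  set Z : Set ℕ := {x | ∃ s, x ∈ Ks Ws s} with hZdef
  set Rb : ℕ → ℕ → Prop := fun x y => ∃ s, Bef (Ks Ws s) x y with hRbdef
  have hZ : EnumRed Z A := by
    refine enumRed_iff.2 ((EP.ex (p := fun (x s : ℕ) => ∃ K : List ℕ, Ks Ws s = K ∧ x ∈ K)
      (EP.ex (EP.and (hks.comp₂ (p := fun s K => Ks Ws s = K) (by fun_prop) (by fun_prop))
        (EP.prim (by fun_prop))))).of_eq (fun x => ?_))
    constructor
    · rintro ⟨s, K, rfl, h⟩
      exact ⟨s, h⟩
    · rintro ⟨s, h⟩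
      exact ⟨s, _, rfl, h⟩
  have hRb : EP A (fun x : ℕ × ℕ => Rb x.1 x.2) := by
    refine ((EP.ex (p := fun (x : ℕ × ℕ) (s : ℕ) => ∃ K : List ℕ, Ks Ws s = K ∧ Bef K x.1 x.2)
      (EP.ex (EP.and (hks.comp₂ (p := fun s K => Ks Ws s = K) (by fun_prop) (by fun_prop))
        (EP.prim (prp_bef (by fun_prop) (by fun_prop) (by fun_prop)))))).of_eq (fun x => ?_))
    constructor
    · rintro ⟨s, K, rfl, h⟩
      exact ⟨s, h⟩
    · rintro ⟨s, h⟩
      exact ⟨s, _, rfl, h⟩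
  have hsound := ks_sound Ws hmono
  have hZW : ∀ x ∈ Z, W (Nat.unpair x).1 (Nat.unpair x).2 := by
    rintro x ⟨s, hs⟩
    exact (hW _ _).2 ⟨s, (hsound s).1 x hs⟩
  have hRW' : ∀ x y, Rb x y → W (Nat.unpair x).1 (Nat.unpair y).2 := by
    rintro x y ⟨s, hs⟩
    exact (hW _ _).2 ⟨s, (hsound s).2 x y hs⟩
  have hRZ : ∀ x y, Rb x y → x ∈ Z ∧ y ∈ Z := by
    rintro x y ⟨s, hs⟩
    exact ⟨⟨s, hs.1.1⟩, ⟨s, hs.1.2⟩⟩
  have htot : ∀ x ∈ Z, ∀ y ∈ Z, x ≠ y → Rb x y ∨ Rb y x := by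
    rintro x ⟨s, hs⟩ y ⟨t, ht⟩ hne
    have h1 := ks_mono Ws (le_max_left s t) x hs
    have h2 := ks_mono Ws (le_max_right s t) y ht
    rcases bef_total h1 h2 hne with h | h
    · exact Or.inl ⟨_, h⟩
    · exact Or.inr ⟨_, h⟩
  have htrans : ∀ x y z, Rb x y → Rb y z → Rb x z := by
    rintro x y z ⟨s, hs⟩ ⟨t, ht⟩
    exact ⟨max s t, (ks_bef_mono Ws (le_max_left s t) hs).trans
      (ks_bef_mono Ws (le_max_right s t) ht)⟩
  have hcomp : ∀ n ∈ B, ∀ m ∈ C, Nat.pair n m ∈ Z := by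
    intro n hn m hm
    exact ks_complete hmono hW hwit (r := Nat.pair n m) (by rw [Nat.unpair_pair]; exact hn)
      (by rw [Nat.unpair_pair]; exact hm)
  set P : Set ℕ := {x | x ∈ Z ∧ ∃ y, (y = x ∨ Rb x y) ∧ (Nat.unpair y).2 ∉ C} with hPdef
  set Q : Set ℕ := {x | x ∈ Z ∧ x ∉ P} with hQdef
  have hPB : ∀ x ∈ P, (Nat.unpair x).1 ∈ B := by
    rintro x ⟨hx, y, hy, hyC⟩
    by_contra hcon
    rcases hy with rfl | hy
    · exact hwit.2 _ hcon _ hyC (hZW _ hx)
    · exact hwit.2 _ hcon _ hyC (hRW' _ _ hy)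
  have hQC : ∀ x ∈ Q, (Nat.unpair x).2 ∈ C := by
    rintro x ⟨hx, hxP⟩
    by_contra hcon
    exact hxP ⟨hx, x, Or.inl rfl, hcon⟩
  refine ⟨P, Q, Z, ?_, ?_, ?_, hZ, ?_, ?_⟩
  · -- B ≤ P
    refine enumRed_iff.2 ((EP.ex (p := fun (n x : ℕ) => x ∈ P ∧ (Nat.unpair x).1 = n)
      (EP.and (EP.mem (by fun_prop)) (EP.prim (by fun_prop)))).of_eq (fun n => ?_))
    constructor
    · rintro ⟨x, hx, rfl⟩
      exact hPB x hx
    · intro hn
      by_contra hcon
      push Not at hcon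
      apply hC
      refine enumRed_iff.2 (((enumRed_iff.1 hZ).comp (f := fun m => Nat.pair n m)
        (by fun_prop)).of_eq (fun m => ?_))
      constructor
      · intro hm
        have h1 : Nat.pair n m ∉ P := fun h => hcon _ h (by rw [Nat.unpair_pair])
        have h2 := hQC _ ⟨hm, h1⟩
        rwa [Nat.unpair_pair] at h2
      · exact hcomp n hn m
  · -- C ≤ Q
    refine enumRed_iff.2 ((EP.ex (p := fun (n x : ℕ) => x ∈ Q ∧ (Nat.unpair x).2 = n)
      (EP.and (EP.mem (by fun_prop)) (EP.prim (by fun_prop)))).of_eq (fun m => ?_))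
    constructor
    · rintro ⟨x, hx, rfl⟩
      exact hQC x hx
    · intro hm
      by_contra hcon
      push Not at hcon
      apply hB
      refine enumRed_iff.2 (((enumRed_iff.1 hZ).comp (f := fun n => Nat.pair n m)
        (by fun_prop)).of_eq (fun n => ?_))
      constructor
      · intro hn
        have h1 : Nat.pair n m ∉ Q := fun h => hcon _ h (by rw [Nat.unpair_pair])
        have h2 : Nat.pair n m ∈ P := by
          by_contra h3
          exact h1 ⟨hn, h3⟩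
        have h3 := hPB _ h2
        rwa [Nat.unpair_pair] at h3
      · exact fun hn => hcomp n hn m hm
  · -- the pair is a K-pair
    refine kps_of_wit hRb ⟨?_, ?_⟩
    · rintro p hp q hq
      have hne : p ≠ q := fun h => hq.2 (h ▸ hp)
      rcases htot p hp.1 q hq.1 hne with h | h
      · exact h
      · exfalso
        apply hq.2
        obtain ⟨hpZ, y, hy, hyC⟩ := hp
        refine ⟨hq.1, y, ?_, hyC⟩
        rcases hy with rfl | hy
        · exact Or.inr h
        · exact Or.inr (htrans _ _ _ h hy)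
    · intro x hx y hy hxy
      have hZxy := hRZ x y hxy
      have hyP : y ∈ P := by
        by_contra h
        exact hy ⟨hZxy.2, h⟩
      apply hx
      obtain ⟨-, w, hw, hwC⟩ := hyP
      refine ⟨hZxy.1, w, ?_, hwC⟩
      rcases hw with rfl | hw
      · exact Or.inr hxy
      · exact Or.inr (htrans _ _ _ hxy hw)
  · intro z
    constructor
    · intro hz
      by_cases hzP : z ∈ P
      · exact Or.inl hzP
      · exact Or.inr ⟨hz, hzP⟩
    · rintro (h | h)
      · exact h.1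
      · exact h.1
  · intro z hz hz'
    exact hz'.2 hz

end Pool.Agent.MP_bc2066_lc
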