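import Pool.Agent.Lib.MP_bc2066_lc.DegDefs
import Pool.Agent.Lib.MP_bc2066_lc.Failure
import Pool.Agent.Lib.MP_bc2066_lc.Split
import Pool.Agent.Lib.MP_bc2066_lc.Logic

/-!
Cones of enumeration degrees and the two halves of the main theorem.
-/

namespace Pool.Agent.MP_bc2066_lc

open FirstOrder FirstOrder.Language

instance (a : EDeg) : Language.order.OrderedStructure (Cone a) := ⟨fun _ => Iff.rfl⟩

theorem deg_le {A B : Set ℕ} : deg A ≤ deg B ↔ EnumRed A B :=
  toAntisymmetrization_le_toAntisymmetrization_iff (α := ESet)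

theorem deg_surj (a : EDeg) : ∃ A, deg A = a := by
  obtain ⟨A, hA⟩ := Quotient.exists_rep a
  exact ⟨A, hA⟩

theorem deg_eq {A B : Set ℕ} (h1 : EnumRed A B) (h2 : EnumRed B A) : deg A = deg B :=
  le_antisymm (deg_le.2 h1) (deg_le.2 h2)

/-- total degrees are cototal -/
theorem IsTotalDeg.isCototalDeg {a : EDeg} (h : IsTotalDeg a) : IsCototalDeg a := by
  obtain ⟨A, rfl, hA⟩ := h
  refine ⟨join A Aᶜ, deg_eq (join_le (EnumRed.refl A) hA) (le_join_left _ _), ?_⟩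
  -- `(A ⊕ Aᶜ)ᶜ ≡ Aᶜ ⊕ A`
  have hc : (join A Aᶜ)ᶜ = join Aᶜ A := by
    ext z
    change ¬ ((z % 2 = 0 ∧ z / 2 ∈ A) ∨ (z % 2 = 1 ∧ z / 2 ∉ A)) ↔
      ((z % 2 = 0 ∧ z / 2 ∉ A) ∨ (z % 2 = 1 ∧ z / 2 ∈ A))
    rcases Nat.mod_two_eq_zero_or_one z with h0 | h0 <;> simp [h0]
  rw [hc]
  exact join_le (le_join_right _ _) (le_join_left _ _)

section Transfer

variable {A : Set ℕ}

/-- element of the cone given by a set above the base -/
def pt {B : Set ℕ} (h : EnumRed A B) : Cone (deg A) := ⟨deg B, deg_le.2 h⟩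

theorem exists_pt (b : Cone (deg A)) : ∃ (B : Set ℕ) (h : EnumRed A B), b = pt h := by
  obtain ⟨b, hb⟩ := b
  obtain ⟨B, rfl⟩ := deg_surj b
  exact ⟨B, deg_le.1 hb, rfl⟩

theorem pt_le {B C : Set ℕ} {hB : EnumRed A B} {hC : EnumRed A C} :
    pt hB ≤ pt hC ↔ EnumRed B C := deg_le

theorem supLe_pt {D B Y : Set ℕ} {hD : EnumRed A D} {hB : EnumRed A B} {hY : EnumRed A Y} :
    SupLe (pt hD) (pt hB) (pt hY) ↔ EnumRed D (join B Y) := by
  constructor
  · intro h
    have h1 : EnumRed A (join B Y) := hB.trans (le_join_left _ _)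
    exact pt_le.1 (h (pt h1) (pt_le.2 (le_join_left _ _)) (pt_le.2 (le_join_right _ _)))
  · intro h u hu1 hu2
    obtain ⟨U, hU, rfl⟩ := exists_pt u
    exact pt_le.2 (h.trans (join_le (pt_le.1 hu1) (pt_le.1 hu2)))

theorem kpd_pt {X B C : Set ℕ} {hX : EnumRed A X} {hB : EnumRed A B} {hC : EnumRed A C} :
    KPd (pt hX) (pt hB) (pt hC) ↔ KPs X B C := by
  constructor
  · intro h Y Z hXY hZB hZC
    have hY : EnumRed A Y := hX.trans hXY
    have hZ : EnumRed A (join Z Y) := hY.trans (le_join_right _ _)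
    have h1 := h (pt hY) (pt_le.2 hXY) (pt hZ)
      (supLe_pt.2 (join_le hZB (le_join_right _ _))) (supLe_pt.2 (join_le hZC (le_join_right _ _)))
    exact (le_join_left _ _).trans (pt_le.1 h1)
  · intro h y hy z hz1 hz2
    obtain ⟨Y, hY, rfl⟩ := exists_pt y
    obtain ⟨Z, hZ, rfl⟩ := exists_pt z
    exact pt_le.2 (h Y Z (pt_le.1 hy) (supLe_pt.1 hz1) (supLe_pt.1 hz2))

end Transfer

/-- the splitting property holds above every total degree -/
theorem split_of_total {a : EDeg} (ha : IsTotalDeg a) : Split (Cone a) := by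
  obtain ⟨A, rfl, hA⟩ := ha
  intro o b c ho hb hc hK
  obtain ⟨O, hO, rfl⟩ := exists_pt o
  obtain ⟨B, hB, rfl⟩ := exists_pt b
  obtain ⟨C, hC, rfl⟩ := exists_pt c
  have hOA : EnumRed O A := pt_le.1 (ho (pt (EnumRed.refl A)))
  have hBA : ¬ EnumRed B A := fun h => hb (pt_le.2 (h.trans hO))
  have hCA : ¬ EnumRed C A := fun h => hc (pt_le.2 (h.trans hO))
  have hK' : KPs A B C := fun Y Z hAY h1 h2 => kpd_pt.1 hK Y Z (hOA.trans hAY) h1 h2
  obtain ⟨P, Q, Z, hBP, hCQ, hPQ, hZ, hZPQ, hdisj⟩ := total_split hA hBA hCA hK'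
  have hAP : EnumRed A (join P A) := le_join_right _ _
  have hAQ : EnumRed A (join Q A) := le_join_right _ _
  refine ⟨pt hAP, pt hAQ, pt_le.2 (hBP.trans (le_join_left _ _)),
    pt_le.2 (hCQ.trans (le_join_left _ _)), ?_, ?_⟩
  · refine kpd_pt.2 (fun Y W hOY h1 h2 => ?_)
    exact (hPQ.mono_left (EnumRed.refl _)).mono_right (EnumRed.refl _) Y W (hO.trans hOY) h1 h2
  · intro x hpx _ d hd
    obtain ⟨X, hX, rfl⟩ := exists_pt x
    obtain ⟨D, hD, rfl⟩ := exists_pt d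
    have hPX : ¬ EnumRed P X := fun h => hpx (pt_le.2 (join_le h hX))
    have hKD : KPs X P D :=
      (kpd_pt.1 hd).mono_left ((le_join_left _ _).trans (le_join_left _ _))
    obtain ⟨W, hW, hwit⟩ := exists_wit_of_kps hKD
    have h1 := le_of_split (hZ.trans hX) hZPQ hdisj hPX hW hwit
    refine supLe_pt.2 (h1.trans (join_le ?_ (le_join_right _ _)))
    exact (le_join_left _ _).trans (le_join_left _ _)

/-- the splitting property fails above some cototal degree in every cone -/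
theorem exists_not_split (c : EDeg) : ∃ a, c ≤ a ∧ IsCototalDeg a ∧ ¬ Split (Cone a) := by
  obtain ⟨Y0, rfl⟩ := deg_surj c
  obtain ⟨A, hY0, ⟨E, hE1, hE2, hE3⟩, B, C, X, hAX, hBX, hCX, hK, hmain⟩ := exists_bad_base Y0
  refine ⟨deg A, deg_le.2 hY0, ⟨E, deg_eq hE2 hE3, hE1⟩, fun hsplit => ?_⟩
  have hAB : EnumRed A (join B A) := le_join_right _ _
  have hAC : EnumRed A (join C A) := le_join_right _ _
  obtain ⟨p, q, hbp, hcq, hpq, hx⟩ := hsplit (pt (EnumRed.refl A)) (pt hAB) (pt hAC)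
    (fun z => by
      obtain ⟨Z, hZ, rfl⟩ := exists_pt z
      exact pt_le.2 hZ)
    (fun h => hBX (((le_join_left _ _).trans (pt_le.1 h)).trans hAX))
    (fun h => hCX (((le_join_left _ _).trans (pt_le.1 h)).trans hAX))
    (kpd_pt.2 ((hK.mono_left (EnumRed.refl _)).mono_right (EnumRed.refl _)))
  obtain ⟨P, hP, rfl⟩ := exists_pt p
  obtain ⟨Q, hQ, rfl⟩ := exists_pt q
  have hBP : EnumRed B P := (le_join_left _ _).trans (pt_le.1 hbp)
  have hCQ : EnumRed C Q := (le_join_left _ _).trans (pt_le.1 hcq)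
  obtain ⟨D, hD1, hD2⟩ := hmain P Q hBP hCQ (kpd_pt.1 hpq)
  have hAD : EnumRed A (join D A) := le_join_right _ _
  have h1 := hx (pt hAX) (fun h => hBX (hBP.trans (pt_le.1 h)))
    (fun h => hCX (hCQ.trans (pt_le.1 h))) (pt hAD)
    (kpd_pt.2 (hD1.mono_right (join_le (le_join_left _ _) (hAX.trans (le_join_right _ _)))))
  exact hD2 ((le_join_left _ _).trans (supLe_pt.1 h1))

end Pool.Agent.MP_bc2066_lc
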