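import Pool.Agent.Lib.MP_bc2066_lc.Defs

/-!
Predicates enumeration reducible to a set, with closure properties.
-/

namespace Pool.Agent.MP_bc2066_lc

open Encodable Primrec

variable {α β γ : Type*} [Primcodable α] [Primcodable β] [Primcodable γ]

/-- `EP X p`: the predicate `p` is enumeration reducible to `X` (normal form). -/
def EP (X : Set ℕ) (p : α → Prop) : Prop :=
  ∃ R : α → ℕ × List ℕ → Prop, PrimrecRel R ∧ ∀ a, p a ↔ ∃ c, R a c ∧ ∀ y ∈ c.2, y ∈ X

theorem EP.of_eq {X : Set ℕ} {p q : α → Prop} (hp : EP X p) (h : ∀ a, p a ↔ q a) : EP X q :=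
  (funext fun a => propext (h a) : p = q) ▸ hp

/-- Introduction with arbitrary certificate type. -/
theorem EP.intro {X : Set ℕ} {p : α → Prop} {R : α → β → Prop} {L : α → β → List ℕ}
    (hR : PrimrecRel R) (hL : Primrec₂ L) (h : ∀ a, p a ↔ ∃ b, R a b ∧ ∀ y ∈ L a b, y ∈ X) :
    EP X p := by
  refine ⟨fun a c => ∃ b ∈ (decode c.1 : Option β).toList, R a b ∧ L a b = c.2, ?_, ?_⟩
  · have h1 : PrimrecRel (fun (b : β) (x : α × (ℕ × List ℕ)) => R x.1 b ∧ L x.1 b = x.2.2) := by
      refine PrimrecPred.and ?_ ?_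
      · exact hR.comp (Primrec.fst.comp Primrec.snd) Primrec.fst
      · exact Primrec.eq.comp (hL.comp (Primrec.fst.comp Primrec.snd) Primrec.fst)
          (Primrec.snd.comp (Primrec.snd.comp Primrec.snd))
    exact h1.exists_mem_list.comp (Primrec.optionToList.comp
      (Primrec.decode.comp (Primrec.fst.comp Primrec.snd))) Primrec.id
  · intro a
    rw [h a]
    constructor
    · rintro ⟨b, hb, hD⟩
      exact ⟨(encode b, L a b), ⟨b, by simp, hb, rfl⟩, hD⟩
    · rintro ⟨⟨n, D⟩, ⟨b, -, hb, hD'⟩, hD⟩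
      exact ⟨b, hb, by rw [hD']; exact hD⟩

theorem EP.comp {X : Set ℕ} {p : β → Prop} (hp : EP X p) {f : α → β} (hf : Primrec f) :
    EP X (fun a => p (f a)) := by
  obtain ⟨R, hR, h⟩ := hp
  refine ⟨fun a c => R (f a) c, hR.comp (hf.comp Primrec.fst) Primrec.snd, fun a => h (f a)⟩

theorem EP.prim {X : Set ℕ} {p : α → Prop} (hp : PrimrecPred p) : EP X p := by
  refine EP.intro (β := Unit) (R := fun a _ => p a) (L := fun _ _ => [])
    (hp.comp Primrec.fst) (Primrec.const []) (fun a => ?_)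
  simp

theorem EP.mem {X : Set ℕ} {f : α → ℕ} (hf : Primrec f) : EP X (fun a => f a ∈ X) := by
  refine EP.intro (β := Unit) (R := fun _ _ => True) (L := fun a _ => [f a])
    ?_ ?_ (fun a => ?_)
  · exact (Primrec.eq.comp (Primrec.const 0) (Primrec.const 0)).of_eq (fun a => by simp)
  · exact Primrec.list_cons.comp (hf.comp Primrec.fst) (Primrec.const [])
  · simp

theorem EP.and {X : Set ℕ} {p q : α → Prop} (hp : EP X p) (hq : EP X q) :
    EP X (fun a => p a ∧ q a) := by
  obtain ⟨R, hR, h⟩ := hp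
  obtain ⟨S, hS, k⟩ := hq
  refine EP.intro (β := (ℕ × List ℕ) × (ℕ × List ℕ)) (R := fun a c => R a c.1 ∧ S a c.2)
    (L := fun _ c => c.1.2 ++ c.2.2) ?_ ?_ (fun a => ?_)
  · exact (hR.comp Primrec.fst (Primrec.fst.comp Primrec.snd)).and
      (hS.comp Primrec.fst (Primrec.snd.comp Primrec.snd))
  · exact Primrec.list_append.comp (Primrec.snd.comp (Primrec.fst.comp Primrec.snd))
      (Primrec.snd.comp (Primrec.snd.comp Primrec.snd))
  · rw [h a, k a]
    constructor
    · rintro ⟨⟨c, hc, hc'⟩, d, hd, hd'⟩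
      refine ⟨(c, d), ⟨hc, hd⟩, ?_⟩
      intro y hy
      rcases List.mem_append.1 hy with hy | hy
      · exact hc' y hy
      · exact hd' y hy
    · rintro ⟨⟨c, d⟩, ⟨hc, hd⟩, hy⟩
      exact ⟨⟨c, hc, fun y h => hy y (List.mem_append_left _ h)⟩,
        ⟨d, hd, fun y h => hy y (List.mem_append_right _ h)⟩⟩

theorem EP.ex {X : Set ℕ} {p : α → β → Prop} (hp : EP X (fun x : α × β => p x.1 x.2)) :
    EP X (fun a => ∃ b, p a b) := by
  obtain ⟨R, hR, h⟩ := hp
  refine EP.intro (β := β × (ℕ × List ℕ)) (R := fun a c => R (a, c.1) c.2)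
    (L := fun _ c => c.2.2) ?_ ?_ (fun a => ?_)
  · exact hR.comp (Primrec.fst.pair (Primrec.fst.comp Primrec.snd))
      (Primrec.snd.comp Primrec.snd)
  · exact Primrec.snd.comp (Primrec.snd.comp Primrec.snd)
  · constructor
    · rintro ⟨b, hb⟩
      obtain ⟨c, hc, hc'⟩ := (h (a, b)).1 hb
      exact ⟨(b, c), hc, hc'⟩
    · rintro ⟨⟨b, c⟩, hc, hc'⟩
      exact ⟨b, (h (a, b)).2 ⟨c, hc, hc'⟩⟩

theorem EP.or {X : Set ℕ} {p q : α → Prop} (hp : EP X p) (hq : EP X q) :
    EP X (fun a => p a ∨ q a) := by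
  obtain ⟨R, hR, h⟩ := hp
  obtain ⟨S, hS, k⟩ := hq
  refine EP.intro (β := Bool × (ℕ × List ℕ))
    (R := fun a c => (c.1 = true ∧ R a c.2) ∨ (c.1 = false ∧ S a c.2))
    (L := fun _ c => c.2.2) ?_ ?_ (fun a => ?_)
  · refine PrimrecPred.or (PrimrecPred.and ?_ ?_) (PrimrecPred.and ?_ ?_)
    · exact Primrec.eq.comp (Primrec.fst.comp Primrec.snd) (Primrec.const true)
    · exact hR.comp Primrec.fst (Primrec.snd.comp Primrec.snd)
    · exact Primrec.eq.comp (Primrec.fst.comp Primrec.snd) (Primrec.const false)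
    · exact hS.comp Primrec.fst (Primrec.snd.comp Primrec.snd)
  · exact Primrec.snd.comp (Primrec.snd.comp Primrec.snd)
  · rw [h a, k a]
    constructor
    · rintro (⟨c, hc, hc'⟩ | ⟨c, hc, hc'⟩)
      · exact ⟨(true, c), Or.inl ⟨rfl, hc⟩, hc'⟩
      · exact ⟨(false, c), Or.inr ⟨rfl, hc⟩, hc'⟩
    · rintro ⟨⟨b, c⟩, (⟨-, hc⟩ | ⟨-, hc⟩), hc'⟩
      · exact Or.inl ⟨c, hc, hc'⟩
      · exact Or.inr ⟨c, hc, hc'⟩

theorem EP.ballList {X : Set ℕ} {p : α → β → Prop} {l : α → List β} (hl : Primrec l)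
    (hp : EP X (fun x : α × β => p x.1 x.2)) : EP X (fun a => ∀ b ∈ l a, p a b) := by
  obtain ⟨R, hR, h⟩ := hp
  refine EP.intro (β := List (β × (ℕ × List ℕ)))
    (R := fun a c => ∀ b ∈ l a, ∃ t ∈ c, t.1 = b ∧ R (a, b) t.2)
    (L := fun _ c => c.flatMap (fun t => t.2.2)) ?_ ?_ (fun a => ?_)
  · have h1 : PrimrecRel (fun (t : β × (ℕ × List ℕ)) (x : β × (α × List (β × (ℕ × List ℕ)))) =>
        t.1 = x.1 ∧ R (x.2.1, x.1) t.2) := by
      refine PrimrecPred.and ?_ ?_
      · exact Primrec.eq.comp (Primrec.fst.comp Primrec.fst) (Primrec.fst.comp Primrec.snd)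
      · exact hR.comp ((Primrec.fst.comp (Primrec.snd.comp Primrec.snd)).pair
          (Primrec.fst.comp Primrec.snd)) (Primrec.snd.comp Primrec.fst)
    have h2 : PrimrecRel (fun (b : β) (x : α × List (β × (ℕ × List ℕ))) =>
        ∃ t ∈ x.2, t.1 = b ∧ R (x.1, b) t.2) :=
      h1.exists_mem_list.comp (Primrec.snd.comp Primrec.snd) Primrec.id
    exact h2.forall_mem_list.comp (hl.comp Primrec.fst) Primrec.id
  · exact Primrec.list_flatMap Primrec.snd (Primrec.snd.comp (Primrec.snd.comp Primrec.snd))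
  · constructor
    · intro hall
      have h2 : ∀ m : List β, (∀ b ∈ m, p a b) → ∃ c : List (β × (ℕ × List ℕ)),
          (∀ b ∈ m, ∃ t ∈ c, t.1 = b ∧ R (a, b) t.2) ∧
            ∀ y ∈ c.flatMap (fun t => t.2.2), y ∈ X := by
        intro m
        induction m with
        | nil => intro _; exact ⟨[], by simp, by simp⟩
        | cons b m ih =>
          intro hm
          obtain ⟨c, hc, hc'⟩ := ih (fun b' hb' => hm b' (List.mem_cons_of_mem _ hb'))
          obtain ⟨d, hd, hd'⟩ := (h (a, b)).1 (hm b List.mem_cons_self)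
          refine ⟨(b, d) :: c, ?_, ?_⟩
          · intro b' hb'
            rcases List.mem_cons.1 hb' with rfl | hb'
            · exact ⟨(b', d), List.mem_cons_self, rfl, hd⟩
            · obtain ⟨t, ht, ht'⟩ := hc b' hb'
              exact ⟨t, List.mem_cons_of_mem _ ht, ht'⟩
          · intro y hy
            rw [List.flatMap_cons] at hy
            rcases List.mem_append.1 hy with hy | hy
            · exact hd' y hy
            · exact hc' y hy
      exact h2 (l a) hall
    · rintro ⟨c, hc, hc'⟩ b hb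
      obtain ⟨t, ht, rfl, hR'⟩ := hc b hb
      refine (h (a, t.1)).2 ⟨t.2, hR', fun y hy => hc' y ?_⟩
      exact List.mem_flatMap.2 ⟨t, ht, hy⟩

theorem EP.ballLT {X : Set ℕ} {p : α → ℕ → Prop} {n : α → ℕ} (hn : Primrec n)
    (hp : EP X (fun x : α × ℕ => p x.1 x.2)) : EP X (fun a => ∀ i < n a, p a i) :=
  (EP.ballList (Primrec.list_range.comp hn) hp).of_eq (fun a => by simp)

theorem EP.trans {X Y : Set ℕ} {p : α → Prop} (hp : EP Y p) (h : EP X (fun y => y ∈ Y)) :
    EP X p := by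
  obtain ⟨R, hR, k⟩ := hp
  have h1 : EP X (fun x : α × (ℕ × List ℕ) => R x.1 x.2 ∧ ∀ y ∈ x.2.2, y ∈ Y) := by
    refine EP.and (EP.prim hR) ?_
    exact EP.ballList (p := fun (_ : α × (ℕ × List ℕ)) y => y ∈ Y)
      (Primrec.snd.comp Primrec.snd) (h.comp Primrec.snd)
  exact (EP.ex (p := fun a c => R a c ∧ ∀ y ∈ c.2, y ∈ Y) h1).of_eq (fun a => (k a).symm)

theorem EP.exList {X : Set ℕ} {p : α → β → Prop} {l : α → List β} (hl : Primrec l)
    (hp : EP X (fun x : α × β => p x.1 x.2)) : EP X (fun a => ∃ b ∈ l a, p a b) := by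
  refine EP.ex (p := fun a b => b ∈ l a ∧ p a b) ?_
  refine EP.and (EP.prim ?_) hp
  have h1 : PrimrecRel (fun (b : β) (c : β) => b = c) := Primrec.eq
  exact (h1.exists_mem_list.comp (hl.comp Primrec.fst) Primrec.snd).of_eq (fun x => by simp)

theorem EP.exLT {X : Set ℕ} {p : α → ℕ → Prop} {n : α → ℕ} (hn : Primrec n)
    (hp : EP X (fun x : α × ℕ => p x.1 x.2)) : EP X (fun a => ∃ i < n a, p a i) :=
  (EP.exList (Primrec.list_range.comp hn) hp).of_eq (fun a => by simp)

/-! ### Relation with r.e. predicates -/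

theorem exists_primrec_of_re {p : α → Prop} (hp : REPred p) :
    ∃ R : α → ℕ → Prop, PrimrecRel R ∧ ∀ a, p a ↔ ∃ n, R a n := by
  classical
  have h1 : Partrec fun a => Part.assert (p a) fun _ => Part.some () := hp
  have h2 := Partrec.bind_decode₂_iff.1 h1
  obtain ⟨c, hc⟩ := Nat.Partrec.Code.exists_code.1 h2
  refine ⟨fun a n => (Nat.Partrec.Code.evaln n c (encode a)).isSome = true, ?_, ?_⟩
  · have h3 : Primrec (fun x : α × ℕ => (Nat.Partrec.Code.evaln x.2 c (encode x.1)).isSome) := by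
      refine Primrec.option_isSome.comp ?_
      exact Nat.Partrec.Code.primrec_evaln.comp
        ((Primrec.snd.pair (Primrec.const c)).pair (Primrec.encode.comp Primrec.fst))
    exact Primrec.eq.comp h3 (Primrec.const true)
  · intro a
    have h4 : p a ↔ (Nat.Partrec.Code.eval c (encode a)).Dom := by
      rw [hc]
      simp [Part.assert]
    rw [h4, Part.dom_iff_mem]
    constructor
    · rintro ⟨y, hy⟩
      obtain ⟨k, hk⟩ := Nat.Partrec.Code.evaln_complete.1 hy
      refine ⟨k, ?_⟩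
      rw [Option.mem_def] at hk
      simp [hk]
    · rintro ⟨k, hk⟩
      obtain ⟨y, hy⟩ := Option.isSome_iff_exists.1 hk
      exact ⟨y, Nat.Partrec.Code.evaln_sound hy⟩

theorem re_of_primrec {p : α → Prop} {R : α → β → Prop} (hR : PrimrecRel R)
    (h : ∀ a, p a ↔ ∃ n, R a n) : REPred p := by
  classical
  have h1 : PrimrecRel (fun (a : α) (n : ℕ) => ∃ b ∈ (decode n : Option β).toList, R a b) :=
    (PrimrecRel.exists_mem_list (R := fun (b : β) (a : α) => R a b)
      (hR.comp Primrec.snd Primrec.fst)).comp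
      (Primrec.optionToList.comp (Primrec.decode.comp Primrec.snd)) Primrec.fst
  have h2 : Partrec (fun a : α => Nat.rfind (fun n =>
      (Part.some (decide (∃ b ∈ (decode n : Option β).toList, R a b)) : Part Bool))) :=
    Partrec.rfind (h1.decide.to_comp.partrec)
  refine (Partrec.dom_re h2).of_eq (fun a => ?_)
  rw [h a]
  refine (Nat.rfind_dom (p := fun n =>
      (Part.some (decide (∃ b ∈ (decode n : Option β).toList, R a b)) : Part Bool))).trans ?_
  constructor
  · rintro ⟨n, hn, -⟩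
    simp only [Part.mem_some_iff] at hn
    obtain ⟨b, -, hb⟩ := of_decide_eq_true hn.symm
    exact ⟨b, hb⟩
  · rintro ⟨b, hb⟩
    refine ⟨encode b, ?_, ?_⟩
    · rw [Part.mem_some_iff]
      exact (decide_eq_true ⟨b, by simp, hb⟩).symm
    · intro m _
      exact trivial

theorem EP.re {X : Set ℕ} {p : α → Prop} (hp : REPred p) : EP X p := by
  obtain ⟨R, hR, h⟩ := exists_primrec_of_re hp
  exact EP.intro (R := R) (L := fun _ _ => []) hR (Primrec.const []) (fun a => by simp [h a])

theorem enumRed_iff {A B : Set ℕ} : EnumRed A B ↔ EP B (fun x => x ∈ A) := by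
  constructor
  · rintro ⟨W, hW, h⟩
    obtain ⟨R, hR, k⟩ := exists_primrec_of_re hW
    refine EP.intro (β := ℕ × List ℕ) (R := fun x c => R (x, c.2) c.1) (L := fun _ c => c.2)
      ?_ ?_ (fun x => ?_)
    · exact hR.comp (Primrec.fst.pair (Primrec.snd.comp Primrec.snd))
        (Primrec.fst.comp Primrec.snd)
    · exact Primrec.snd.comp Primrec.snd
    · rw [h x]
      constructor
      · rintro ⟨D, hD, hy⟩
        obtain ⟨n, hn⟩ := (k _).1 hD
        exact ⟨(n, D), hn, hy⟩
      · rintro ⟨⟨n, D⟩, hn, hy⟩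
        exact ⟨D, (k _).2 ⟨n, hn⟩, hy⟩
  · rintro ⟨R, hR, h⟩
    refine ⟨fun x => ∃ n, R x.1 (n, x.2), ?_, ?_⟩
    · refine re_of_primrec (R := fun (x : ℕ × List ℕ) n => R x.1 (n, x.2)) ?_ (fun _ => Iff.rfl)
      exact hR.comp (Primrec.fst.comp Primrec.fst)
        (Primrec.snd.pair (Primrec.snd.comp Primrec.fst))
    · intro x
      refine (h x).trans ?_
      constructor
      · rintro ⟨⟨n, D⟩, hn, hy⟩
        exact ⟨D, ⟨n, hn⟩, hy⟩
      · rintro ⟨D, ⟨n, hn⟩, hy⟩
        exact ⟨(n, D), hn, hy⟩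

theorem EP.comp₂ {X : Set ℕ} {p : β → γ → Prop} (hp : EP X (fun x : β × γ => p x.1 x.2))
    {f : α → β} {g : α → γ} (hf : Primrec f) (hg : Primrec g) : EP X (fun a => p (f a) (g a)) :=
  hp.comp (hf.pair hg)

theorem EP.comp₃ {δ : Type*} [Primcodable δ] {X : Set ℕ} {p : β → γ → δ → Prop}
    (hp : EP X (fun x : β × γ × δ => p x.1 x.2.1 x.2.2))
    {f : α → β} {g : α → γ} {h : α → δ} (hf : Primrec f) (hg : Primrec g) (hh : Primrec h) :
    EP X (fun a => p (f a) (g a) (h a)) :=
  hp.comp (hf.pair (hg.pair hh))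

/-! ### Automation -/

attribute [fun_prop] Primrec PrimrecPred

@[fun_prop] theorem pr_id : Primrec (fun a : α => a) := Primrec.id

@[fun_prop] theorem pr_const (b : β) : Primrec (fun _ : α => b) := Primrec.const b

@[fun_prop] theorem pr_comp {f : β → γ} {g : α → β} (hf : Primrec f) (hg : Primrec g) :
    Primrec (fun a => f (g a)) := hf.comp hg

@[fun_prop] theorem pr_fst {f : α → β × γ} (hf : Primrec f) : Primrec (fun a => (f a).1) :=
  Primrec.fst.comp hf

@[fun_prop] theorem pr_snd {f : α → β × γ} (hf : Primrec f) : Primrec (fun a => (f a).2) :=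
  Primrec.snd.comp hf

@[fun_prop] theorem pr_mk {f : α → β} {g : α → γ} (hf : Primrec f) (hg : Primrec g) :
    Primrec (fun a => (f a, g a)) := hf.pair hg

@[fun_prop] theorem prp_eq {f g : α → β} (hf : Primrec f) (hg : Primrec g) :
    PrimrecPred (fun a => f a = g a) := Primrec.eq.comp hf hg

@[fun_prop] theorem prp_le {f g : α → ℕ} (hf : Primrec f) (hg : Primrec g) :
    PrimrecPred (fun a => f a ≤ g a) := Primrec.nat_le.comp hf hg

@[fun_prop] theorem prp_lt {f g : α → ℕ} (hf : Primrec f) (hg : Primrec g) :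
    PrimrecPred (fun a => f a < g a) := Primrec.nat_lt.comp hf hg

@[fun_prop] theorem prp_and {p q : α → Prop} (hf : PrimrecPred p) (hg : PrimrecPred q) :
    PrimrecPred (fun a => p a ∧ q a) := hf.and hg

@[fun_prop] theorem prp_or {p q : α → Prop} (hf : PrimrecPred p) (hg : PrimrecPred q) :
    PrimrecPred (fun a => p a ∨ q a) := hf.or hg

@[fun_prop] theorem prp_not {p : α → Prop} (hf : PrimrecPred p) :
    PrimrecPred (fun a => ¬ p a) := hf.not

@[fun_prop] theorem prp_mem {f : α → β} {g : α → List β} (hf : Primrec f) (hg : Primrec g) :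
    PrimrecPred (fun a => f a ∈ g a) := by
  have h1 : PrimrecRel (fun (b : β) (c : β) => b = c) := Primrec.eq
  exact (h1.exists_mem_list.comp hg hf).of_eq (fun x => by simp)

@[fun_prop] theorem pr_div {f g : α → ℕ} (hf : Primrec f) (hg : Primrec g) :
    Primrec (fun a => f a / g a) := Primrec.nat_div.comp hf hg

@[fun_prop] theorem pr_mod {f g : α → ℕ} (hf : Primrec f) (hg : Primrec g) :
    Primrec (fun a => f a % g a) := Primrec.nat_mod.comp hf hg

@[fun_prop] theorem pr_add {f g : α → ℕ} (hf : Primrec f) (hg : Primrec g) :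
    Primrec (fun a => f a + g a) := Primrec.nat_add.comp hf hg

@[fun_prop] theorem pr_sub {f g : α → ℕ} (hf : Primrec f) (hg : Primrec g) :
    Primrec (fun a => f a - g a) := Primrec.nat_sub.comp hf hg

@[fun_prop] theorem pr_mul {f g : α → ℕ} (hf : Primrec f) (hg : Primrec g) :
    Primrec (fun a => f a * g a) := Primrec.nat_mul.comp hf hg

@[fun_prop] theorem pr_natPair {f g : α → ℕ} (hf : Primrec f) (hg : Primrec g) :
    Primrec (fun a => Nat.pair (f a) (g a)) := Primrec₂.natPair.comp hf hg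

@[fun_prop] theorem pr_unpair {f : α → ℕ} (hf : Primrec f) :
    Primrec (fun a => Nat.unpair (f a)) := Primrec.unpair.comp hf

@[fun_prop] theorem pr_append {f g : α → List β} (hf : Primrec f) (hg : Primrec g) :
    Primrec (fun a => f a ++ g a) := Primrec.list_append.comp hf hg

@[fun_prop] theorem pr_cons {f : α → β} {g : α → List β} (hf : Primrec f) (hg : Primrec g) :
    Primrec (fun a => f a :: g a) := Primrec.list_cons.comp hf hg

@[fun_prop] theorem pr_length {f : α → List β} (hf : Primrec f) :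
    Primrec (fun a => (f a).length) := Primrec.list_length.comp hf

@[fun_prop] theorem pr_range {f : α → ℕ} (hf : Primrec f) :
    Primrec (fun a => List.range (f a)) := Primrec.list_range.comp hf

@[fun_prop] theorem pr_getElem? {f : α → List β} {g : α → ℕ} (hf : Primrec f) (hg : Primrec g) :
    Primrec (fun a => (f a)[g a]?) := Primrec.list_getElem?.comp hf hg

@[fun_prop] theorem pr_some {f : α → β} (hf : Primrec f) :
    Primrec (fun a => some (f a)) := Primrec.option_some.comp hf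

@[fun_prop] theorem pr_div2 {f : α → ℕ} (hf : Primrec f) :
    Primrec (fun a => Nat.div2 (f a)) := Primrec.nat_div2.comp hf

@[fun_prop] theorem pr_bodd {f : α → ℕ} (hf : Primrec f) :
    Primrec (fun a => Nat.bodd (f a)) := Primrec.nat_bodd.comp hf

end Pool.Agent.MP_bc2066_lc
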