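import Pool.Agent.Lib.MP_bc2066_lc.Cond

/-!
The main density lemma.
-/

namespace Pool.Agent.MP_bc2066_lc

variable {Y0 : Set ℕ}

/-- code of the triple `(m', n0, g)` -/
def kcode (m' n0 g : ℕ) : ℕ := Nat.pair m' (Nat.pair n0 g)

/-- The four ways in which a condition settles the requirement `(e1, e2, e3)`. -/
def Out (Y0 : Set ℕ) (e1 e2 e3 : ℕ) (idx : ℕ → List ℕ → ℕ) (r : Cond) : Prop :=
  (∃ l m1 m2, m1 ∈ r.Mm ∧ m2 ∈ r.Mp ∧ Nat.pair l m1 ∈ Ev e1 (Ap Y0 r) ∧
    ∀ q, Ext r q → Nat.pair l m2 ∉ Ev e1 (Ap Y0 q)) ∨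
  (∃ κ n1 n2, n1 ∈ r.Nm ∧ n2 ∈ r.Np ∧ Nat.pair n1 κ ∈ Ev e2 (Ap Y0 r) ∧
    ∀ q, Ext r q → Nat.pair n2 κ ∉ Ev e2 (Ap Y0 q)) ∨
  (∃ n0 m' g, (n0 ∈ r.Nm ∧ m' ∈ r.Mm ∧ g ∈ r.Mp ∧ Nat.pair n0 g ∈ r.Wp) ∧
    ∀ q, Ext r q → kcode m' n0 g ∉ Ev e3 (join (Qp Y0 e2 q) (Xp Y0 q))) ∨
  (∃ n0 m' g, (m' ∈ r.Mm ∧ Nat.pair n0 m' ∈ r.Wp) ∧
    kcode m' n0 g ∈ Ev e3 (join (Qp Y0 e2 r) (Xp Y0 r)) ∧
    ∃ L big, r.sg[L]? = some big ∧ (∀ e ∈ r.Tp, (Nat.unpair e).2 < big) ∧
      ∀ l < L, (∀ q, Ext r q → Nat.pair l g ∉ Ev e1 (Ap Y0 q)) ∨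
        ∃ D, Op e1 (Nat.pair l m', D) ∧ (∀ y ∈ D, y ∈ Ap Y0 r) ∧ idx (Nat.pair l m') D < big)

/-- finite pieces of information compatible with the intended final condition -/
structure Fk (p q : Cond) (m' g : ℕ) (F Tp Tm : Finset ℕ) : Prop where
  a1 : q.Wp ⊆ F
  a2 : ∀ n ∈ p.Nm, ∀ m, (m = m' ∨ m = g ∨ m ∈ p.Mm) → Nat.pair n m ∉ F
  a3 : ∀ w ∈ F, w ∉ p.Wm
  a4 : q.Tp ⊆ Tp
  a5 : q.Tm ⊆ Tm
  a6 : ∀ e ∈ Tp, e ∉ Tm
  a7 : ∀ e ∈ Tp, e ∉ q.Tp → (Nat.unpair e).1 ∉ q.Wp

/-- validity of the first witness below `p` -/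
def ValV (Y0 : Set ℕ) (e1 : ℕ) (p : Cond) : Prop :=
  ∀ q, Ext p q → ∀ l m1 m2, m1 ∈ q.Mm → m2 ∈ q.Mp → Nat.pair l m1 ∈ Ev e1 (Ap Y0 q) →
    ∃ q', Ext q q' ∧ Nat.pair l m2 ∈ Ev e1 (Ap Y0 q')

/-- validity of the second witness below `p` -/
def ValU (Y0 : Set ℕ) (e2 : ℕ) (p : Cond) : Prop :=
  ∀ q, Ext p q → ∀ κ n1 n2, n1 ∈ q.Nm → n2 ∈ q.Np → Nat.pair n1 κ ∈ Ev e2 (Ap Y0 q) →
    ∃ q', Ext q q' ∧ Nat.pair n2 κ ∈ Ev e2 (Ap Y0 q')

/-- first loop: decide for each `l < L` whether `l` is dead or alive -/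
theorem loop1 {e1 : ℕ} {p q : Cond} {m' g : ℕ} (hV : ValV Y0 e1 p) (hpq : Ext p q)
    (hm'1 : m' ∉ p.Mm) (hg1 : g ∉ p.Mp) (hmg : m' ≠ g)
    (h0 : Fk p q m' g q.Wp q.Tp q.Tm) (L : ℕ) :
    ∃ F Tp Tm, Fk p q m' g F Tp Tm ∧ ∀ l < L,
      (∃ D, Op e1 (Nat.pair l m', D) ∧
        ∀ y ∈ D, y ∈ Aof Y0 (F : Set ℕ) (Tp : Set ℕ) (Tm : Set ℕ)) ∨
      (∀ F' Tp' Tm', Fk p q m' g F' Tp' Tm' → F ⊆ F' → Tp ⊆ Tp' → Tm ⊆ Tm' →
        Nat.pair l g ∉ Ev e1 (Aof Y0 (F' : Set ℕ) (Tp' : Set ℕ) (Tm' : Set ℕ))) := by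
  induction L with
  | zero => exact ⟨q.Wp, q.Tp, q.Tm, h0, fun l hl => absurd hl (Nat.not_lt_zero l)⟩
  | succ L ih =>
    obtain ⟨F, Tp, Tm, hF, hl⟩ := ih
    by_cases hdead : ∀ F' Tp' Tm', Fk p q m' g F' Tp' Tm' → F ⊆ F' → Tp ⊆ Tp' → Tm ⊆ Tm' →
        Nat.pair L g ∉ Ev e1 (Aof Y0 (F' : Set ℕ) (Tp' : Set ℕ) (Tm' : Set ℕ))
    · refine ⟨F, Tp, Tm, hF, fun l hlL => ?_⟩
      rcases Nat.lt_succ_iff_lt_or_eq.1 hlL with h | rfl
      · exact hl l h
      · exact Or.inr hdead
    · push Not at hdead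
      obtain ⟨F1, Tp1, Tm1, hF1, hFF1, hTp1, hTm1, hforce⟩ := hdead
      let d : Cond :=
        { p with
          Mp := insert m' p.Mp
          Mm := insert g p.Mm
          Wp := F1
          Wm := p.Wm ∪ p.Nm.image (fun n => Nat.pair n m')
          Tp := Tp1
          Tm := Tm1
          hM := by
            intro x hx hx'
            rcases Finset.mem_insert.1 hx with rfl | hx
            · rcases Finset.mem_insert.1 hx' with hx' | hx'
              · exact hmg hx'
              · exact hm'1 hx'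
            · rcases Finset.mem_insert.1 hx' with rfl | hx'
              · exact hg1 hx
              · exact p.hM x hx hx'
          hW := by
            intro w hw hw'
            rcases Finset.mem_union.1 hw' with hw' | hw'
            · exact hF1.a3 w hw hw'
            · obtain ⟨n, hn, rfl⟩ := Finset.mem_image.1 hw'
              exact hF1.a2 n hn m' (Or.inl rfl) hw
          hT := hF1.a6
          h1 := by
            intro n hn m hm
            rcases Finset.mem_insert.1 hm with hm | hm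
            · exact hF1.a2 n hn m (Or.inr (Or.inl hm))
            · exact hF1.a2 n hn m (Or.inr (Or.inr hm))
          h2 := by
            intro w hw
            rcases Finset.mem_union.1 hw with hw | hw
            · exact (p.h2 w hw).imp id (fun h => Finset.mem_insert_of_mem h)
            · obtain ⟨n, hn, rfl⟩ := Finset.mem_image.1 hw
              rw [Nat.unpair_pair]
              exact Or.inl hn }
      have hpd : Ext p d :=
        { Ext.refl p with
          Mp := Finset.subset_insert _ _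
          Mm := Finset.subset_insert _ _
          Wp := hpq.Wp.trans hF1.a1
          Wm := Finset.subset_union_left
          Tp := hpq.Tp.trans hF1.a4
          Tm := hpq.Tm.trans hF1.a5
          lock := by
            intro e he hep
            by_cases heq : e ∈ q.Tp
            · exact hpq.lock e heq hep
            · exact fun h => hF1.a7 e he heq (hpq.Wp h) }
      obtain ⟨d', hdd', hd'⟩ := hV d hpd L g m' (Finset.mem_insert_self _ _)
        (Finset.mem_insert_self _ _) hforce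
      have hFd' : F1 ⊆ d'.Wp := hdd'.Wp
      have hTpd' : Tp1 ⊆ d'.Tp := hdd'.Tp
      have hTmd' : Tm1 ⊆ d'.Tm := hdd'.Tm
      have hF2 : Fk p q m' g d'.Wp d'.Tp d'.Tm :=
        { a1 := hF1.a1.trans hFd'
          a2 := by
            intro n hn m hm hcon
            rcases hm with rfl | hm | hm
            · exact d'.hW _ hcon (hdd'.Wm (Finset.mem_union_right _
                (Finset.mem_image.2 ⟨n, hn, rfl⟩)))
            · exact d'.h1 n (hdd'.Nm hn) m (hdd'.Mm (Finset.mem_insert.2 (Or.inl hm))) hcon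
            · exact d'.h1 n (hdd'.Nm hn) m (hdd'.Mm (Finset.mem_insert_of_mem hm)) hcon
          a3 := fun w hw hw' => d'.hW w hw (hdd'.Wm (Finset.mem_union_left _ hw'))
          a4 := hF1.a4.trans hTpd'
          a5 := hF1.a5.trans hTmd'
          a6 := d'.hT
          a7 := by
            intro e he heq
            by_cases he1 : e ∈ Tp1
            · exact hF1.a7 e he1 heq
            · exact fun h => hdd'.lock e he he1 (hF1.a1 h) }
      refine ⟨d'.Wp, d'.Tp, d'.Tm, hF2, fun l hlL => ?_⟩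
      rcases Nat.lt_succ_iff_lt_or_eq.1 hlL with h | rfl
      · rcases hl l h with ⟨D, hD, hD'⟩ | hdead
        · refine Or.inl ⟨D, hD, fun y hy => aof_mono ?_ ?_ ?_ (hD' y hy)⟩
          · exact Finset.coe_subset.2 (hFF1.trans hFd')
          · exact Finset.coe_subset.2 (hTp1.trans hTpd')
          · exact Finset.coe_subset.2 (hTm1.trans hTmd')
        · exact Or.inr (fun F' Tp' Tm' hF' h1 h2 h3 => hdead F' Tp' Tm' hF'
            ((hFF1.trans hFd').trans h1) ((hTp1.trans hTpd').trans h2)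
            ((hTm1.trans hTmd').trans h3))
      · exact Or.inl hd'

/-- second loop: find new elements of `B` that witness membership in `Q` -/
theorem loop2 {e2 : ℕ} {p q : Cond} (hU : ValU Y0 e2 p) (hpq : Ext p q) (K' : ℕ) (L : List ℕ) :
    ∃ q2, Ext q q2 ∧ ∀ κ ∈ L, κ ∈ Qp Y0 e2 q → ∃ n, K' ≤ n ∧ n ∈ q2.Np ∧
      Nat.pair n κ ∈ Ev e2 (Ap Y0 q2) ∧ ∀ m ∈ q.Mm, Nat.pair n m ∈ q2.Wm := by
  induction L with
  | nil => exact ⟨q, Ext.refl q, by simp⟩
  | cons κ L ih =>
    obtain ⟨q2, hq2, hL⟩ := ih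
    by_cases hκ : κ ∈ Qp Y0 e2 q
    · obtain ⟨n1, hn1, hκ1⟩ := hκ
      obtain ⟨K, hNp, hNm, hMp, hMm, hWp, hWm⟩ := exists_bnd q2
      have hfr : max K K' ∉ q2.Nm := fun h => by
        have := hNm _ h
        omega
      let q3 : Cond :=
        { q2 with
          Np := insert (max K K') q2.Np
          Wm := q2.Wm ∪ q2.Mm.image (fun m => Nat.pair (max K K') m)
          hN := by
            intro x hx hx'
            rcases Finset.mem_insert.1 hx with rfl | hx
            · exact hfr hx'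
            · exact q2.hN x hx hx'
          hW := by
            intro w hw hw'
            rcases Finset.mem_union.1 hw' with hw' | hw'
            · exact q2.hW w hw hw'
            · obtain ⟨m, -, rfl⟩ := Finset.mem_image.1 hw'
              have := lt_of_pair_left hWp hw
              omega
          h2 := by
            intro w hw
            rcases Finset.mem_union.1 hw with hw | hw
            · exact q2.h2 w hw
            · obtain ⟨m, hm, rfl⟩ := Finset.mem_image.1 hw
              rw [Nat.unpair_pair]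
              exact Or.inr hm }
      have hq3 : Ext q2 q3 :=
        { Ext.refl q2 with
          Np := Finset.subset_insert _ _
          Wm := Finset.subset_union_left }
      obtain ⟨q4, hq4, h4⟩ := hU q3 ((hpq.trans hq2).trans hq3) κ n1 (max K K')
        (hq3.Nm (hq2.Nm hn1)) (Finset.mem_insert_self _ _)
        (Ev.mono (ap_mono (hq2.trans hq3)) hκ1)
      refine ⟨q4, (hq2.trans hq3).trans hq4, fun κ' hκ' hκ'Q => ?_⟩
      rcases List.mem_cons.1 hκ' with rfl | hκ'
      · refine ⟨max K K', le_max_right _ _, hq4.Np (Finset.mem_insert_self _ _), h4, ?_⟩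
        intro m hm
        exact hq4.Wm (Finset.mem_union_right _ (Finset.mem_image.2 ⟨m, hq2.Mm hm, rfl⟩))
      · obtain ⟨n, hn, hn1, hn2, hn3⟩ := hL κ' hκ' hκ'Q
        exact ⟨n, hn, hq4.Np (hq3.Np hn1), Ev.mono (ap_mono (hq3.trans hq4)) hn2,
          fun m hm => hq4.Wm (hq3.Wm (hn3 m hm))⟩
    · refine ⟨q2, hq2, fun κ' hκ' hκ'Q => ?_⟩
      rcases List.mem_cons.1 hκ' with rfl | hκ'
      · exact (hκ hκ'Q).elim
      · exact hL κ' hκ' hκ'Q

/-- main density lemma -/
theorem dense_main (e1 e2 e3 : ℕ) (idx : ℕ → List ℕ → ℕ) (p : Cond) :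
    ∃ r, Ext p r ∧ Out Y0 e1 e2 e3 idx r := by
  classical
  by_cases hV : ValV Y0 e1 p
  swap
  · unfold ValV at hV
    push Not at hV
    obtain ⟨q, hpq, l, m1, m2, h1, h2, h3, h4⟩ := hV
    exact ⟨q, hpq, Or.inl ⟨l, m1, m2, h1, h2, h3, h4⟩⟩
  by_cases hU : ValU Y0 e2 p
  swap
  · unfold ValU at hU
    push Not at hU
    obtain ⟨q, hpq, l, m1, m2, h1, h2, h3, h4⟩ := hU
    exact ⟨q, hpq, Or.inr (Or.inl ⟨l, m1, m2, h1, h2, h3, h4⟩)⟩
  obtain ⟨K, hNp, hNm, hMp, hMm, hWp, hWm⟩ := exists_bnd p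
  -- fresh elements: `n0 = K`, `m' = K`, `g = K + 1`
  have hKNp : K ∉ p.Np := fun h => lt_irrefl _ (hNp K h)
  have hKNm : K ∉ p.Nm := fun h => lt_irrefl _ (hNm K h)
  have hKMp : K ∉ p.Mp := fun h => lt_irrefl _ (hMp K h)
  have hKMm : K ∉ p.Mm := fun h => lt_irrefl _ (hMm K h)
  have hgMp : K + 1 ∉ p.Mp := fun h => by have := hMp _ h; omega
  have hgMm : K + 1 ∉ p.Mm := fun h => by have := hMm _ h; omega
  let q0 : Cond :=
    { p with
      Nm := insert K p.Nm
      Mm := insert K p.Mm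
      Mp := insert (K + 1) p.Mp
      Wp := insert (Nat.pair K (K + 1)) p.Wp
      Wm := p.Wm ∪ p.Nm.image (fun n => Nat.pair n (K + 1))
      hN := by
        intro x hx hx'
        rcases Finset.mem_insert.1 hx' with rfl | hx'
        · exact hKNp hx
        · exact p.hN x hx hx'
      hM := by
        intro x hx hx'
        rcases Finset.mem_insert.1 hx with rfl | hx
        · rcases Finset.mem_insert.1 hx' with hx' | hx'
          · omega
          · exact hgMm hx'
        · rcases Finset.mem_insert.1 hx' with hx' | hx'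
          · exact hKMp (hx' ▸ hx)
          · exact p.hM x hx hx'
      hW := by
        intro w hw hw'
        rcases Finset.mem_insert.1 hw with rfl | hw
        · rcases Finset.mem_union.1 hw' with hw' | hw'
          · exact lt_irrefl _ (lt_of_pair_left hWm hw')
          · obtain ⟨n, hn, heq⟩ := Finset.mem_image.1 hw'
            have := (Nat.pair_eq_pair.1 heq).1
            exact hKNm (this ▸ hn)
        · rcases Finset.mem_union.1 hw' with hw' | hw'
          · exact p.hW w hw hw'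
          · obtain ⟨n, hn, rfl⟩ := Finset.mem_image.1 hw'
            have := lt_of_pair_right hWp hw
            omega
      h1 := by
        intro n hn m hm hw
        rcases Finset.mem_insert.1 hw with hw | hw
        · have := (Nat.pair_eq_pair.1 hw).2
          subst this
          rcases Finset.mem_insert.1 hm with hm | hm
          · omega
          · exact hgMm hm
        · rcases Finset.mem_insert.1 hn with hn | hn
          · exact lt_irrefl _ (hn ▸ lt_of_pair_left hWp hw)
          · rcases Finset.mem_insert.1 hm with hm | hm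
            · exact lt_irrefl _ (hm ▸ lt_of_pair_right hWp hw)
            · exact p.h1 n hn m hm hw
      h2 := by
        intro w hw
        rcases Finset.mem_union.1 hw with hw | hw
        · exact (p.h2 w hw).imp (fun h => Finset.mem_insert_of_mem h)
            (fun h => Finset.mem_insert_of_mem h)
        · obtain ⟨n, hn, rfl⟩ := Finset.mem_image.1 hw
          rw [Nat.unpair_pair]
          exact Or.inl (Finset.mem_insert_of_mem hn) }
  have hpq0 : Ext p q0 :=
    { Ext.refl p with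
      Nm := Finset.subset_insert _ _
      Mm := Finset.subset_insert _ _
      Mp := Finset.subset_insert _ _
      Wp := Finset.subset_insert _ _
      Wm := Finset.subset_union_left }
  by_cases hc : ∃ q, Ext q0 q ∧ kcode K K (K + 1) ∈ Ev e3 (join (Qp Y0 e2 q) (Xp Y0 q))
  swap
  · push Not at hc
    exact ⟨q0, hpq0, Or.inr (Or.inr (Or.inl ⟨K, K, K + 1, ⟨Finset.mem_insert_self _ _,
      Finset.mem_insert_self _ _, Finset.mem_insert_self _ _, Finset.mem_insert_self _ _⟩, hc⟩))⟩
  obtain ⟨q, hq0q, D, hD, hD'⟩ := hc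
  have hpq := hpq0.trans hq0q
  have hKq : K ∈ q.Mm := hq0q.Mm (Finset.mem_insert_self _ _)
  have hWmq : ∀ n ∈ p.Nm, Nat.pair n (K + 1) ∈ q.Wm := fun n hn =>
    hq0q.Wm (Finset.mem_union_right _ (Finset.mem_image.2 ⟨n, hn, rfl⟩))
  have h0 : Fk p q K (K + 1) q.Wp q.Tp q.Tm :=
    { a1 := Finset.Subset.refl _
      a2 := by
        intro n hn m hm hcon
        rcases hm with rfl | rfl | hm
        · exact q.h1 n (hpq.Nm hn) _ hKq hcon
        · exact q.hW _ hcon (hWmq n hn)
        · exact q.h1 n (hpq.Nm hn) m (hpq.Mm hm) hcon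
      a3 := fun w hw hw' => q.hW w hw (hpq.Wm hw')
      a4 := Finset.Subset.refl _
      a5 := Finset.Subset.refl _
      a6 := q.hT
      a7 := fun e he he' => (he' he).elim }
  obtain ⟨F, Tp, Tm, hF, hl⟩ := loop1 hV hpq hKMm hgMp (by omega) h0 q.sg.length
  -- the real condition with the new information about `T`
  let q1 : Cond :=
    { q with
      Tp := Tp
      Tm := Tm
      hT := hF.a6 }
  have hqq1 : Ext q q1 :=
    { Ext.refl q with
      Tp := hF.a4
      Tm := hF.a5
      lock := hF.a7 }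
  obtain ⟨KF, hKF⟩ := Finset.exists_nat_subset_range F
  have hKF' : ∀ w ∈ F, w < KF := fun w hw => Finset.mem_range.1 (hKF hw)
  obtain ⟨q2, hq1q2, hL2⟩ := loop2 hU (hpq.trans hqq1) (max KF (K + 1)) (D.map (fun y => y / 2))
  have hqq2 := hqq1.trans hq1q2
  have hpq2 := hpq.trans hqq2
  -- bound for the value of `h`
  have hidx : ∃ b, ∀ l < q.sg.length, (∃ D, Op e1 (Nat.pair l K, D) ∧
        ∀ y ∈ D, y ∈ Aof Y0 (F : Set ℕ) (Tp : Set ℕ) (Tm : Set ℕ)) →
        ∃ D, Op e1 (Nat.pair l K, D) ∧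
        (∀ y ∈ D, y ∈ Aof Y0 (F : Set ℕ) (Tp : Set ℕ) (Tm : Set ℕ)) ∧ idx (Nat.pair l K) D < b := by
    generalize q.sg.length = N
    induction N with
    | zero => exact ⟨0, fun l hl => absurd hl (Nat.not_lt_zero l)⟩
    | succ N ih =>
      obtain ⟨b, hb⟩ := ih
      by_cases hN : ∃ D, Op e1 (Nat.pair N K, D) ∧
        ∀ y ∈ D, y ∈ Aof Y0 (F : Set ℕ) (Tp : Set ℕ) (Tm : Set ℕ)
      · obtain ⟨D1, hD1, hD1'⟩ := hN
        refine ⟨max b (idx (Nat.pair N K) D1 + 1), fun l hlN hex => ?_⟩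
        rcases Nat.lt_succ_iff_lt_or_eq.1 hlN with h | rfl
        · obtain ⟨D2, h1, h2, h3⟩ := hb l h hex
          exact ⟨D2, h1, h2, lt_of_lt_of_le h3 (le_max_left _ _)⟩
        · exact ⟨D1, hD1, hD1', lt_of_lt_of_le (Nat.lt_succ_self _) (le_max_right _ _)⟩
      · refine ⟨b, fun l hlN hex => ?_⟩
        rcases Nat.lt_succ_iff_lt_or_eq.1 hlN with h | rfl
        · exact hb l h hex
        · exact (hN hex).elim
  obtain ⟨b, hb⟩ := hidx
  obtain ⟨bT, hbT⟩ := Finset.exists_nat_subset_range q2.Tp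
  have hbT' : ∀ e ∈ q2.Tp, (Nat.unpair e).2 < bT := fun e he =>
    lt_of_le_of_lt (Nat.unpair_right_le e) (Finset.mem_range.1 (hbT he))
  set big := max b bT with hbig
  set S : Finset ℕ := q2.Np.filter (fun n => max KF (K + 1) ≤ n ∧
    ∀ m ∈ q1.Mm, Nat.pair n m ∈ q2.Wm) with hS
  have hSmem : ∀ n, n ∈ S ↔ n ∈ q2.Np ∧ max KF (K + 1) ≤ n ∧
    ∀ m ∈ q.Mm, Nat.pair n m ∈ q2.Wm := by
    intro n
    rw [hS, Finset.mem_filter]
  have hF1 : p.Wp ⊆ F := hpq.Wp.trans hF.a1
  let r : Cond :=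
    { p with
      Nm := p.Nm ∪ S
      Mm := insert K p.Mm
      Wp := insert (Nat.pair K K) (F ∪ q2.Wp)
      Wm := p.Wm ∪ p.Nm.image (fun n => Nat.pair n (K + 1))
      Tp := q2.Tp
      Tm := q2.Tm
      sg := q.sg ++ [big]
      hN := by
        intro x hx hx'
        rcases Finset.mem_union.1 hx' with hx' | hx'
        · exact p.hN x hx hx'
        · have h1 := ((hSmem x).1 hx').2.1
          have h2 := hNp x hx
          omega
      hM := by
        intro x hx hx'
        rcases Finset.mem_insert.1 hx' with rfl | hx'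
        · exact hKMp hx
        · exact p.hM x hx hx'
      hW := by
        intro w hw hw'
        rcases Finset.mem_insert.1 hw with rfl | hw
        · rcases Finset.mem_union.1 hw' with hw' | hw'
          · exact lt_irrefl _ (lt_of_pair_left hWm hw')
          · obtain ⟨n, hn, heq⟩ := Finset.mem_image.1 hw'
            have := (Nat.pair_eq_pair.1 heq).2
            omega
        · rcases Finset.mem_union.1 hw with hw | hw
          · rcases Finset.mem_union.1 hw' with hw' | hw'
            · exact hF.a3 w hw hw'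
            · obtain ⟨n, hn, rfl⟩ := Finset.mem_image.1 hw'
              exact hF.a2 n hn _ (Or.inr (Or.inl rfl)) hw
          · rcases Finset.mem_union.1 hw' with hw' | hw'
            · exact q2.hW w hw (hpq2.Wm hw')
            · obtain ⟨n, hn, rfl⟩ := Finset.mem_image.1 hw'
              exact q2.hW _ hw (hqq2.Wm (hWmq n hn))
      hT := q2.hT
      h1 := by
        intro n hn m hm hw
        rcases Finset.mem_union.1 hn with hn | hn
        · rcases Finset.mem_insert.1 hw with hw | hw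
          · exact hKNm ((Nat.pair_eq_pair.1 hw).1 ▸ hn)
          · rcases Finset.mem_union.1 hw with hw | hw
            · rcases Finset.mem_insert.1 hm with hm | hm
              · exact hF.a2 n hn m (Or.inl hm) hw
              · exact hF.a2 n hn m (Or.inr (Or.inr hm)) hw
            · rcases Finset.mem_insert.1 hm with hm | hm
              · exact q2.h1 n (hpq2.Nm hn) m (hm ▸ hqq2.Mm hKq) hw
              · exact q2.h1 n (hpq2.Nm hn) m (hpq2.Mm hm) hw
        · obtain ⟨hn1, hn2, hn3⟩ := (hSmem n).1 hn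
          rcases Finset.mem_insert.1 hw with hw | hw
          · have := (Nat.pair_eq_pair.1 hw).1
            omega
          · rcases Finset.mem_union.1 hw with hw | hw
            · have := lt_of_pair_left hKF' hw
              omega
            · refine q2.hW _ hw (hn3 m ?_)
              rcases Finset.mem_insert.1 hm with rfl | hm
              · exact hKq
              · exact hpq.Mm hm
      h2 := by
        intro w hw
        rcases Finset.mem_union.1 hw with hw | hw
        · exact (p.h2 w hw).imp (fun h => Finset.mem_union_left _ h)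
            (fun h => Finset.mem_insert_of_mem h)
        · obtain ⟨n, hn, rfl⟩ := Finset.mem_image.1 hw
          rw [Nat.unpair_pair]
          exact Or.inl (Finset.mem_union_left _ hn) }
  have hpr : Ext p r :=
    { Ext.refl p with
      Nm := Finset.subset_union_left
      Mm := Finset.subset_insert _ _
      Wp := (hF1.trans Finset.subset_union_left).trans (Finset.subset_insert _ _)
      Wm := Finset.subset_union_left
      Tp := hpq2.Tp
      Tm := hpq2.Tm
      sg := hpq.sg.trans (List.prefix_append _ _)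
      lock := hpq2.lock }
  have hFr : F ⊆ r.Wp := Finset.subset_union_left.trans (Finset.subset_insert _ _)
  have hq2r : q2.Wp ⊆ r.Wp := Finset.subset_union_right.trans (Finset.subset_insert _ _)
  have hAF : Aof Y0 (F : Set ℕ) (Tp : Set ℕ) (Tm : Set ℕ) ⊆ Ap Y0 r :=
    aof_mono (Finset.coe_subset.2 hFr) (Finset.coe_subset.2 hq1q2.Tp)
      (Finset.coe_subset.2 hq1q2.Tm)
  have hA2 : Ap Y0 q2 ⊆ Ap Y0 r :=
    aof_mono (Finset.coe_subset.2 hq2r) (Set.Subset.refl _) (Set.Subset.refl _)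
  have hXq : Xp Y0 q ⊆ Xp Y0 r :=
    xof_mono (Finset.coe_subset.2 (hqq2.Wp.trans hq2r)) (Finset.coe_subset.2 hqq2.Tp)
      (Finset.coe_subset.2 hqq2.Tm) (gl_mono (List.prefix_append _ _))
  refine ⟨r, hpr, Or.inr (Or.inr (Or.inr ⟨K, K, K + 1, ⟨Finset.mem_insert_self _ _,
    Finset.mem_insert_self _ _⟩, ⟨D, hD, ?_⟩, q.sg.length, big, ?_, ?_, ?_⟩))⟩
  · intro y hy
    rcases hD' y hy with ⟨hy0, hyQ⟩ | ⟨hy0, hyX⟩
    · refine Or.inl ⟨hy0, ?_⟩
      obtain ⟨n, hn1, hn2, hn3, hn4⟩ := hL2 (y / 2) (List.mem_map.2 ⟨y, hy, rfl⟩)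
        (qp_mono hqq1 hyQ)
      exact ⟨n, Finset.mem_union_right _ ((hSmem n).2 ⟨hn2, hn1, hn4⟩), Ev.mono hA2 hn3⟩
    · exact Or.inr ⟨hy0, hXq hyX⟩
  · change (q.sg ++ [big])[q.sg.length]? = some big
    simp
  · intro e he
    exact lt_of_lt_of_le (hbT' e he) (le_max_right _ _)
  · intro l hlL
    rcases hl l hlL with halive | hdead
    · right
      obtain ⟨D1, hD1, hD1', hD1''⟩ := hb l hlL halive
      exact ⟨D1, hD1, fun y hy => hAF (hD1' y hy), lt_of_lt_of_le hD1'' (le_max_left _ _)⟩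
    · left
      intro r' hrr'
      refine hdead r'.Wp r'.Tp r'.Tm ?_ (hFr.trans hrr'.Wp) ?_ ?_
      · exact
          { a1 := (hF.a1.trans hFr).trans hrr'.Wp
            a2 := by
              intro n hn m hm hcon
              have hn' : n ∈ r'.Nm := hrr'.Nm (Finset.mem_union_left _ hn)
              rcases hm with rfl | rfl | hm
              · exact r'.h1 n hn' _ (hrr'.Mm (Finset.mem_insert_self _ _)) hcon
              · exact r'.hW _ hcon (hrr'.Wm (Finset.mem_union_right _
                  (Finset.mem_image.2 ⟨n, hn, rfl⟩)))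
              · exact r'.h1 n hn' m (hrr'.Mm (Finset.mem_insert_of_mem hm)) hcon
            a3 := fun w hw hw' => r'.hW w hw (hrr'.Wm (Finset.mem_union_left _ hw'))
            a4 := hqq2.Tp.trans hrr'.Tp
            a5 := hqq2.Tm.trans hrr'.Tm
            a6 := r'.hT
            a7 := by
              intro e he heq
              by_cases he2 : e ∈ q2.Tp
              · exact hqq2.lock e he2 heq
              · exact fun h => hrr'.lock e he he2 (hFr (hF.a1 h)) }
      · exact hq1q2.Tp.trans hrr'.Tp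
      · exact hq1q2.Tm.trans hrr'.Tm

end Pool.Agent.MP_bc2066_lc
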