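import Pool.Agent.Lib.MP_bc2066_lc.Refl

/-!
Joins, Kalimullin pairs over a base, Kalimullin's characterization.
-/

namespace Pool.Agent.MP_bc2066_lc

open Encodable Primrec

/-- the join `A ⊕ B` -/
def join (A B : Set ℕ) : Set ℕ := {n | (n % 2 = 0 ∧ n / 2 ∈ A) ∨ (n % 2 = 1 ∧ n / 2 ∈ B)}

theorem EP.mono {X Y : Set ℕ} {α : Type*} [Primcodable α] {p : α → Prop} (hp : EP X p)
    (h : EnumRed X Y) : EP Y p := hp.trans (enumRed_iff.1 h)

theorem join_le {A B X : Set ℕ} (h1 : EnumRed A X) (h2 : EnumRed B X) : EnumRed (join A B) X := by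
  refine enumRed_iff.2 ?_
  change EP X (fun n => (n % 2 = 0 ∧ n / 2 ∈ A) ∨ (n % 2 = 1 ∧ n / 2 ∈ B))
  refine EP.or (EP.and (EP.prim ?_) ((enumRed_iff.1 h1).comp ?_))
    (EP.and (EP.prim ?_) ((enumRed_iff.1 h2).comp ?_)) <;> fun_prop

theorem le_join_left (A B : Set ℕ) : EnumRed A (join A B) := by
  refine enumRed_iff.2 ((EP.mem (X := join A B) (f := fun n => 2 * n) ?_).of_eq (fun n => ?_))
  · fun_prop
  · simp only [join, Set.mem_ofPred_eq]
    constructor
    · rintro (⟨-, h⟩ | ⟨h, -⟩)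
      · rwa [Nat.mul_div_cancel_left _ (by norm_num)] at h
      · omega
    · intro h
      exact Or.inl ⟨by omega, by rwa [Nat.mul_div_cancel_left _ (by norm_num)]⟩

theorem le_join_right (A B : Set ℕ) : EnumRed B (join A B) := by
  refine enumRed_iff.2 ((EP.mem (X := join A B) (f := fun n => 2 * n + 1) ?_).of_eq (fun n => ?_))
  · fun_prop
  · simp only [join, Set.mem_ofPred_eq]
    have h2 : (2 * n + 1) / 2 = n := by omega
    rw [h2]
    constructor
    · rintro (⟨h, -⟩ | ⟨-, h⟩)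
      · omega
      · exact h
    · intro h
      exact Or.inr ⟨by omega, h⟩

/-! ### Enumeration of the operators -/

/-- the `e`-th enumeration operator, as a set of axioms -/
def Op (e : ℕ) (a : ℕ × List ℕ) : Prop :=
  (Nat.Partrec.Code.eval (Denumerable.ofNat Nat.Partrec.Code e) (encode a)).Dom

theorem op_re (e : ℕ) : REPred (Op e) := by
  have h1 : Partrec (fun a : ℕ × List ℕ =>
      Nat.Partrec.Code.eval (Denumerable.ofNat Nat.Partrec.Code e) (encode a)) := by
    have h2 := Nat.Partrec.Code.eval_part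
    exact h2.comp (Computable.const _) Computable.encode
  exact Partrec.dom_re h1

theorem exists_op {W : ℕ × List ℕ → Prop} (hW : REPred W) : ∃ e, ∀ a, W a ↔ Op e a := by
  have h1 : Partrec fun a => Part.assert (W a) fun _ => Part.some () := hW
  have h2 := Partrec.bind_decode₂_iff.1 h1
  obtain ⟨c, hc⟩ := Nat.Partrec.Code.exists_code.1 h2
  refine ⟨encode c, fun a => ?_⟩
  unfold Op
  rw [Denumerable.ofNat_encode, hc]
  simp [Part.assert]

/-- the value of the `e`-th operator on a set -/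
def Ev (e : ℕ) (S : Set ℕ) : Set ℕ := {x | ∃ D, Op e (x, D) ∧ ∀ y ∈ D, y ∈ S}

theorem enumRed_iff_ev {A B : Set ℕ} : EnumRed A B ↔ ∃ e, A = Ev e B := by
  constructor
  · rintro ⟨W, hW, h⟩
    obtain ⟨e, he⟩ := exists_op hW
    refine ⟨e, Set.ext fun x => ?_⟩
    rw [h x]
    exact exists_congr fun D => and_congr_left fun _ => he _
  · rintro ⟨e, rfl⟩
    exact ⟨Op e, op_re e, fun x => Iff.rfl⟩

theorem Ev.mono {e : ℕ} {S T : Set ℕ} (h : S ⊆ T) : Ev e S ⊆ Ev e T := by
  rintro x ⟨D, hD, hD'⟩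
  exact ⟨D, hD, fun y hy => h (hD' y hy)⟩

theorem EP.op {α : Type*} [Primcodable α] (X : Set ℕ) (e : ℕ) {f : α → ℕ} {g : α → List ℕ}
    (hf : Primrec f) (hg : Primrec g) : EP X (fun a => Op e (f a, g a)) :=
  (EP.re (op_re e)).comp (hf.pair hg)

theorem exists_seq {S : Type*} (s0 : S) (Rel : ℕ → S → S → Prop) (h : ∀ n s, ∃ s', Rel n s s') :
    ∃ f : ℕ → S, f 0 = s0 ∧ ∀ n, Rel n (f n) (f (n + 1)) := by
  choose g hg using h
  refine ⟨fun n => Nat.rec s0 (fun n s => g n s) n, rfl, fun n => hg n _⟩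

theorem exists_bound (L : List ℕ) : ∃ K, ∀ g ∈ L, g < K := by
  induction L with
  | nil => exact ⟨0, by simp⟩
  | cons a L ih =>
    obtain ⟨K, hK⟩ := ih
    refine ⟨max K (a + 1), fun g hg => ?_⟩
    rcases List.mem_cons.1 hg with rfl | hg
    · omega
    · have := hK g hg
      omega

/-- `B`, `C` form a Kalimullin pair over `X` (degree form, stated on sets) -/
def KPs (X B C : Set ℕ) : Prop :=
  ∀ Y Z, EnumRed X Y → EnumRed Z (join B Y) → EnumRed Z (join C Y) → EnumRed Z Y

/-- the pair `B`, `C` has the witness `W` -/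
def Wit (W : ℕ → ℕ → Prop) (B C : Set ℕ) : Prop :=
  (∀ b ∈ B, ∀ c ∈ C, W b c) ∧ (∀ b, b ∉ B → ∀ c, c ∉ C → ¬ W b c)

theorem kps_of_wit {X B C : Set ℕ} {W : ℕ → ℕ → Prop} (hW : EP X (fun p : ℕ × ℕ => W p.1 p.2))
    (h : Wit W B C) : KPs X B C := by
  intro Y Z hXY hB hC
  have hWY := hW.mono hXY
  obtain ⟨R, hR, kR⟩ := enumRed_iff.1 hB
  obtain ⟨S, hS, kS⟩ := enumRed_iff.1 hC
  have key : EP Y (fun z : ℕ => ∃ c : ℕ × List ℕ, ∃ d : ℕ × List ℕ, (R z c ∧ S z d) ∧
      (∀ y ∈ c.2, (y % 2 = 0 ∨ y / 2 ∈ Y)) ∧ (∀ y ∈ d.2, (y % 2 = 0 ∨ y / 2 ∈ Y)) ∧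
      ∀ y ∈ c.2, ∀ y' ∈ d.2, ((y % 2 = 1 ∨ y' % 2 = 1) ∨ W (y / 2) (y' / 2))) := by
    refine EP.ex (EP.ex (EP.and (EP.and (EP.prim ?_) (EP.prim ?_)) (EP.and
      (EP.ballList ?_ (EP.or (EP.prim ?_) (EP.mem ?_)))
      (EP.and (EP.ballList ?_ (EP.or (EP.prim ?_) (EP.mem ?_)))
        (EP.ballList ?_ (EP.ballList ?_ (EP.or (EP.prim ?_) (hWY.comp₂ ?_ ?_))))))))
    · exact hR.comp (Primrec.fst.comp Primrec.fst) (Primrec.snd.comp Primrec.fst)
    · exact hS.comp (Primrec.fst.comp Primrec.fst) Primrec.snd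
    all_goals fun_prop
  refine enumRed_iff.2 (key.of_eq (fun z => ?_))
  constructor
  · rintro ⟨c, d, ⟨hc, hd⟩, h1, h2, h3⟩
    by_cases hE : ∀ y ∈ c.2, y % 2 = 0 → y / 2 ∈ B
    · refine (kR z).2 ⟨c, hc, fun y hy => ?_⟩
      rcases Nat.mod_two_eq_zero_or_one y with h0 | h0
      · exact Or.inl ⟨h0, hE y hy h0⟩
      · rcases h1 y hy with h' | h'
        · omega
        · exact Or.inr ⟨h0, h'⟩
    · push Not at hE
      obtain ⟨y, hy, hy0, hyB⟩ := hE
      refine (kS z).2 ⟨d, hd, fun y' hy' => ?_⟩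
      rcases Nat.mod_two_eq_zero_or_one y' with h0 | h0
      · refine Or.inl ⟨h0, ?_⟩
        by_contra hcon
        rcases h3 y hy y' hy' with h' | h'
        · omega
        · exact h.2 _ hyB _ hcon h'
      · rcases h2 y' hy' with h' | h'
        · omega
        · exact Or.inr ⟨h0, h'⟩
  · intro hz
    obtain ⟨c, hc, hc'⟩ := (kR z).1 hz
    obtain ⟨d, hd, hd'⟩ := (kS z).1 hz
    refine ⟨c, d, ⟨hc, hd⟩, ?_, ?_, ?_⟩
    · intro y hy
      rcases hc' y hy with h' | h'
      · exact Or.inl h'.1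
      · exact Or.inr h'.2
    · intro y hy
      rcases hd' y hy with h' | h'
      · exact Or.inl h'.1
      · exact Or.inr h'.2
    · intro y hy y' hy'
      rcases hc' y hy with h1 | h1
      · rcases hd' y' hy' with h2 | h2
        · exact Or.inr (h.1 _ h1.2 _ h2.2)
        · exact Or.inl (Or.inr h2.1)
      · exact Or.inl (Or.inl h1.1)

section Kalimullin

variable (X B C : Set ℕ)

/-- `z` is put into `Z` by `G` on the `B`-side -/
def inB (G : Set ℕ) (z : ℕ) : Prop := ∃ b c, Nat.pair z (Nat.pair b c) ∈ G ∧ b ∈ B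

/-- `z` is put into `Z` by `G` on the `C`-side -/
def inC (G : Set ℕ) (z : ℕ) : Prop := ∃ b c, Nat.pair z (Nat.pair b c) ∈ G ∧ c ∈ C

/-- invariant of the finite conditions -/
def KInv (p : List ℕ × ℕ) : Prop :=
  (∀ g ∈ p.1, (Nat.unpair g).1 < p.2) ∧ ∀ z, inB B {g | g ∈ p.1} z ↔ inC C {g | g ∈ p.1} z

/-- one step of the construction -/
def KRel (e : ℕ) (p p' : List ℕ × ℕ) : Prop :=
  (∀ g ∈ p.1, g ∈ p'.1) ∧ p.2 < p'.2 ∧ (∀ g ∈ p'.1, (Nat.unpair g).1 < p.2 → g ∈ p.1) ∧
    ∀ G : Set ℕ, (∀ g ∈ p'.1, g ∈ G) → (∀ g ∈ G, (Nat.unpair g).1 < p'.2 → g ∈ p'.1) →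
      (inB B G p.2 ↔ ¬ p.2 ∈ Ev e (join X G))

/-- the set of pairs `(b, c)` whose addition at `k` permits a computation of `k` -/
def KW (e k : ℕ) (G0 : List ℕ) (b c : ℕ) : Prop :=
  ∃ D : List ℕ, Op e (k, D) ∧ ∀ y ∈ D, (y % 2 = 0 ∧ y / 2 ∈ X) ∨
      (y % 2 = 1 ∧ (k < (Nat.unpair (y / 2)).1 ∨ y / 2 ∈ G0 ∨ y / 2 = Nat.pair k (Nat.pair b c)))

variable {X B C}

theorem ep_KW (e k : ℕ) (G0 : List ℕ) : EP X (fun p : ℕ × ℕ => KW X e k G0 p.1 p.2) := by
  unfold KW
  refine EP.ex ?_
  refine EP.and (EP.op X e ?_ ?_) ?_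
  · fun_prop
  · fun_prop
  refine EP.ballList ?_ ?_
  · fun_prop
  refine EP.or (EP.and (EP.prim ?_) (EP.mem ?_)) (EP.prim ?_)
  · fun_prop
  · fun_prop
  · fun_prop

theorem exists_step (hno : ∀ W : ℕ → ℕ → Prop, EP X (fun p : ℕ × ℕ => W p.1 p.2) → ¬ Wit W B C)
    {b₀ c₀ : ℕ} (hb₀ : b₀ ∈ B) (hc₀ : c₀ ∈ C) (e : ℕ) (p : List ℕ × ℕ) (hp : KInv B C p) :
    ∃ p', KInv B C p' ∧ KRel X B e p p' := by
  obtain ⟨G0, k⟩ := p
  obtain ⟨hp1, hp2⟩ := hp
  dsimp only at hp1 hp2
  set W : ℕ → ℕ → Prop := KW X e k G0 with hWdef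
  have hW : EP X (fun p : ℕ × ℕ => W p.1 p.2) := ep_KW e k G0
  have hnw := hno W hW
  have hfst : ∀ b c, (Nat.unpair (Nat.pair k (Nat.pair b c))).1 = k := fun b c => by
    rw [Nat.unpair_pair]
  have hk : ∀ b c, Nat.pair k (Nat.pair b c) ∉ G0 := by
    intro b c hg
    have := hp1 _ hg
    rw [hfst] at this
    exact lt_irrefl _ this
  have hsplit : (∃ b ∈ B, ∃ c ∈ C, ¬ W b c) ∨ (∃ b, b ∉ B ∧ ∃ c, c ∉ C ∧ W b c) := by
    by_contra hcon
    push Not at hcon
    exact hnw ⟨hcon.1, hcon.2⟩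
  rcases hsplit with ⟨b, hb, c, hc, hWbc⟩ | ⟨b, hb, c, hc, D, hD, hD'⟩
  · refine ⟨(G0 ++ [Nat.pair k (Nat.pair b c)], k + 1), ⟨?_, ?_⟩, ?_, ?_, ?_, ?_⟩
    · intro g hg
      rcases List.mem_append.1 hg with hg | hg
      · exact Nat.lt_succ_of_lt (hp1 g hg)
      · rw [List.mem_singleton.1 hg, hfst]
        exact Nat.lt_succ_self k
    · intro z
      by_cases hz : z = k
      · subst hz
        constructor
        · intro _
          exact ⟨b, c, by simp, hc⟩
        · intro _
          exact ⟨b, c, by simp, hb⟩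
      · have hne : ∀ b' c', Nat.pair z (Nat.pair b' c') ≠ Nat.pair k (Nat.pair b c) := by
          intro b' c' heq
          exact hz (Nat.pair_eq_pair.1 heq).1
        have h1 := hp2 z
        constructor
        · rintro ⟨b', c', hg, hb'⟩
          rcases List.mem_append.1 hg with hg | hg
          · obtain ⟨b'', c'', hg', hc'⟩ := h1.1 ⟨b', c', hg, hb'⟩
            exact ⟨b'', c'', List.mem_append_left _ hg', hc'⟩
          · exact (hne _ _ (List.mem_singleton.1 hg)).elim
        · rintro ⟨b', c', hg, hb'⟩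
          rcases List.mem_append.1 hg with hg | hg
          · obtain ⟨b'', c'', hg', hc'⟩ := h1.2 ⟨b', c', hg, hb'⟩
            exact ⟨b'', c'', List.mem_append_left _ hg', hc'⟩
          · exact (hne _ _ (List.mem_singleton.1 hg)).elim
    · intro g hg
      exact List.mem_append_left _ hg
    · exact Nat.lt_succ_self k
    · intro g hg hlt
      rcases List.mem_append.1 hg with hg | hg
      · exact hg
      · rw [List.mem_singleton.1 hg, hfst] at hlt
        exact (lt_irrefl _ hlt).elim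
    · intro G hG1 hG2
      dsimp only at hG1 hG2 ⊢
      refine iff_of_true ⟨b, c, hG1 _ (by simp), hb⟩ ?_
      rintro ⟨D, hD, hD'⟩
      apply hWbc
      refine ⟨D, hD, fun y hy => ?_⟩
      rcases hD' y hy with h' | h'
      · exact Or.inl h'
      · refine Or.inr ⟨h'.1, ?_⟩
        by_cases hlt : k < (Nat.unpair (y / 2)).1
        · exact Or.inl hlt
        · right
          have h3 := hG2 _ h'.2 (by omega)
          rcases List.mem_append.1 h3 with h4 | h4
          · exact Or.inl h4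
          · exact Or.inr (List.mem_singleton.1 h4)
  · -- positive diagonalization
    set N : List ℕ := (D.filter (fun y => decide (y % 2 = 1 ∧ k < (Nat.unpair (y / 2)).1))).map
      (fun y => y / 2) with hN
    set M : List ℕ := N.map (fun g => Nat.pair (Nat.unpair g).1 (Nat.pair b₀ c₀)) with hM
    have hNk : ∀ g ∈ N, k < (Nat.unpair g).1 := by
      intro g hg
      rw [hN] at hg
      obtain ⟨y, hy, rfl⟩ := List.mem_map.1 hg
      have := (List.mem_filter.1 hy).2
      exact (of_decide_eq_true this).2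
    have hMk : ∀ g ∈ M, ∃ g' ∈ N, g = Nat.pair (Nat.unpair g').1 (Nat.pair b₀ c₀) := by
      intro g hg
      obtain ⟨g', hg', rfl⟩ := List.mem_map.1 hg
      exact ⟨g', hg', rfl⟩
    obtain ⟨K, hK⟩ := exists_bound (N ++ M)
    set G1 : List ℕ := G0 ++ ([Nat.pair k (Nat.pair b c)] ++ (N ++ M)) with hG1def
    have hmem : ∀ g, g ∈ G1 → g ∈ G0 ∨ g = Nat.pair k (Nat.pair b c) ∨ g ∈ N ∨ g ∈ M := by
      intro g hg
      rw [hG1def] at hg
      simp only [List.mem_append, List.mem_singleton] at hg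
      tauto
    have hgt : ∀ g, g ∈ N ∨ g ∈ M → k < (Nat.unpair g).1 := by
      rintro g (hg | hg)
      · exact hNk g hg
      · obtain ⟨g', hg', rfl⟩ := hMk g hg
        rw [Nat.unpair_pair]
        exact hNk g' hg'
    refine ⟨(G1, max K (k + 1)), ⟨?_, ?_⟩, ?_, ?_, ?_, ?_⟩
    · intro g hg
      dsimp only at hg ⊢
      rcases hmem g hg with h' | h' | h' | h'
      · have := hp1 g h'
        omega
      · rw [h', hfst]
        omega
      · have h1 := hK g (List.mem_append_left _ h')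
        have h2 := Nat.unpair_left_le g
        omega
      · have h1 := hK g (List.mem_append_right _ h')
        have h2 := Nat.unpair_left_le g
        omega
    · intro z
      rcases lt_trichotomy z k with hz | hz | hz
      · have hold : ∀ b' c', Nat.pair z (Nat.pair b' c') ∈ G1 → Nat.pair z (Nat.pair b' c') ∈ G0 := by
          intro b' c' hg
          rcases hmem _ hg with h' | h' | h'
          · exact h'
          · have := (Nat.pair_eq_pair.1 h').1
            omega
          · have := hgt _ h'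
            rw [Nat.unpair_pair] at this
            dsimp only at this
            omega
        have h1 := hp2 z
        constructor
        · rintro ⟨b', c', hg, hb'⟩
          obtain ⟨b'', c'', hg', hc'⟩ := h1.1 ⟨b', c', hold _ _ hg, hb'⟩
          exact ⟨b'', c'', List.mem_append_left _ hg', hc'⟩
        · rintro ⟨b', c', hg, hb'⟩
          obtain ⟨b'', c'', hg', hc'⟩ := h1.2 ⟨b', c', hold _ _ hg, hb'⟩
          exact ⟨b'', c'', List.mem_append_left _ hg', hc'⟩
      · subst hz
        have honly : ∀ b' c', Nat.pair z (Nat.pair b' c') ∈ G1 → b' = b ∧ c' = c := by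
          intro b' c' hg
          rcases hmem _ hg with h' | h' | h'
          · exact (hk _ _ h').elim
          · have := (Nat.pair_eq_pair.1 h').2
            exact Nat.pair_eq_pair.1 this
          · have := hgt _ h'
            rw [Nat.unpair_pair] at this
            dsimp only at this
            omega
        constructor
        · rintro ⟨b', c', hg, hb'⟩
          exact (hb ((honly b' c' hg).1 ▸ hb')).elim
        · rintro ⟨b', c', hg, hb'⟩
          exact (hc ((honly b' c' hg).2 ▸ hb')).elim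
      · have hnew : ∀ b' c', Nat.pair z (Nat.pair b' c') ∈ G1 →
            Nat.pair z (Nat.pair b₀ c₀) ∈ G1 := by
          intro b' c' hg
          rcases hmem _ hg with h' | h' | h' | h'
          · have := hp1 _ h'
            rw [Nat.unpair_pair] at this
            dsimp only at this
            omega
          · have := (Nat.pair_eq_pair.1 h').1
            omega
          · have h3 : Nat.pair z (Nat.pair b₀ c₀) ∈ M := by
              rw [hM]
              refine List.mem_map.2 ⟨_, h', ?_⟩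
              rw [Nat.unpair_pair]
            rw [hG1def]
            simp only [List.mem_append]
            tauto
          · obtain ⟨g', hg', heq⟩ := hMk _ h'
            have h4 := (Nat.pair_eq_pair.1 heq).1
            have h3 : Nat.pair z (Nat.pair b₀ c₀) ∈ M := by
              rw [hM]
              refine List.mem_map.2 ⟨_, hg', ?_⟩
              rw [← h4]
            rw [hG1def]
            simp only [List.mem_append]
            tauto
        constructor
        · rintro ⟨b', c', hg, hb'⟩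
          exact ⟨b₀, c₀, hnew _ _ hg, hc₀⟩
        · rintro ⟨b', c', hg, hb'⟩
          exact ⟨b₀, c₀, hnew _ _ hg, hb₀⟩
    · intro g hg
      exact List.mem_append_left _ hg
    · dsimp only
      omega
    · intro g hg hlt
      dsimp only at hg hlt
      rcases hmem g hg with h' | h' | h'
      · exact h'
      · rw [h', hfst] at hlt
        omega
      · have := hgt _ h'
        omega
    · intro G hG1 hG2
      dsimp only at hG1 hG2 ⊢
      refine iff_of_false ?_ (fun hcon => hcon ?_)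
      · rintro ⟨b', c', hg, hb'⟩
        have h1 := hG2 _ hg (by rw [Nat.unpair_pair]; dsimp only; omega)
        rcases hmem _ h1 with h' | h' | h'
        · exact hk _ _ h'
        · have := (Nat.pair_eq_pair.1 h').2
          exact hb ((Nat.pair_eq_pair.1 this).1 ▸ hb')
        · have := hgt _ h'
          rw [Nat.unpair_pair] at this
          dsimp only at this
          omega
      · refine ⟨D, hD, fun y hy => ?_⟩
        rcases hD' y hy with h' | ⟨h1, h' | h' | h'⟩
        · exact Or.inl h'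
        · refine Or.inr ⟨h1, hG1 _ ?_⟩
          have : y / 2 ∈ N := by
            rw [hN]
            exact List.mem_map.2 ⟨y, List.mem_filter.2 ⟨hy, decide_eq_true ⟨h1, h'⟩⟩, rfl⟩
          rw [hG1def]
          simp only [List.mem_append]
          tauto
        · exact Or.inr ⟨h1, hG1 _ (List.mem_append_left _ h')⟩
        · refine Or.inr ⟨h1, hG1 _ ?_⟩
          rw [h', hG1def]
          simp

theorem exists_wit_of_kps (h : KPs X B C) :
    ∃ W : ℕ → ℕ → Prop, EP X (fun p : ℕ × ℕ => W p.1 p.2) ∧ Wit W B C := by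
  by_contra hcon
  push Not at hcon
  have hF : EP X (fun _ : ℕ × ℕ => False) := by
    refine (EP.prim (p := fun _ : ℕ × ℕ => (0 : ℕ) = 1) ?_).of_eq (fun _ => by simp)
    fun_prop
  have hB : ∃ b₀, b₀ ∈ B := by
    by_contra hB
    push Not at hB
    exact hcon (fun _ _ => False) hF ⟨fun b hb => (hB b hb).elim, fun _ _ _ _ h' => h'⟩
  have hC : ∃ c₀, c₀ ∈ C := by
    by_contra hC
    push Not at hC
    exact hcon (fun _ _ => False) hF ⟨fun b hb c hc => (hC c hc).elim, fun _ _ _ _ h' => h'⟩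
  obtain ⟨b₀, hb₀⟩ := hB
  obtain ⟨c₀, hc₀⟩ := hC
  have h0 : KInv B C ([], 0) := by
    refine ⟨by simp, fun z => ?_⟩
    constructor
    · rintro ⟨_, _, h', _⟩
      simp at h'
    · rintro ⟨_, _, h', _⟩
      simp at h'
  obtain ⟨f, -, hf⟩ := exists_seq (S := {p : List ℕ × ℕ // KInv B C p}) ⟨([], 0), h0⟩
    (fun e p p' => KRel X B e p.1 p'.1) (fun e p => by
      obtain ⟨p', h1, h2⟩ := exists_step hcon hb₀ hc₀ e p.1 p.2
      exact ⟨⟨p', h1⟩, h2⟩)
  set G : Set ℕ := {g | ∃ n, g ∈ (f n).1.1} with hG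
  have hmono : ∀ n m, n ≤ m → ∀ g ∈ (f n).1.1, g ∈ (f m).1.1 := by
    intro n m hnm
    induction m, hnm using Nat.le_induction with
    | base => exact fun g hg => hg
    | succ m _ ih => exact fun g hg => (hf m).1 g (ih g hg)
  have hkmono : ∀ n m, n ≤ m → (f n).1.2 + (m - n) ≤ (f m).1.2 := by
    intro n m hnm
    induction m, hnm using Nat.le_induction with
    | base => simp
    | succ m _ ih =>
      have := (hf m).2.1
      omega
  have hback : ∀ n m, n ≤ m → ∀ g ∈ (f m).1.1, (Nat.unpair g).1 < (f n).1.2 → g ∈ (f n).1.1 := by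
    intro n m hnm
    induction m, hnm using Nat.le_induction with
    | base => exact fun g hg _ => hg
    | succ m hnm ih =>
      intro g hg hlt
      have h1 := hkmono n m hnm
      exact ih g ((hf m).2.2.1 g hg (by omega)) hlt
  have hGn : ∀ n, ∀ g ∈ G, (Nat.unpair g).1 < (f n).1.2 → g ∈ (f n).1.1 := by
    rintro n g ⟨m, hm⟩ hlt
    rcases le_total n m with hnm | hnm
    · exact hback n m hnm g hm hlt
    · exact hmono m n hnm g hm
  have hlegit : ∀ z, inB B G z ↔ inC C G z := by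
    intro z
    have h1 : z < (f (z + 1)).1.2 := by
      have := hkmono 0 (z + 1) (by omega)
      omega
    have h2 : ∀ b c, Nat.pair z (Nat.pair b c) ∈ G ↔ Nat.pair z (Nat.pair b c) ∈ (f (z + 1)).1.1 := by
      intro b c
      constructor
      · intro h'
        exact hGn _ _ h' (by rw [Nat.unpair_pair]; exact h1)
      · intro h'
        exact ⟨_, h'⟩
    have h3 := (f (z + 1)).2.2 z
    simp only [inB, inC, Set.mem_ofPred_eq] at h3 ⊢
    simp only [h2]
    exact h3
  have hZB : EnumRed {z | inB B G z} (join B (join X G)) := by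
    have hBle := le_join_left B (join X G)
    have hGle : EnumRed G (join B (join X G)) := (le_join_right X G).trans (le_join_right B _)
    refine enumRed_iff.2 ?_
    change EP _ (fun z : ℕ => ∃ b c, Nat.pair z (Nat.pair b c) ∈ G ∧ b ∈ B)
    refine EP.ex (EP.ex (EP.and ((enumRed_iff.1 hGle).comp (f := fun x : (ℕ × ℕ) × ℕ =>
      Nat.pair x.1.1 (Nat.pair x.1.2 x.2)) ?_) ((enumRed_iff.1 hBle).comp ?_))) <;> fun_prop
  have hZC : EnumRed {z | inB B G z} (join C (join X G)) := by
    have hCle := le_join_left C (join X G)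
    have hGle : EnumRed G (join C (join X G)) := (le_join_right X G).trans (le_join_right C _)
    refine enumRed_iff.2 (EP.of_eq (p := fun z : ℕ => ∃ b c, Nat.pair z (Nat.pair b c) ∈ G ∧ c ∈ C)
      ?_ (fun z => (hlegit z).symm))
    refine EP.ex (EP.ex (EP.and ((enumRed_iff.1 hGle).comp (f := fun x : (ℕ × ℕ) × ℕ =>
      Nat.pair x.1.1 (Nat.pair x.1.2 x.2)) ?_) ((enumRed_iff.1 hCle).comp ?_))) <;> fun_prop
  obtain ⟨e, he⟩ := enumRed_iff_ev.1 (h _ _ (le_join_left X G) hZB hZC)
  have h1 := (hf e).2.2.2 G (fun g hg => ⟨_, hg⟩) (hGn (e + 1))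
  have h2 : (f e).1.2 ∈ Ev e (join X G) ↔ inB B G (f e).1.2 := by
    rw [← he]
    exact Iff.rfl
  tauto

end Kalimullin

/-- Z-split lemma -/
theorem le_of_split {X P Q D : Set ℕ} {Z : Set ℕ} {W : ℕ → ℕ → Prop}
    (hZ : EnumRed Z X) (hPQ : ∀ z, z ∈ Z ↔ z ∈ P ∨ z ∈ Q) (hdisj : ∀ z ∈ P, z ∉ Q)
    (hP : ¬ EnumRed P X) (hW : EP X (fun p : ℕ × ℕ => W p.1 p.2)) (h : Wit W P D) :
    EnumRed D (join Q X) := by
  have hX : EnumRed X (join Q X) := le_join_right Q X
  have key : EP (join Q X) (fun d : ℕ => ∃ z : ℕ, z ∈ Q ∧ W z d) := by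
    refine EP.ex (EP.and ((enumRed_iff.1 (le_join_left Q X)).comp ?_) ((hW.mono hX).comp₂ ?_ ?_))
      <;> fun_prop
  refine enumRed_iff.2 (key.of_eq (fun d => ?_))
  constructor
  · rintro ⟨z, hz, hW'⟩
    by_contra hd
    refine h.2 z (fun hzP => hdisj z hzP hz) d hd hW'
  · intro hd
    by_contra hcon
    push Not at hcon
    apply hP
    refine enumRed_iff.2 ((EP.and ((enumRed_iff.1 hZ).comp (f := fun z : ℕ => z) ?_)
      (hW.comp₂ (f := fun z : ℕ => z) (g := fun _ : ℕ => d) ?_ ?_)).of_eq (fun z => ?_))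
    · fun_prop
    · fun_prop
    · fun_prop
    constructor
    · rintro ⟨hz, hW'⟩
      rcases (hPQ z).1 hz with h' | h'
      · exact h'
      · exact (hcon z h' hW').elim
    · intro hz
      exact ⟨(hPQ z).2 (Or.inl hz), h.1 z hz d hd⟩

end Pool.Agent.MP_bc2066_lc
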