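import Pool.Agent.Lib.MP_bc2066_lc.Dec

/-!
Finite linear orders as lists, bit coded finite sets, and insertion at a cut.
-/

namespace Pool.Agent.MP_bc2066_lc

open Encodable Primrec

/-- `u` occurs before `v` in the list `K` -/
def Bef (K : List ℕ) (u v : ℕ) : Prop := (u ∈ K ∧ v ∈ K) ∧ K.idxOf u < K.idxOf v

theorem prp_bef {α : Type*} [Primcodable α] {K : α → List ℕ} {u v : α → ℕ} (hK : Primrec K)
    (hu : Primrec u) (hv : Primrec v) : PrimrecPred (fun a => Bef (K a) (u a) (v a)) := by
  unfold Bef
  refine PrimrecPred.and (by fun_prop) (prp_lt ?_ ?_)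
  · exact Primrec.list_idxOf.comp hu hK
  · exact Primrec.list_idxOf.comp hv hK

theorem bef_iff_sublist {K : List ℕ} (hK : K.Nodup) {u v : ℕ} :
    Bef K u v ↔ [u, v].Sublist K := by
  induction K with
  | nil => simp [Bef]
  | cons a K ih =>
    have hK' := (List.nodup_cons.1 hK).2
    have ha := (List.nodup_cons.1 hK).1
    have ih := ih hK'
    by_cases hu : u = a
    · subst hu
      rw [List.cons_sublist_cons, List.singleton_sublist]
      unfold Bef
      constructor
      · rintro ⟨⟨-, h2⟩, h3⟩
        rcases List.mem_cons.1 h2 with h2 | h2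
        · subst h2
          exact (lt_irrefl _ h3).elim
        · exact h2
      · intro hv
        have hne : v ≠ u := fun h => ha (h ▸ hv)
        refine ⟨⟨List.mem_cons_self, List.mem_cons_of_mem _ hv⟩, ?_⟩
        rw [List.idxOf_cons_self, List.idxOf_cons_ne _ (Ne.symm hne)]
        omega
    · rw [List.sublist_cons_iff]
      have h1 : (∃ r, [u, v] = a :: r ∧ r.Sublist K) ↔ False := by
        constructor
        · rintro ⟨r, hr, -⟩
          exact hu (List.cons.inj hr).1
        · exact False.elim
      rw [h1, or_false, ← ih]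
      unfold Bef
      by_cases hv : v = a
      · subst hv
        constructor
        · rintro ⟨-, h3⟩
          rw [List.idxOf_cons_self] at h3
          omega
        · rintro ⟨⟨-, h2⟩, -⟩
          exact (ha h2).elim
      · rw [List.idxOf_cons_ne _ (Ne.symm hu), List.idxOf_cons_ne _ (Ne.symm hv)]
        simp only [List.mem_cons, hu, hv, false_or, Nat.succ_lt_succ_iff]

theorem Bef.trans {K : List ℕ} {u v w : ℕ} (h1 : Bef K u v) (h2 : Bef K v w) : Bef K u w :=
  ⟨⟨h1.1.1, h2.1.2⟩, h1.2.trans h2.2⟩

theorem Bef.asymm {K : List ℕ} {u v : ℕ} (h1 : Bef K u v) (h2 : Bef K v u) : False :=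
  absurd h1.2 (by have := h2.2; omega)

theorem bef_total {K : List ℕ} {u v : ℕ} (hu : u ∈ K) (hv : v ∈ K) (h : u ≠ v) :
    Bef K u v ∨ Bef K v u := by
  rcases lt_trichotomy (K.idxOf u) (K.idxOf v) with h1 | h1 | h1
  · exact Or.inl ⟨⟨hu, hv⟩, h1⟩
  · exact (h ((List.idxOf_inj hu).1 h1)).elim
  · exact Or.inr ⟨⟨hv, hu⟩, h1⟩

/-- bit `x` of `U` -/
def bt (U x : ℕ) : Prop := (U / 2 ^ x) % 2 = 1

instance (U : ℕ) : DecidablePred (bt U) := fun x => by unfold bt; infer_instance

theorem prp_bt {α : Type*} [Primcodable α] {U x : α → ℕ} (hU : Primrec U) (hx : Primrec x) :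
    PrimrecPred (fun a => bt (U a) (x a)) := by
  have hpow : Primrec₂ (fun a b : ℕ => a ^ b) := Primrec₂.unpaired'.1 Nat.Primrec.pow
  have h1 : Primrec (fun a => 2 ^ (x a)) := hpow.comp (Primrec.const 2) hx
  unfold bt
  fun_prop

theorem exists_bits (P : ℕ → Prop) (n : ℕ) : ∃ U < 2 ^ n, ∀ x < n, bt U x ↔ P x := by
  classical
  refine ⟨Nat.ofBits (n := n) (fun i => decide (P i)), Nat.ofBits_lt_two_pow _, fun x hx => ?_⟩
  have h1 := Nat.testBit_ofBits_lt (n := n) (fun i => decide (P i)) x hx
  unfold bt
  rw [Nat.testBit_eq_decide_div_mod_eq] at h1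
  constructor
  · intro h
    rw [h] at h1
    simpa using h1.symm
  · intro h
    simpa [h] using h1

/-- insert `r` into `K` to the left of the elements of `U` -/
def ins (K : List ℕ) (r U : ℕ) : List ℕ :=
  K.filter (fun x => decide (¬ bt U x)) ++ r :: K.filter (fun x => decide (bt U x))

theorem pr_ins {α : Type*} [Primcodable α] {K : α → List ℕ} {r U : α → ℕ} (hK : Primrec K)
    (hr : Primrec r) (hU : Primrec U) : Primrec (fun a => ins (K a) (r a) (U a)) := by
  have hbt : PrimrecRel (fun x U : ℕ => bt U x) := prp_bt Primrec.snd Primrec.fst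
  have h1 : Primrec (fun a => (K a).filter (fun x => decide (bt (U a) x))) :=
    (PrimrecRel.listFilter hbt).comp hK hU
  have h2 : Primrec (fun a => (K a).filter (fun x => decide (¬ bt (U a) x))) :=
    (PrimrecRel.listFilter (R := fun x U : ℕ => ¬ bt U x) hbt.not).comp hK hU
  unfold ins
  fun_prop

theorem mem_ins {K : List ℕ} {r U x : ℕ} : x ∈ ins K r U ↔ x = r ∨ x ∈ K := by
  unfold ins
  simp only [List.mem_append, List.mem_filter, List.mem_cons, decide_eq_true_eq]
  tauto

theorem nodup_ins {K : List ℕ} {r U : ℕ} (hK : K.Nodup) (hr : r ∉ K) : (ins K r U).Nodup := by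
  unfold ins
  rw [List.nodup_append]
  refine ⟨hK.filter _, ?_, ?_⟩
  · rw [List.nodup_cons]
    exact ⟨fun h => hr (List.mem_filter.1 h).1, hK.filter _⟩
  · intro a ha b hb hab
    subst hab
    rw [List.mem_filter] at ha
    rcases List.mem_cons.1 hb with hb | hb
    · subst hb
      exact hr ha.1
    · rw [List.mem_filter] at hb
      exact (of_decide_eq_true ha.2) (of_decide_eq_true hb.2)

theorem bef_ins {K : List ℕ} {r U : ℕ} (hK : K.Nodup) (hr : r ∉ K)
    (hU : ∀ u v, bt U u → Bef K u v → bt U v) {u v : ℕ} :
    Bef (ins K r U) u v ↔ Bef K u v ∨ ((u ∈ K ∧ ¬ bt U u) ∧ v = r) ∨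
      (u = r ∧ v ∈ K ∧ bt U v) := by
  rw [bef_iff_sublist (nodup_ins hK hr)]
  constructor
  · intro h
    unfold ins at h
    rw [List.sublist_append_iff] at h
    obtain ⟨l1, l2, heq, h1, h2⟩ := h
    match l1, heq with
    | [], heq =>
      rw [List.nil_append] at heq
      subst heq
      rw [List.sublist_cons_iff] at h2
      rcases h2 with h2 | ⟨l, hl, h3⟩
      · exact Or.inl ((bef_iff_sublist hK).2 (h2.trans List.filter_sublist))
      · obtain ⟨rfl, rfl⟩ := List.cons.inj hl
        have h4 := List.singleton_sublist.1 h3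
        rw [List.mem_filter] at h4
        exact Or.inr (Or.inr ⟨rfl, h4.1, of_decide_eq_true h4.2⟩)
    | [a], heq =>
      have h3 := List.cons.inj heq
      obtain ⟨rfl, h3⟩ := h3
      replace h3 : [v] = l2 := h3
      subst h3
      have h4 := List.singleton_sublist.1 h1
      have h5 := List.singleton_sublist.1 h2
      rw [List.mem_filter] at h4
      have h6 := of_decide_eq_true h4.2
      rcases List.mem_cons.1 h5 with h5 | h5
      · exact Or.inr (Or.inl ⟨⟨h4.1, h6⟩, h5⟩)
      · rw [List.mem_filter] at h5
        have h7 := of_decide_eq_true h5.2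
        have hne : u ≠ v := fun h => h6 (h ▸ h7)
        rcases bef_total h4.1 h5.1 hne with h8 | h8
        · exact Or.inl h8
        · exact (h6 (hU _ _ h7 h8)).elim
    | a :: b :: l, heq =>
      have h3 := List.cons.inj heq
      obtain ⟨rfl, h3⟩ := h3
      have h4 := List.cons.inj h3
      obtain ⟨rfl, h4⟩ := h4
      have h5 : [u, v].Sublist (u :: v :: l) := by
        refine List.Sublist.cons_cons _ (List.Sublist.cons_cons _ (List.nil_sublist _))
      exact Or.inl ((bef_iff_sublist hK).2 ((h5.trans h1).trans List.filter_sublist))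
  · rintro (h | ⟨⟨h1, h2⟩, rfl⟩ | ⟨rfl, h1, h2⟩)
    · have hs := (bef_iff_sublist hK).1 h
      by_cases hu : bt U u
      · have hv := hU _ _ hu h
        have h3 : ([u, v].filter (fun x => decide (bt U x))).Sublist
            (K.filter (fun x => decide (bt U x))) := hs.filter _
        have h4 : [u, v].filter (fun x => decide (bt U x)) = [u, v] := by
          simp [hu, hv]
        rw [h4] at h3
        exact ((List.Sublist.cons _ h3).trans (List.sublist_append_right _ _))
      · by_cases hv : bt U v
        · unfold ins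
          have h5 : [u].Sublist (K.filter (fun x => decide (¬ bt U x))) := by
            rw [List.singleton_sublist, List.mem_filter]
            exact ⟨h.1.1, decide_eq_true hu⟩
          have h6 : [v].Sublist (r :: K.filter (fun x => decide (bt U x))) := by
            rw [List.singleton_sublist]
            exact List.mem_cons_of_mem _ (List.mem_filter.2 ⟨h.1.2, decide_eq_true hv⟩)
          exact List.Sublist.append h5 h6
        · have h3 : ([u, v].filter (fun x => decide (¬ bt U x))).Sublist
              (K.filter (fun x => decide (¬ bt U x))) := hs.filter _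
          have h4 : [u, v].filter (fun x => decide (¬ bt U x)) = [u, v] := by
            simp [hu, hv]
          rw [h4] at h3
          exact h3.trans (List.sublist_append_left _ _)
    · unfold ins
      have h5 : [u].Sublist (K.filter (fun x => decide (¬ bt U x))) := by
        rw [List.singleton_sublist, List.mem_filter]
        exact ⟨h1, decide_eq_true h2⟩
      have h6 : [v].Sublist (v :: K.filter (fun x => decide (bt U x))) := by
        rw [List.singleton_sublist]
        exact List.mem_cons_self
      exact List.Sublist.append h5 h6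
    · unfold ins
      have h5 : [v].Sublist (K.filter (fun x => decide (bt U x))) := by
        rw [List.singleton_sublist, List.mem_filter]
        exact ⟨h1, decide_eq_true h2⟩
      exact (List.Sublist.cons_cons _ h5).trans (List.sublist_append_right _ _)

end Pool.Agent.MP_bc2066_lc
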