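import Pool.Agent.Lib.MP_bc2066_lc.EP

/-!
Enumeration reducibility is reflexive and transitive.
-/

namespace Pool.Agent.MP_bc2066_lc

theorem EnumRed.refl (A : Set ℕ) : EnumRed A A := enumRed_iff.2 (EP.mem Primrec.id)

theorem EnumRed.trans {A B C : Set ℕ} (h1 : EnumRed A B) (h2 : EnumRed B C) : EnumRed A C :=
  enumRed_iff.2 ((enumRed_iff.1 h1).trans (enumRed_iff.1 h2))

end Pool.Agent.MP_bc2066_lc
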