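import Pool.Agent.Lib.MP_bc2066_lc.Order

/-!
The construction of a linear order of nodes from a Kalimullin pair over a total base.
-/

namespace Pool.Agent.MP_bc2066_lc

open Encodable Primrec Relation

section Graph

variable (Ws : ℕ → ℕ → ℕ → Prop)

/-- node `x` lies in the approximation at stage `s` -/
def Wst (s x : ℕ) : Prop := Ws s (Nat.unpair x).1 (Nat.unpair x).2

/-- `u` must stay to the left of `v` -/
def Edg (s : ℕ) (K : List ℕ) (u v : ℕ) : Prop :=
  ¬ Ws s (Nat.unpair v).1 (Nat.unpair u).2 ∨ Bef K u v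

/-- nodes of the graph used for `r` -/
def Node (s : ℕ) (K : List ℕ) (r x : ℕ) : Prop := x ∈ K ∨ (x ≤ r ∧ Wst Ws s x)

/-- the graph used for `r` -/
def Gr (s : ℕ) (K : List ℕ) (r u v : ℕ) : Prop :=
  (Node Ws s K r u ∧ Node Ws s K r v) ∧ Edg Ws s K u v

/-- `U` certifies that there is no cycle through `r` -/
def Cert (s : ℕ) (K : List ℕ) (r U : ℕ) : Prop :=
  ¬ bt U r ∧ ∀ u ∈ K ++ List.range (r + 1), ∀ v ∈ K ++ List.range (r + 1),
    (u = r ∨ bt U u) ∧ Gr Ws s K r u v → bt U v

/-- the node considered at stage `s` -/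
def cand (s : ℕ) : ℕ := (Nat.unpair s).1

/-- `U` is suitable for inserting the node considered at stage `s` -/
def Good (s : ℕ) (K : List ℕ) (U : ℕ) : Prop :=
  U < 2 ^ (s + 1) ∧ (cand s ∉ K ∧ Wst Ws s (cand s)) ∧ Cert Ws s K (cand s) U

open Classical in
/-- one stage -/
noncomputable def stepF (s : ℕ) (K : List ℕ) : List ℕ :=
  if h : ∃ U, Good Ws s K U then ins K (cand s) (Nat.find h) else K

/-- the list at stage `s` -/
noncomputable def Ks : ℕ → List ℕ
  | 0 => []
  | s + 1 => stepF Ws s (Ks s)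

theorem Gr.mem {s : ℕ} {K : List ℕ} {r u v : ℕ} (h : Gr Ws s K r u v) :
    u ∈ K ++ List.range (r + 1) ∧ v ∈ K ++ List.range (r + 1) := by
  have h1 : ∀ x, Node Ws s K r x → x ∈ K ++ List.range (r + 1) := by
    intro x hx
    rcases hx with hx | hx
    · exact List.mem_append_left _ hx
    · exact List.mem_append_right _ (List.mem_range.2 (by have := hx.1; omega))
  exact ⟨h1 u h.1.1, h1 v h.1.2⟩

theorem Cert.closed {s : ℕ} {K : List ℕ} {r U : ℕ} (h : Cert Ws s K r U) {u v : ℕ}
    (hu : u = r ∨ bt U u) (hg : Gr Ws s K r u v) : bt U v :=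
  h.2 u hg.mem.1 v hg.mem.2 ⟨hu, hg⟩

/-- either nothing happens or the candidate is inserted with a certificate -/
theorem step_cases (s : ℕ) :
    (Ks Ws (s + 1) = Ks Ws s ∧ ∀ U, ¬ Good Ws s (Ks Ws s) U) ∨
      ∃ U, Good Ws s (Ks Ws s) U ∧ Ks Ws (s + 1) = ins (Ks Ws s) (cand s) U := by
  classical
  by_cases h : ∃ U, Good Ws s (Ks Ws s) U
  · right
    refine ⟨Nat.find h, Nat.find_spec h, ?_⟩
    change stepF Ws s (Ks Ws s) = _
    unfold stepF
    rw [dif_pos h]
  · left
    refine ⟨?_, fun U hU => h ⟨U, hU⟩⟩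
    change stepF Ws s (Ks Ws s) = _
    unfold stepF
    rw [dif_neg h]

theorem ks_nodup (s : ℕ) : (Ks Ws s).Nodup := by
  induction s with
  | zero => exact List.nodup_nil
  | succ s ih =>
    rcases step_cases Ws s with ⟨h, -⟩ | ⟨U, hU, h⟩
    · rw [h]; exact ih
    · rw [h]; exact nodup_ins ih hU.2.1.1

theorem ks_le (s : ℕ) : ∀ x ∈ Ks Ws s, x ≤ s := by
  induction s with
  | zero => intro x hx; cases hx
  | succ s ih =>
    intro x hx
    rcases step_cases Ws s with ⟨h, -⟩ | ⟨U, -, h⟩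
    · rw [h] at hx
      have := ih x hx
      omega
    · rw [h, mem_ins] at hx
      rcases hx with hx | hx
      · have : cand s ≤ s := Nat.unpair_left_le s
        omega
      · have := ih x hx
        omega

theorem ks_mono {s t : ℕ} (h : s ≤ t) : ∀ x ∈ Ks Ws s, x ∈ Ks Ws t := by
  induction t, h using Nat.le_induction with
  | base => exact fun x hx => hx
  | succ t _ ih =>
    intro x hx
    rcases step_cases Ws t with ⟨h, -⟩ | ⟨U, -, h⟩
    · rw [h]; exact ih x hx
    · rw [h, mem_ins]; exact Or.inr (ih x hx)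

/-- closure of a certificate under the list order -/
theorem Cert.bef {s : ℕ} {K : List ℕ} {r U : ℕ} (h : Cert Ws s K r U) {u v : ℕ}
    (hu : bt U u) (hb : Bef K u v) : bt U v :=
  h.closed Ws (Or.inr hu) ⟨⟨Or.inl hb.1.1, Or.inl hb.1.2⟩, Or.inr hb⟩

theorem ks_bef_succ (s u v : ℕ) :
    Bef (Ks Ws s) u v → Bef (Ks Ws (s + 1)) u v := by
  intro hb
  rcases step_cases Ws s with ⟨h, -⟩ | ⟨U, hU, h⟩
  · rw [h]; exact hb
  · rw [h]
    exact (bef_ins (ks_nodup Ws s) hU.2.1.1 (fun u v hu hb => hU.2.2.bef Ws hu hb)).2 (Or.inl hb)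

theorem ks_bef_mono {s t : ℕ} (h : s ≤ t) {u v : ℕ} (hb : Bef (Ks Ws s) u v) :
    Bef (Ks Ws t) u v := by
  induction t, h using Nat.le_induction with
  | base => exact hb
  | succ t _ ih => exact ks_bef_succ Ws t u v ih

/-- soundness -/
theorem ks_sound (hmono : ∀ s n m, Ws s n m → Ws (s + 1) n m) (s : ℕ) :
    (∀ x ∈ Ks Ws s, Wst Ws s x) ∧
      ∀ u v, Bef (Ks Ws s) u v → Ws s (Nat.unpair u).1 (Nat.unpair v).2 := by
  induction s with
  | zero => exact ⟨fun x hx => (by cases hx), fun u v h => (by cases h.1.1)⟩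
  | succ s ih =>
    rcases step_cases Ws s with ⟨h, -⟩ | ⟨U, hU, h⟩
    · rw [h]
      exact ⟨fun x hx => hmono _ _ _ (ih.1 x hx), fun u v hb => hmono _ _ _ (ih.2 u v hb)⟩
    · rw [h]
      refine ⟨fun x hx => ?_, fun u v hb => ?_⟩
      · rcases mem_ins.1 hx with rfl | hx
        · exact hmono _ _ _ hU.2.1.2
        · exact hmono _ _ _ (ih.1 x hx)
      · rw [bef_ins (ks_nodup Ws s) hU.2.1.1 (fun u v hu hb => hU.2.2.bef Ws hu hb)] at hb
        have hr : Node Ws s (Ks Ws s) (cand s) (cand s) := Or.inr ⟨le_rfl, hU.2.1.2⟩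
        rcases hb with hb | ⟨⟨hu, hbt⟩, rfl⟩ | ⟨rfl, hv, hbt⟩
        · exact hmono _ _ _ (ih.2 u v hb)
        · refine hmono _ _ _ ?_
          by_contra hcon
          exact hbt (hU.2.2.closed Ws (Or.inl rfl) ⟨⟨hr, Or.inl hu⟩, Or.inl hcon⟩)
        · refine hmono _ _ _ ?_
          by_contra hcon
          exact hU.2.2.1 (hU.2.2.closed Ws (Or.inr hbt) ⟨⟨Or.inl hv, hr⟩, Or.inl hcon⟩)

/-- if there is no certificate, then there is a cycle -/
theorem cycle_of_no_cert {s : ℕ} (h1 : cand s ∉ Ks Ws s) (h2 : Wst Ws s (cand s))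
    (h3 : ∀ U, ¬ Good Ws s (Ks Ws s) U) :
    TransGen (Gr Ws s (Ks Ws s) (cand s)) (cand s) (cand s) := by
  by_contra hcon
  obtain ⟨U, hU, hbits⟩ := exists_bits (fun x => TransGen (Gr Ws s (Ks Ws s) (cand s)) (cand s) x)
    (s + 1)
  have hc : cand s ≤ s := Nat.unpair_left_le s
  have hle : ∀ x ∈ Ks Ws s ++ List.range (cand s + 1), x < s + 1 := by
    intro x hx
    rcases List.mem_append.1 hx with hx | hx
    · have := ks_le Ws s x hx
      omega
    · have := List.mem_range.1 hx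
      omega
  refine h3 U ⟨hU, ⟨h1, h2⟩, ?_, ?_⟩
  · intro hb
    exact hcon ((hbits _ (by omega)).1 hb)
  · rintro u hu v hv ⟨hur, hg⟩
    rw [hbits v (hle v hv)]
    rcases hur with rfl | hur
    · exact TransGen.single hg
    · exact TransGen.tail ((hbits u (hle u hu)).1 hur) hg

/-- strongly connected component of `r` -/
def Scc (R : ℕ → ℕ → Prop) (r x : ℕ) : Prop := TransGen R r x ∧ TransGen R x r

theorem scc_mono {R R' : ℕ → ℕ → Prop} {r : ℕ}
    (h : ∀ u v, Scc R' r u → Scc R' r v → R' u v → R u v) {x : ℕ} (hx : Scc R' r x) :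
    Scc R r x := by
  constructor
  · obtain ⟨h1, h2⟩ := hx
    induction h1 with
    | single h1 =>
      exact TransGen.single (h _ _ ⟨TransGen.head h1 h2, TransGen.head h1 h2⟩
        ⟨TransGen.single h1, h2⟩ h1)
    | tail h1 h3 ih =>
      have h4 := TransGen.head h3 h2
      exact TransGen.tail (ih h4) (h _ _ ⟨h1, h4⟩ ⟨TransGen.tail h1 h3, h2⟩ h3)
  · obtain ⟨h1, h2⟩ := hx
    induction h2 using TransGen.head_induction_on with
    | single h2 =>
      exact TransGen.single (h _ _ ⟨h1, TransGen.single h2⟩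
        ⟨TransGen.tail h1 h2, TransGen.tail h1 h2⟩ h2)
    | head h2 h3 ih =>
      have h4 := TransGen.tail h1 h2
      exact TransGen.head (h _ _ ⟨h1, TransGen.head h2 h3⟩ ⟨h4, h3⟩ h2) (ih h4)

end Graph

section Complete

variable {Ws : ℕ → ℕ → ℕ → Prop} {W : ℕ → ℕ → Prop} {B C : Set ℕ}

theorem exists_uniform {P : ℕ → ℕ → Prop} (hmono : ∀ s x, P s x → P (s + 1) x) (L : List ℕ) :
    ∃ s0, ∀ x ∈ L, (∃ s, P s x) → P s0 x := by
  have hm : ∀ s t x, s ≤ t → P s x → P t x := by
    intro s t x hst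
    induction t, hst using Nat.le_induction with
    | base => exact fun h => h
    | succ t _ ih => exact fun h => hmono t x (ih h)
  induction L with
  | nil => exact ⟨0, fun x hx => by cases hx⟩
  | cons a L ih =>
    obtain ⟨s0, h0⟩ := ih
    by_cases ha : ∃ s, P s a
    · obtain ⟨s1, h1⟩ := ha
      refine ⟨max s0 s1, fun x hx hex => ?_⟩
      rcases List.mem_cons.1 hx with rfl | hx
      · exact hm _ _ _ (le_max_right _ _) h1
      · exact hm _ _ _ (le_max_left _ _) (h0 x hx hex)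
    · refine ⟨s0, fun x hx hex => ?_⟩
      rcases List.mem_cons.1 hx with rfl | hx
      · exact (ha hex).elim
      · exact h0 x hx hex

/-- completeness: every element of `B × C` is eventually inserted -/
theorem ks_complete (hmono : ∀ s n m, Ws s n m → Ws (s + 1) n m)
    (hW : ∀ n m, W n m ↔ ∃ s, Ws s n m) (hwit : Wit W B C) {r : ℕ}
    (hr1 : (Nat.unpair r).1 ∈ B) (hr2 : (Nat.unpair r).2 ∈ C) : ∃ s, r ∈ Ks Ws s := by
  by_contra hcon
  push Not at hcon
  have hm : ∀ s t n m, s ≤ t → Ws s n m → Ws t n m := by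
    intro s t n m hst
    induction t, hst using Nat.le_induction with
    | base => exact fun h => h
    | succ t _ ih => exact fun h => hmono t n m (ih h)
  -- stage after which small nodes are settled
  obtain ⟨sa, hsa⟩ := exists_uniform (P := fun s x => x ∈ Ks Ws s)
    (fun s x hx => ks_mono Ws (Nat.le_succ s) x hx) (List.range (r + 1))
  obtain ⟨sb, hsb⟩ := exists_uniform (P := fun s x => Wst Ws s x)
    (fun s x hx => hmono _ _ _ hx) (List.range (r + 1))
  set s0 := max sa sb with hs0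
  have hA : ∀ x ≤ r, ∀ s, x ∈ Ks Ws s → ∀ t, s0 ≤ t → x ∈ Ks Ws t := by
    intro x hx s hs t ht
    exact ks_mono Ws (le_trans (le_max_left _ _) ht) x
      (hsa x (List.mem_range.2 (by omega)) ⟨s, hs⟩)
  have hB' : ∀ x ≤ r, ∀ s, Wst Ws s x → ∀ t, s0 ≤ t → Wst Ws t x := by
    intro x hx s hs t ht
    exact hm _ _ _ _ (le_trans (le_max_right _ _) ht)
      (hsb x (List.mem_range.2 (by omega)) ⟨s, hs⟩)
  -- the strongly connected component of `r` shrinks
  have hshrink : ∀ s, s0 ≤ s → ∀ x, Scc (Gr Ws (s + 1) (Ks Ws (s + 1)) r) r x →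
      Scc (Gr Ws s (Ks Ws s) r) r x := by
    intro s hs x hx
    rcases step_cases Ws s with ⟨h, -⟩ | ⟨U, hU, h⟩
    · refine scc_mono (fun u v _ _ huv => ?_) hx
      rw [h] at huv
      have hn : ∀ y, Node Ws (s + 1) (Ks Ws s) r y → Node Ws s (Ks Ws s) r y := by
        rintro y (hy | hy)
        · exact Or.inl hy
        · exact Or.inr ⟨hy.1, hB' y hy.1 _ hy.2 s hs⟩
      refine ⟨⟨hn _ huv.1.1, hn _ huv.1.2⟩, ?_⟩
      rcases huv.2 with h1 | h1
      · exact Or.inl (fun h2 => h1 (hmono _ _ _ h2))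
      · exact Or.inr h1
    · -- insertion of `y = cand s > r`
      have hyr : r < cand s := by
        by_contra hle
        have hin : cand s ∈ Ks Ws (s + 1) := by rw [h]; exact mem_ins.2 (Or.inl rfl)
        exact hU.2.1.1 (hA _ (by omega) _ hin s hs)
      have hnode : ∀ y, Node Ws (s + 1) (Ks Ws (s + 1)) r y → y = cand s ∨
          Node Ws s (Ks Ws s) (cand s) y := by
        rintro y (hy | hy)
        · rw [h, mem_ins] at hy
          rcases hy with hy | hy
          · exact Or.inl hy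
          · exact Or.inr (Or.inl hy)
        · exact Or.inr (Or.inr ⟨by have := hy.1; omega, hB' y hy.1 _ hy.2 s hs⟩)
      have hself : Node Ws s (Ks Ws s) (cand s) (cand s) := Or.inr ⟨le_rfl, hU.2.1.2⟩
      have hnode' : ∀ y, Node Ws (s + 1) (Ks Ws (s + 1)) r y → Node Ws s (Ks Ws s) (cand s) y := by
        intro y hy
        rcases hnode y hy with rfl | h1
        · exact hself
        · exact h1
      have hbef := fun {u v : ℕ} => bef_ins (u := u) (v := v) (ks_nodup Ws s) hU.2.1.1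
        (fun u v hu hb => hU.2.2.bef Ws hu hb)
      have hreach : ∀ z, TransGen (Gr Ws (s + 1) (Ks Ws (s + 1)) r) (cand s) z → bt U z := by
        intro z hz
        induction hz with
        | single hz =>
          rcases hz.2 with h1 | h1
          · exact hU.2.2.closed Ws (Or.inl rfl) ⟨⟨hself, hnode' _ hz.1.2⟩,
              Or.inl (fun h2 => h1 (hmono _ _ _ h2))⟩
          · rw [h, hbef] at h1
            rcases h1 with h1 | ⟨⟨h1, -⟩, -⟩ | ⟨-, -, h1⟩
            · exact (hU.2.1.1 h1.1.1).elim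
            · exact (hU.2.1.1 h1).elim
            · exact h1
        | tail _ hz ih =>
          rcases hz.2 with h1 | h1
          · exact hU.2.2.closed Ws (Or.inr ih) ⟨⟨hnode' _ hz.1.1, hnode' _ hz.1.2⟩,
              Or.inl (fun h2 => h1 (hmono _ _ _ h2))⟩
          · rw [h, hbef] at h1
            rcases h1 with h1 | ⟨⟨-, h1⟩, -⟩ | ⟨-, -, h1⟩
            · exact hU.2.2.bef Ws ih h1
            · exact (h1 ih).elim
            · exact h1
      have hny : ∀ z, Scc (Gr Ws (s + 1) (Ks Ws (s + 1)) r) r z → z ≠ cand s := by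
        rintro z ⟨h1, h2⟩ rfl
        exact hU.2.2.1 (hreach _ (h2.trans h1))
      refine scc_mono (fun u v hu hv huv => ?_) hx
      have hun := hny u hu
      have hvn := hny v hv
      have hn : ∀ y, y ≠ cand s → Node Ws (s + 1) (Ks Ws (s + 1)) r y →
          Node Ws s (Ks Ws s) r y := by
        rintro y hne (hy | hy)
        · rw [h, mem_ins] at hy
          rcases hy with hy | hy
          · exact (hne hy).elim
          · exact Or.inl hy
        · exact Or.inr ⟨hy.1, hB' y hy.1 _ hy.2 s hs⟩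
      refine ⟨⟨hn u hun huv.1.1, hn v hvn huv.1.2⟩, ?_⟩
      rcases huv.2 with h1 | h1
      · exact Or.inl (fun h2 => h1 (hmono _ _ _ h2))
      · rw [h, hbef] at h1
        rcases h1 with h1 | ⟨-, h1⟩ | ⟨h1, -⟩
        · exact Or.inr h1
        · exact (hvn h1).elim
        · exact (hun h1).elim
  have hshrink' : ∀ s, s0 ≤ s → ∀ x, Scc (Gr Ws s (Ks Ws s) r) r x →
      Scc (Gr Ws s0 (Ks Ws s0) r) r x := by
    intro s hs
    induction s, hs using Nat.le_induction with
    | base => exact fun x hx => hx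
    | succ s hs ih => exact fun x hx => ih x (hshrink s hs x hx)
  -- a stage at which the approximation is correct on the nodes in question
  set V0 : List ℕ := Ks Ws s0 ++ List.range (r + 1) with hV0
  have hV : ∀ s, s0 ≤ s → ∀ x, Scc (Gr Ws s (Ks Ws s) r) r x → x ∈ V0 := by
    intro s hs x hx
    obtain ⟨h1, h2⟩ := hshrink' s hs x hx
    obtain ⟨y, -, hy⟩ := TransGen.tail'_iff.1 h1
    exact hy.mem.2
  obtain ⟨sc, hsc⟩ := exists_uniform
    (P := fun s x => Ws s (Nat.unpair x).1 (Nat.unpair x).2) (fun s x hx => hmono _ _ _ hx)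
    (V0.flatMap (fun u => V0.map (fun v => Nat.pair (Nat.unpair v).1 (Nat.unpair u).2)))
  set s1 := Nat.pair r (max s0 sc) with hs1
  have hs1le : max s0 sc ≤ s1 := Nat.right_le_pair _ _
  have hcand : cand s1 = r := by
    unfold cand
    rw [hs1, Nat.unpair_pair]
  have hagree : ∀ u ∈ V0, ∀ v ∈ V0, W (Nat.unpair v).1 (Nat.unpair u).2 →
      Ws s1 (Nat.unpair v).1 (Nat.unpair u).2 := by
    intro u hu v hv hw
    obtain ⟨t, ht⟩ := (hW _ _).1 hw
    have h1 := hsc (Nat.pair (Nat.unpair v).1 (Nat.unpair u).2)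
      (List.mem_flatMap.2 ⟨u, hu, List.mem_map.2 ⟨v, hv, rfl⟩⟩)
      ⟨t, by rw [Nat.unpair_pair]; exact ht⟩
    rw [Nat.unpair_pair] at h1
    exact hm _ _ _ _ (le_trans (le_max_right _ _) hs1le) h1
  have hr0 : r ∉ Ks Ws s1 := hcon s1
  have hWr : Wst Ws s1 r := by
    have h1 := hwit.1 _ hr1 _ hr2
    obtain ⟨t, ht⟩ := (hW _ _).1 h1
    exact hB' r le_rfl t ht s1 (le_trans (le_max_left _ _) hs1le)
  have hno : ∀ U, ¬ Good Ws s1 (Ks Ws s1) U := by
    rcases step_cases Ws s1 with ⟨-, h⟩ | ⟨U, -, h⟩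
    · exact h
    · exfalso
      apply hcon (s1 + 1)
      rw [h, mem_ins, hcand]
      exact Or.inl rfl
  have hcyc := cycle_of_no_cert Ws (by rw [hcand]; exact hr0) (by rw [hcand]; exact hWr) hno
  rw [hcand] at hcyc
  have hs01 : s0 ≤ s1 := le_trans (le_max_left _ _) hs1le
  have hsound := ks_sound Ws hmono s1
  have hWof : ∀ n m, Ws s1 n m → W n m := fun n m h => (hW n m).2 ⟨s1, h⟩
  -- the closed set
  have hmain : ∀ x, TransGen (Gr Ws s1 (Ks Ws s1) r) r x → TransGen (Gr Ws s1 (Ks Ws s1) r) x r →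
      ((Nat.unpair x).1 ∉ B ∨ ∃ y, (Nat.unpair y).1 ∉ B ∧ Bef (Ks Ws s1) y x) := by
    have hrV : r ∈ V0 := hV s1 hs01 r ⟨hcyc, hcyc⟩
    intro x hx
    induction hx with
    | single hx =>
      intro hxr
      rename_i z
      have hzV : z ∈ V0 := hV s1 hs01 _ ⟨TransGen.single hx, hxr⟩
      rcases hx.2 with h1 | h1
      · left
        intro hzB
        exact h1 (hagree _ hrV _ hzV (hwit.1 _ hzB _ hr2))
      · exact (hr0 h1.1.1).elim
    | tail hx hxz ih =>
      intro hzr
      rename_i u z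
      have hur := TransGen.head hxz hzr
      have ihu := ih hur
      have huV : u ∈ V0 := hV s1 hs01 _ ⟨hx, hur⟩
      have hzV : z ∈ V0 := hV s1 hs01 _ ⟨TransGen.tail hx hxz, hzr⟩
      have huC : (Nat.unpair u).2 ∈ C := by
        by_contra huC
        rcases ihu with h1 | ⟨y, hy, hyu⟩
        · refine hwit.2 _ h1 _ huC (hWof _ _ ?_)
          rcases hxz.1.1 with h2 | h2
          · exact hsound.1 _ h2
          · exact h2.2
        · exact hwit.2 _ hy _ huC (hWof _ _ (hsound.2 _ _ hyu))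
      rcases hxz.2 with h1 | h1
      · left
        intro hzB
        exact h1 (hagree _ huV _ hzV (hwit.1 _ hzB _ huC))
      · right
        rcases ihu with h2 | ⟨y, hy, hyu⟩
        · exact ⟨u, h2, h1⟩
        · exact ⟨y, hy, hyu.trans h1⟩
  rcases hmain r hcyc hcyc with h1 | ⟨y, -, hy⟩
  · exact h1 hr1
  · exact hr0 hy.1.2

end Complete

end Pool.Agent.MP_bc2066_lc
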