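import Pool.Agent.Lib.MP_bc2066_lc.Force

/-!
The generic objects.
-/

namespace Pool.Agent.MP_bc2066_lc

/-- the set of finite columns of `T` -/
def Wset (T : Set ℕ) : Set ℕ := {w | ∃ v, ∀ t, v ≤ t → Nat.pair w t ∉ T}

/-- the base -/
def AA (Y0 T : Set ℕ) : Set ℕ := Aof Y0 (Wset T) T Tᶜ

/-- graph of a function -/
def HH (h : ℕ → ℕ) : Set ℕ := {x | h (Nat.unpair x).1 = (Nat.unpair x).2}

/-- the base together with `h` -/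
def XX (Y0 T : Set ℕ) (h : ℕ → ℕ) : Set ℕ := Xof Y0 (Wset T) T Tᶜ (HH h)

/-- the set determined by the second witness -/
def QQ (Y0 T B : Set ℕ) (e2 : ℕ) : Set ℕ := {κ | ∃ n, n ∉ B ∧ Nat.pair n κ ∈ Ev e2 (AA Y0 T)}

/-- `y` is a true fact about the base, verified at level `v` -/
def Lvl (Y0 T : Set ℕ) (v y : ℕ) : Prop :=
  (y % 2 = 0 ∧ ∀ t, v ≤ t → Nat.pair (y / 2) t ∉ T) ∨ (y % 2 = 1 ∧ y / 2 ∈ Jof Y0 T Tᶜ)

/-- outcomes of the main requirement in the final world -/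
def OutW (Y0 B C T : Set ℕ) (h : ℕ → ℕ) (idx : ℕ → ℕ → List ℕ → ℕ) (e1 e2 e3 : ℕ) : Prop :=
  (∃ l m1 m2, m1 ∉ C ∧ m2 ∈ C ∧ Nat.pair l m1 ∈ Ev e1 (AA Y0 T) ∧
    Nat.pair l m2 ∉ Ev e1 (AA Y0 T)) ∨
  (∃ κ n1 n2, n1 ∉ B ∧ n2 ∈ B ∧ Nat.pair n1 κ ∈ Ev e2 (AA Y0 T) ∧
    Nat.pair n2 κ ∉ Ev e2 (AA Y0 T)) ∨
  (∃ n0 m' g, (n0 ∉ B ∧ m' ∉ C ∧ g ∈ C ∧ Nat.pair n0 g ∈ Wset T) ∧
    kcode m' n0 g ∉ Ev e3 (join (QQ Y0 T B e2) (XX Y0 T h))) ∨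
  (∃ n0 m' g, m' ∉ C ∧ kcode m' n0 g ∈ Ev e3 (join (QQ Y0 T B e2) (XX Y0 T h)) ∧
    ∃ L, (∀ t, h L ≤ t → Nat.pair (Nat.pair n0 m') t ∉ T) ∧
      ∀ l < L, Nat.pair l g ∉ Ev e1 (AA Y0 T) ∨
        ∃ D, Op e1 (Nat.pair l m', D) ∧ (∀ y ∈ D, Lvl Y0 T (h L) y) ∧
          idx e1 (Nat.pair l m') D < h L)

theorem exists_generic (Dn : ℕ → Cond → Prop) (hd : ∀ i p, ∃ r, Ext p r ∧ Dn i r) :
    ∃ f : ℕ → Cond, (∀ n, Ext (f n) (f (n + 1))) ∧ ∀ i, Dn i (f (i + 1)) := by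
  let p0 : Cond :=
    { Np := ∅, Nm := ∅, Mp := ∅, Mm := ∅, Wp := ∅, Wm := ∅, Tp := ∅, Tm := ∅, sg := []
      hN := by simp, hM := by simp, hW := by simp, hT := by simp, h1 := by simp, h2 := by simp }
  obtain ⟨f, -, hf⟩ := exists_seq p0 (fun i p r => Ext p r ∧ Dn i r) hd
  exact ⟨f, fun n => (hf n).1, fun i => (hf i).2⟩

/-- all requirements -/
def Req (Y0 : Set ℕ) (idx : ℕ → ℕ → List ℕ → ℕ) (i : ℕ) (r : Cond) : Prop :=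
  match (Nat.unpair i).1 with
  | 0 => (Nat.unpair i).2 ∈ r.Np ∨ (Nat.unpair i).2 ∈ r.Nm
  | 1 => (Nat.unpair i).2 ∈ r.Mp ∨ (Nat.unpair i).2 ∈ r.Mm
  | 2 => (Nat.unpair (Nat.unpair i).2).1 ∈ r.Wp ∨ ∃ t, (Nat.unpair (Nat.unpair i).2).2 ≤ t ∧
      Nat.pair (Nat.unpair (Nat.unpair i).2).1 t ∈ r.Tp
  | 3 => (Nat.unpair (Nat.unpair i).2).1 ∈ r.Nm ∨ (Nat.unpair (Nat.unpair i).2).2 ∈ r.Mm ∨
      Nat.pair (Nat.unpair (Nat.unpair i).2).1 (Nat.unpair (Nat.unpair i).2).2 ∈ r.Wp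
  | 4 => (Nat.unpair i).2 ∈ r.Tp ∨ (Nat.unpair i).2 ∈ r.Tm
  | 5 => (Nat.unpair i).2 < r.sg.length
  | 6 => ∃ n, (n ∈ r.Nm ∧ n ∈ Ev (Nat.unpair i).2 (Xp Y0 r)) ∨
      (n ∈ r.Np ∧ ∀ q, Ext r q → n ∉ Ev (Nat.unpair i).2 (Xp Y0 q))
  | 7 => ∃ n, (n ∈ r.Mm ∧ n ∈ Ev (Nat.unpair i).2 (Xp Y0 r)) ∨
      (n ∈ r.Mp ∧ ∀ q, Ext r q → n ∉ Ev (Nat.unpair i).2 (Xp Y0 q))
  | _ => Out Y0 (Nat.unpair (Nat.unpair i).2).1 (Nat.unpair (Nat.unpair (Nat.unpair i).2).2).1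
      (Nat.unpair (Nat.unpair (Nat.unpair i).2).2).2 (idx (Nat.unpair (Nat.unpair i).2).1) r

theorem req_dense (Y0 : Set ℕ) (idx : ℕ → ℕ → List ℕ → ℕ) (i : ℕ) (p : Cond) :
    ∃ r, Ext p r ∧ Req Y0 idx i r := by
  unfold Req
  match (Nat.unpair i).1 with
  | 0 => exact dense_N _ p
  | 1 => exact dense_M _ p
  | 2 => exact dense_col _ _ p
  | 3 => exact dense_lock _ _ p
  | 4 => exact dense_T _ p
  | 5 => exact dense_h _ p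
  | 6 => exact dense_B _ p
  | 7 => exact dense_C _ p
  | _ + 8 => exact dense_main _ _ _ _ p

theorem join_union {ι : Type*} {A B : Set ℕ} {A' B' : ι → Set ℕ}
    (h1 : ∀ x, x ∈ A ↔ ∃ i, x ∈ A' i) (h2 : ∀ x, x ∈ B ↔ ∃ i, x ∈ B' i) (x : ℕ) :
    x ∈ join A B ↔ ∃ i, x ∈ join (A' i) (B' i) := by
  constructor
  · rintro (⟨h, h'⟩ | ⟨h, h'⟩)
    · obtain ⟨i, hi⟩ := (h1 _).1 h'
      exact ⟨i, Or.inl ⟨h, hi⟩⟩
    · obtain ⟨i, hi⟩ := (h2 _).1 h'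
      exact ⟨i, Or.inr ⟨h, hi⟩⟩
  · rintro ⟨i, ⟨h, h'⟩ | ⟨h, h'⟩⟩
    · exact Or.inl ⟨h, (h1 _).2 ⟨i, h'⟩⟩
    · exact Or.inr ⟨h, (h2 _).2 ⟨i, h'⟩⟩

theorem ev_union {S : Set ℕ} {S' : ℕ → Set ℕ} (hm : ∀ i j, i ≤ j → S' i ⊆ S' j)
    (h : ∀ x, x ∈ S ↔ ∃ i, x ∈ S' i) (e x : ℕ) : x ∈ Ev e S ↔ ∃ i, x ∈ Ev e (S' i) := by
  constructor
  · rintro ⟨D, hD, hD'⟩
    have : ∃ i, ∀ y ∈ D, y ∈ S' i := by
      clear hD
      induction D with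
      | nil => exact ⟨0, by simp⟩
      | cons a D ih =>
        obtain ⟨i, hi⟩ := ih (fun y hy => hD' y (List.mem_cons_of_mem _ hy))
        obtain ⟨j, hj⟩ := (h a).1 (hD' a List.mem_cons_self)
        refine ⟨max i j, fun y hy => ?_⟩
        rcases List.mem_cons.1 hy with rfl | hy
        · exact hm _ _ (le_max_right _ _) hj
        · exact hm _ _ (le_max_left _ _) (hi y hy)
    obtain ⟨i, hi⟩ := this
    exact ⟨i, D, hD, hi⟩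
  · rintro ⟨i, D, hD, hi⟩
    exact ⟨D, hD, fun y hy => (h y).2 ⟨i, hi y hy⟩⟩

/-- existence of the generic world -/
theorem exists_world (Y0 : Set ℕ) (idx : ℕ → ℕ → List ℕ → ℕ) :
    ∃ (B C T : Set ℕ) (h : ℕ → ℕ), (∀ n ∈ B, ∀ m ∈ C, Nat.pair n m ∈ Wset T) ∧
      (∀ n, n ∉ B → ∀ m, m ∉ C → Nat.pair n m ∉ Wset T) ∧
      (∀ e, B ≠ Ev e (XX Y0 T h)) ∧ (∀ e, C ≠ Ev e (XX Y0 T h)) ∧
      ∀ e1 e2 e3, OutW Y0 B C T h idx e1 e2 e3 := by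
  obtain ⟨f, hf, hreq⟩ := exists_generic (Req Y0 idx) (req_dense Y0 idx)
  have hext : ∀ i j, i ≤ j → Ext (f i) (f j) := by
    intro i j hij
    induction j, hij using Nat.le_induction with
    | base => exact Ext.refl _
    | succ j _ ih => exact ih.trans (hf j)
  have hr : ∀ tag a, ∃ i, Req Y0 idx (Nat.pair tag a) (f i) := fun tag a => ⟨_, hreq _⟩
  have hR0 : ∀ n, ∃ i, n ∈ (f i).Np ∨ n ∈ (f i).Nm := by
    intro n
    have h := hr 0 n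
    simpa only [Req, Nat.unpair_pair] using h
  have hR1 : ∀ n, ∃ i, n ∈ (f i).Mp ∨ n ∈ (f i).Mm := by
    intro n
    have h := hr 1 n
    simpa only [Req, Nat.unpair_pair] using h
  have hR2 : ∀ w v, ∃ i, w ∈ (f i).Wp ∨ ∃ t, v ≤ t ∧ Nat.pair w t ∈ (f i).Tp := by
    intro w v
    have h := hr 2 (Nat.pair w v)
    simpa only [Req, Nat.unpair_pair] using h
  have hR3 : ∀ n m, ∃ i, n ∈ (f i).Nm ∨ m ∈ (f i).Mm ∨ Nat.pair n m ∈ (f i).Wp := by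
    intro n m
    have h := hr 3 (Nat.pair n m)
    simpa only [Req, Nat.unpair_pair] using h
  have hR4 : ∀ e, ∃ i, e ∈ (f i).Tp ∨ e ∈ (f i).Tm := by
    intro n
    have h := hr 4 n
    simpa only [Req, Nat.unpair_pair] using h
  have hR5 : ∀ n, ∃ i, n < (f i).sg.length := by
    intro n
    have h := hr 5 n
    simpa only [Req, Nat.unpair_pair] using h
  have hR6 : ∀ e, ∃ i, ∃ n, (n ∈ (f i).Nm ∧ n ∈ Ev e (Xp Y0 (f i))) ∨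
      (n ∈ (f i).Np ∧ ∀ q, Ext (f i) q → n ∉ Ev e (Xp Y0 q)) := by
    intro e
    have h := hr 6 e
    simpa only [Req, Nat.unpair_pair] using h
  have hR7 : ∀ e, ∃ i, ∃ n, (n ∈ (f i).Mm ∧ n ∈ Ev e (Xp Y0 (f i))) ∨
      (n ∈ (f i).Mp ∧ ∀ q, Ext (f i) q → n ∉ Ev e (Xp Y0 q)) := by
    intro e
    have h := hr 7 e
    simpa only [Req, Nat.unpair_pair] using h
  have hR8 : ∀ e1 e2 e3, ∃ i, Out Y0 e1 e2 e3 (idx e1) (f i) := by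
    intro e1 e2 e3
    have h := hr 8 (Nat.pair e1 (Nat.pair e2 e3))
    simpa only [Req, Nat.unpair_pair] using h
  set B : Set ℕ := {n | ∃ i, n ∈ (f i).Np} with hB
  set C : Set ℕ := {n | ∃ i, n ∈ (f i).Mp} with hC
  set T : Set ℕ := {n | ∃ i, n ∈ (f i).Tp} with hT
  have hnB : ∀ i, ∀ n ∈ (f i).Nm, n ∉ B := by
    rintro i n hn ⟨j, hj⟩
    exact (f (max i j)).hN n ((hext _ _ (le_max_right _ _)).Np hj)
      ((hext _ _ (le_max_left _ _)).Nm hn)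
  have hnC : ∀ i, ∀ n ∈ (f i).Mm, n ∉ C := by
    rintro i n hn ⟨j, hj⟩
    exact (f (max i j)).hM n ((hext _ _ (le_max_right _ _)).Mp hj)
      ((hext _ _ (le_max_left _ _)).Mm hn)
  have hnT : ∀ i, ∀ n ∈ (f i).Tm, n ∉ T := by
    rintro i n hn ⟨j, hj⟩
    exact (f (max i j)).hT n ((hext _ _ (le_max_right _ _)).Tp hj)
      ((hext _ _ (le_max_left _ _)).Tm hn)
  have hTc : ∀ x, x ∈ Tᶜ ↔ ∃ i, x ∈ ((f i).Tm : Set ℕ) := by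
    intro x
    constructor
    · intro hx
      obtain ⟨i, hi | hi⟩ := hR4 x
      · exact (hx ⟨i, hi⟩).elim
      · exact ⟨i, hi⟩
    · rintro ⟨i, hi⟩
      exact hnT i x hi
  have hT' : ∀ x, x ∈ T ↔ ∃ i, x ∈ ((f i).Tp : Set ℕ) := fun x => Iff.rfl
  -- locked columns receive no new elements
  have hlock : ∀ i, ∀ w ∈ (f i).Wp, ∀ t, Nat.pair w t ∈ T → Nat.pair w t ∈ (f i).Tp := by
    rintro i w hw t ⟨j, hj⟩
    by_contra hcon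
    have hE := hext i (max i j) (le_max_left _ _)
    have h1 : Nat.pair w t ∈ (f (max i j)).Tp := (hext _ _ (le_max_right _ _)).Tp hj
    have h2 := hE.lock _ h1 hcon
    rw [Nat.unpair_pair] at h2
    exact h2 hw
  have hlvl : ∀ i, ∀ w ∈ (f i).Wp, ∀ v, (∀ e ∈ (f i).Tp, (Nat.unpair e).2 < v) →
      ∀ t, v ≤ t → Nat.pair w t ∉ T := by
    intro i w hw v hv t ht hcon
    have h1 := hv _ (hlock i w hw t hcon)
    rw [Nat.unpair_pair] at h1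
    dsimp only at h1
    omega
  have hW : ∀ x, x ∈ Wset T ↔ ∃ i, x ∈ ((f i).Wp : Set ℕ) := by
    intro w
    constructor
    · rintro ⟨v, hv⟩
      obtain ⟨i, hi | ⟨t, ht, hi⟩⟩ := hR2 w v
      · exact ⟨i, hi⟩
      · exact (hv t ht ⟨i, hi⟩).elim
    · rintro ⟨i, hi⟩
      obtain ⟨v, hv⟩ := Finset.exists_nat_subset_range (f i).Tp
      refine ⟨v, hlvl i w hi v (fun e he => ?_)⟩
      exact lt_of_le_of_lt (Nat.unpair_right_le e) (Finset.mem_range.1 (hv he))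
  -- the function `h`
  have hex : ∀ n : ℕ, ∃ v : ℕ, ∃ i : ℕ, (f i).sg[n]? = some v := by
    intro n
    obtain ⟨i, hi⟩ := hR5 n
    exact ⟨_, i, List.getElem?_eq_getElem hi⟩
  choose h hh using hex
  have hsg : ∀ i j : ℕ, i ≤ j → ∀ n v : ℕ, (f i).sg[n]? = some v → (f j).sg[n]? = some v := by
    intro i j hij n v hv
    obtain ⟨u, hu⟩ := (hext i j hij).sg
    rw [← hu]
    obtain ⟨h2, h3⟩ := List.getElem?_eq_some_iff.1 hv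
    rw [List.getElem?_append_left h2, hv]
  have hhval : ∀ i n v : ℕ, (f i).sg[n]? = some v → h n = v := by
    intro i n v hv
    obtain ⟨j, hj⟩ := hh n
    have h1 := hsg i (max i j) (le_max_left _ _) n v hv
    have h2 := hsg j (max i j) (le_max_right _ _) n _ hj
    rw [h1] at h2
    exact (Option.some.inj h2).symm
  have hH : ∀ x, x ∈ HH h ↔ ∃ i, x ∈ gl (f i).sg := by
    intro x
    constructor
    · intro hx
      obtain ⟨i, hi⟩ := hh (Nat.unpair x).1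
      refine ⟨i, ?_⟩
      change (f i).sg[(Nat.unpair x).1]? = some (Nat.unpair x).2
      rw [hi]
      exact congrArg some hx
    · rintro ⟨i, hi⟩
      exact hhval i _ _ hi
  have hconst : ∀ (S : Set ℕ) (x : ℕ), x ∈ S ↔ ∃ _ : ℕ, x ∈ S := fun S x =>
    ⟨fun hx => ⟨0, hx⟩, fun ⟨_, hx⟩ => hx⟩
  have hJ : ∀ x, x ∈ Jof Y0 T Tᶜ ↔ ∃ i, x ∈ Jof Y0 ((f i).Tp : Set ℕ) ((f i).Tm : Set ℕ) := by
    intro x
    exact join_union (join_union hT' (hconst Y0)) (join_union hTc (hconst Y0ᶜ)) x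
  have hA : ∀ x, x ∈ AA Y0 T ↔ ∃ i, x ∈ Ap Y0 (f i) := by
    intro x
    exact join_union hW hJ x
  have hX : ∀ x, x ∈ XX Y0 T h ↔ ∃ i, x ∈ Xp Y0 (f i) := by
    intro x
    exact join_union hA hH x
  have hEvA : ∀ e x, x ∈ Ev e (AA Y0 T) ↔ ∃ i, x ∈ Ev e (Ap Y0 (f i)) :=
    fun e x => ev_union (fun i j hij => ap_mono (hext i j hij)) hA e x
  have hEvX : ∀ e x, x ∈ Ev e (XX Y0 T h) ↔ ∃ i, x ∈ Ev e (Xp Y0 (f i)) :=
    fun e x => ev_union (fun i j hij => xp_mono (hext i j hij)) hX e x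
  have hQ : ∀ e2 x, x ∈ QQ Y0 T B e2 ↔ ∃ i, x ∈ Qp Y0 e2 (f i) := by
    intro e2 x
    constructor
    · rintro ⟨n, hn, hx⟩
      obtain ⟨i, hi⟩ := (hEvA e2 _).1 hx
      obtain ⟨j, hj | hj⟩ := hR0 n
      · exact (hn ⟨j, hj⟩).elim
      · exact ⟨max i j, n, (hext _ _ (le_max_right _ _)).Nm hj,
          Ev.mono (ap_mono (hext _ _ (le_max_left _ _))) hi⟩
    · rintro ⟨i, n, hn, hx⟩
      exact ⟨n, hnB i n hn, (hEvA e2 _).2 ⟨i, hx⟩⟩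
  have hEvQ : ∀ e2 e3 x, x ∈ Ev e3 (join (QQ Y0 T B e2) (XX Y0 T h)) ↔
      ∃ i, x ∈ Ev e3 (join (Qp Y0 e2 (f i)) (Xp Y0 (f i))) := by
    intro e2 e3 x
    exact ev_union (fun i j hij => join_mono (qp_mono (hext i j hij)) (xp_mono (hext i j hij)))
      (fun y => join_union (hQ e2) hX y) e3 x
  refine ⟨B, C, T, h, ?_, ?_, ?_, ?_, ?_⟩
  · rintro n hn m hm
    obtain ⟨i, hi | hi | hi⟩ := hR3 n m
    · exact (hnB i n hi hn).elim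
    · exact (hnC i m hi hm).elim
    · exact (hW _).2 ⟨i, hi⟩
  · intro n hn m hm hcon
    obtain ⟨i, hi⟩ := (hW _).1 hcon
    obtain ⟨j, hj | hj⟩ := hR0 n
    · exact hn ⟨j, hj⟩
    obtain ⟨k, hk | hk⟩ := hR1 m
    · exact hm ⟨k, hk⟩
    have h1 : n ∈ (f (max i (max j k))).Nm := (hext _ _ (by omega)).Nm hj
    have h2 : m ∈ (f (max i (max j k))).Mm := (hext _ _ (by omega)).Mm hk
    have h3 : Nat.pair n m ∈ (f (max i (max j k))).Wp := (hext _ _ (by omega)).Wp hi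
    exact (f (max i (max j k))).h1 n h1 m h2 h3
  · intro e he
    obtain ⟨i, n, ⟨hn, hn'⟩ | ⟨hn, hn'⟩⟩ := hR6 e
    · exact hnB i n hn (he ▸ (hEvX e n).2 ⟨i, hn'⟩)
    · have h1 : n ∈ Ev e (XX Y0 T h) := by
        rw [← he]
        exact ⟨i, hn⟩
      obtain ⟨j, hj⟩ := (hEvX e n).1 h1
      exact hn' (f (max i j)) (hext _ _ (le_max_left _ _))
        (Ev.mono (xp_mono (hext _ _ (le_max_right _ _))) hj)
  · intro e he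
    obtain ⟨i, n, ⟨hn, hn'⟩ | ⟨hn, hn'⟩⟩ := hR7 e
    · exact hnC i n hn (he ▸ (hEvX e n).2 ⟨i, hn'⟩)
    · have h1 : n ∈ Ev e (XX Y0 T h) := by
        rw [← he]
        exact ⟨i, hn⟩
      obtain ⟨j, hj⟩ := (hEvX e n).1 h1
      exact hn' (f (max i j)) (hext _ _ (le_max_left _ _))
        (Ev.mono (xp_mono (hext _ _ (le_max_right _ _))) hj)
  · intro e1 e2 e3
    obtain ⟨i, hi⟩ := hR8 e1 e2 e3
    have hneg : ∀ e x, (∀ q, Ext (f i) q → x ∉ Ev e (Ap Y0 q)) → x ∉ Ev e (AA Y0 T) := by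
      intro e x hq hx
      obtain ⟨j, hj⟩ := (hEvA e x).1 hx
      exact hq (f (max i j)) (hext _ _ (le_max_left _ _))
        (Ev.mono (ap_mono (hext _ _ (le_max_right _ _))) hj)
    rcases hi with ⟨l, m1, m2, h1, h2, h3, h4⟩ | ⟨κ, n1, n2, h1, h2, h3, h4⟩ |
      ⟨n0, m', g, ⟨h1, h2, h3, h4⟩, h5⟩ | ⟨n0, m', g, ⟨h1, h2⟩, h3, L, big, h4, h5, h6⟩
    · exact Or.inl ⟨l, m1, m2, hnC i _ h1, ⟨i, h2⟩, (hEvA _ _).2 ⟨i, h3⟩, hneg _ _ h4⟩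
    · exact Or.inr (Or.inl ⟨κ, n1, n2, hnB i _ h1, ⟨i, h2⟩, (hEvA _ _).2 ⟨i, h3⟩, hneg _ _ h4⟩)
    · refine Or.inr (Or.inr (Or.inl ⟨n0, m', g, ⟨hnB i _ h1, hnC i _ h2, ⟨i, h3⟩,
        (hW _).2 ⟨i, h4⟩⟩, ?_⟩))
      intro hx
      obtain ⟨j, hj⟩ := (hEvQ _ _ _).1 hx
      have hE := hext _ _ (le_max_right i j)
      exact h5 (f (max i j)) (hext _ _ (le_max_left _ _))
        (Ev.mono (join_mono (qp_mono hE) (xp_mono hE)) hj)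
    · refine Or.inr (Or.inr (Or.inr ⟨n0, m', g, hnC i _ h1, (hEvQ _ _ _).2 ⟨i, h3⟩, L, ?_⟩))
      have hbig : h L = big := hhval i L big h4
      rw [hbig]
      refine ⟨hlvl i _ h2 big h5, fun l hl => ?_⟩
      rcases h6 l hl with h7 | ⟨D, hD, hD', hD''⟩
      · exact Or.inl (hneg _ _ h7)
      · refine Or.inr ⟨D, hD, fun y hy => ?_, hD''⟩
        rcases hD' y hy with ⟨h8, h9⟩ | ⟨h8, h9⟩
        · exact Or.inl ⟨h8, hlvl i _ h9 big h5⟩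
        · exact Or.inr ⟨h8, (hJ _).2 ⟨i, h9⟩⟩

end Pool.Agent.MP_bc2066_lc
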